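import Mathlib

/-! Helper file (helper785): Milnor-type lemma and its consequences for groups whose `(k+1)`-st
lower central term is locally finite. -/

namespace Pool.Agent.H785R3.GrowthA

open Subgroup

universe u

/-- value of a `Bool`-word in the two letters `a` (for `false`) and `b` (for `true`) -/
def ev {G : Type u} [Group G] (a b : G) (l : List Bool) : G :=
  (l.map (fun t => if t then b else a)).prod

/-- `a, b` freely generate a free semigroup (length-homogeneous version). -/
def FreePair {G : Type u} [Group G] (a b : G) : Prop :=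
  ∀ l l' : List Bool, l.length = l'.length → ev a b l = ev a b l' → l = l'

/-- A subgroup all of whose finite subsets generate finite subgroups. -/
def LF {G : Type u} [Group G] (N : Subgroup G) : Prop :=
  ∀ T : Set G, T.Finite → T ⊆ (N : Set G) → Finite (closure T)

variable {G : Type u} [Group G]

@[simp] lemma ev_nil (a b : G) : ev a b [] = 1 := by simp [ev]

@[simp] lemma ev_cons (a b : G) (t : Bool) (l : List Bool) :
    ev a b (t :: l) = (if t then b else a) * ev a b l := by simp [ev]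

lemma LF.finOrder {N : Subgroup G} (hN : LF N) {g : G} (hg : g ∈ N) : ∃ q : ℕ, 0 < q ∧ g ^ q = 1 := by
  have h1 : Finite (closure ({g} : Set G)) := hN {g} (Set.finite_singleton g) (by simpa using hg)
  have h2 : IsOfFinOrder (⟨g, subset_closure rfl⟩ : closure ({g} : Set G)) := isOfFinOrder_of_finite _
  rw [isOfFinOrder_iff_pow_eq_one] at h2
  obtain ⟨n, hn, h⟩ := h2
  refine ⟨n, hn, ?_⟩
  have := congrArg Subtype.val h
  simpa using this

/-- the main point of Milnor's lemma: for `l` a word of length `m`, `a⁻ᵐ * ev l` is in the subgroup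
generated by the conjugates `a⁻ʲ c aʲ`, `j < m`, where `b = a c`. -/
lemma ev_mem (a c : G) (l : List Bool) :
    (a ^ l.length)⁻¹ * ev a (a * c) l ∈
      closure ((fun j : ℕ => (a ^ j)⁻¹ * c * a ^ j) '' Set.Iio l.length) := by
  induction l with
  | nil => simp
  | cons t l ih =>
    have hmono : closure ((fun j : ℕ => (a ^ j)⁻¹ * c * a ^ j) '' Set.Iio l.length) ≤
        closure ((fun j : ℕ => (a ^ j)⁻¹ * c * a ^ j) '' Set.Iio (t :: l).length) := by
      apply Subgroup.closure_mono
      apply Set.image_mono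
      intro x hx
      simp only [Set.mem_Iio, List.length_cons] at hx ⊢
      omega
    have hc : (a ^ l.length)⁻¹ * c * a ^ l.length ∈
        closure ((fun j : ℕ => (a ^ j)⁻¹ * c * a ^ j) '' Set.Iio (t :: l).length) := by
      apply Subgroup.subset_closure
      exact ⟨l.length, by simp, rfl⟩
    have ih' := hmono ih
    cases t with
    | false =>
      have : (a ^ (false :: l).length)⁻¹ * ev a (a * c) (false :: l) =
          (a ^ l.length)⁻¹ * ev a (a * c) l := by
        simp only [List.length_cons, ev_cons, pow_succ']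
        simp
      rw [this]; exact ih'
    | true =>
      have : (a ^ (true :: l).length)⁻¹ * ev a (a * c) (true :: l) =
          ((a ^ l.length)⁻¹ * c * a ^ l.length) * ((a ^ l.length)⁻¹ * ev a (a * c) l) := by
        simp only [List.length_cons, ev_cons, pow_succ']
        simp [mul_assoc]
      rw [this]; exact mul_mem hc ih'

/-- If two words of the same length are different and have equal value, then (with `b = a c`)
some conjugate `a⁻ᵐ c aᵐ` is in the subgroup generated by the previous ones. -/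
lemma exists_conj_mem (a c : G) : ∀ l l' : List Bool, l.length = l'.length →
    ev a (a * c) l = ev a (a * c) l' → l ≠ l' →
    ∃ m : ℕ, (a ^ m)⁻¹ * c * a ^ m ∈
      closure ((fun j : ℕ => (a ^ j)⁻¹ * c * a ^ j) '' Set.Iio m)
  | [], [], _, _, h => absurd rfl h
  | [], _ :: _, h, _, _ => by simp at h
  | _ :: _, [], h, _, _ => by simp at h
  | t :: l, t' :: l', hlen, hev, hne => by
    have hlen' : l.length = l'.length := by simpa using hlen
    have e1 := ev_mem a c l
    have e2 := ev_mem a c l'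
    rw [← hlen'] at e2
    rw [ev_cons, ev_cons] at hev
    cases t <;> cases t'
    · have h1 : ev a (a * c) l = ev a (a * c) l' := by simpa using hev
      exact exists_conj_mem a c l l' hlen' h1 (fun h => hne (by rw [h]))
    · refine ⟨l.length, ?_⟩
      have h1 : ev a (a * c) l = c * ev a (a * c) l' := by
        have : a * ev a (a * c) l = a * (c * ev a (a * c) l') := by simpa [mul_assoc] using hev
        exact mul_left_cancel this
      have h2 : (a ^ l.length)⁻¹ * c * a ^ l.length =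
          ((a ^ l.length)⁻¹ * ev a (a * c) l) * ((a ^ l.length)⁻¹ * ev a (a * c) l')⁻¹ := by
        rw [h1]; group
      rw [h2]
      exact mul_mem e1 (inv_mem e2)
    · refine ⟨l.length, ?_⟩
      have h1 : c * ev a (a * c) l = ev a (a * c) l' := by
        have : a * (c * ev a (a * c) l) = a * ev a (a * c) l' := by simpa [mul_assoc] using hev
        exact mul_left_cancel this
      have h2 : (a ^ l.length)⁻¹ * c * a ^ l.length =
          ((a ^ l.length)⁻¹ * ev a (a * c) l') * ((a ^ l.length)⁻¹ * ev a (a * c) l)⁻¹ := by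
        rw [← h1]; group
      rw [h2]
      exact mul_mem e2 (inv_mem e1)
    · have h1 : ev a (a * c) l = ev a (a * c) l' := by simpa using hev
      exact exists_conj_mem a c l l' hlen' h1 (fun h => hne (by rw [h]))

/-- **Milnor's lemma** in a locally finite normal subgroup. -/
lemma milnor {N : Subgroup G} [N.Normal] (hN : LF N) {a b : G} (hab : a⁻¹ * b ∈ N)
    (h : ¬ FreePair a b) : ∃ M : ℕ, 0 < M ∧ a ^ M = b ^ M := by
  obtain ⟨c, rfl⟩ : ∃ c, b = a * c := ⟨a⁻¹ * b, by group⟩
  have hc : c ∈ N := by simpa using hab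
  unfold FreePair at h
  push Not at h
  obtain ⟨l, l', hlen, hev, hne⟩ := h
  obtain ⟨m, hm⟩ := exists_conj_mem a c l l' hlen hev hne
  set L := closure ((fun j : ℕ => (a ^ j)⁻¹ * c * a ^ j) '' Set.Iio m) with hL
  have hLfin : Finite L := by
    apply hN
    · exact (Set.finite_Iio m).image _
    · rintro _ ⟨j, -, rfl⟩
      have := ‹N.Normal›.conj_mem c hc (a ^ j)⁻¹
      simpa using this
  -- L is mapped to itself by conjugation by a⁻¹
  have hconj : ∀ g ∈ L, a⁻¹ * g * a ∈ L := by
    intro g hg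
    have hle : L ≤ L.comap (MulAut.conj a⁻¹).toMonoidHom := by
      rw [hL, closure_le]
      rintro _ ⟨j, hj, rfl⟩
      simp only [Set.mem_Iio] at hj
      rw [← hL]
      simp only [SetLike.mem_coe, mem_comap, MulEquiv.coe_toMonoidHom, MulAut.conj_apply, inv_inv]
      have h1 : a⁻¹ * ((a ^ j)⁻¹ * c * a ^ j) * a = (a ^ (j + 1))⁻¹ * c * a ^ (j + 1) := by
        rw [pow_succ]; group
      rw [h1]
      rcases Nat.lt_or_ge (j + 1) m with h2 | h2
      · exact subset_closure ⟨j + 1, h2, rfl⟩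
      · have : j + 1 = m := by omega
        rw [this]; exact hm
    have := hle hg
    simpa using this
  have hb : ∀ j : ℕ, (a ^ j)⁻¹ * c * a ^ j ∈ L := by
    intro j
    rcases Nat.lt_or_ge j m with h2 | h2
    · exact subset_closure ⟨j, h2, rfl⟩
    · induction j, h2 using Nat.le_induction with
      | base => exact hm
      | succ j hj ih =>
        have := hconj _ ih
        have h1 : a⁻¹ * ((a ^ j)⁻¹ * c * a ^ j) * a = (a ^ (j + 1))⁻¹ * c * a ^ (j + 1) := by
          rw [pow_succ]; group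
        rw [← h1]; exact this
  have hpow : ∀ j : ℕ, (a ^ j)⁻¹ * (a * c) ^ j ∈ L := by
    intro j
    induction j with
    | zero => simp
    | succ j ih =>
      have h1 : (a ^ (j + 1))⁻¹ * (a * c) ^ (j + 1) =
          ((a ^ j)⁻¹ * c * a ^ j) * ((a ^ j)⁻¹ * (a * c) ^ j) := by
        rw [pow_succ' (a * c) j, pow_succ' a j]
        simp [mul_assoc]
      rw [h1]
      exact mul_mem (hb j) ih
  -- pigeonhole
  obtain ⟨i, j, hij, hEq⟩ := Finite.exists_ne_map_eq_of_infinite
    (fun j : ℕ => (⟨(a ^ j)⁻¹ * (a * c) ^ j, hpow j⟩ : L))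
  have hEq' : (a ^ i)⁻¹ * (a * c) ^ i = (a ^ j)⁻¹ * (a * c) ^ j := congrArg Subtype.val hEq
  have key : ∀ i j : ℕ, i < j → (a ^ i)⁻¹ * (a * c) ^ i = (a ^ j)⁻¹ * (a * c) ^ j →
      ∃ M : ℕ, 0 < M ∧ a ^ M = (a * c) ^ M := by
    intro i j hij hEq
    refine ⟨j - i, by omega, ?_⟩
    obtain ⟨k, rfl⟩ := Nat.exists_eq_add_of_lt hij
    have hk : i + k + 1 - i = k + 1 := by omega
    rw [hk]
    have h1 : a ^ (i + k + 1) = a ^ (k + 1) * a ^ i := by rw [← pow_add]; congr 1; omega
    have h2 : (a * c) ^ (i + k + 1) = (a * c) ^ (k + 1) * (a * c) ^ i := by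
      rw [← pow_add]; congr 1; omega
    rw [h1, h2] at hEq
    have h3 : a ^ (k + 1) * (a ^ i * ((a ^ i)⁻¹ * (a * c) ^ i)) =
        (a * c) ^ (k + 1) * (a * c) ^ i := by
      rw [hEq]; group
    have h4 : a ^ (k + 1) * (a * c) ^ i = (a * c) ^ (k + 1) * (a * c) ^ i := by
      rw [← h3]; group
    exact mul_right_cancel h4
  rcases lt_or_gt_of_ne hij with h2 | h2
  · exact key i j h2 hEq'
  · exact key j i h2 hEq'.symm

/-- If `ζ` commutes with `g` and `ζ⁻¹ gⁿ ∈ N` then a power of `g` is a power of `ζ`. -/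
lemma pow_eq_pow {N : Subgroup G} (hN : LF N) {g ζ : G} {n : ℕ} (hc : Commute ζ g)
    (hmem : ζ⁻¹ * g ^ n ∈ N) : ∃ q : ℕ, 0 < q ∧ g ^ (n * q) = ζ ^ q := by
  obtain ⟨q, hq, h⟩ := hN.finOrder hmem
  refine ⟨q, hq, ?_⟩
  have hc' : Commute ζ⁻¹ (g ^ n) := (hc.inv_left).pow_right n
  rw [hc'.mul_pow, inv_pow, inv_mul_eq_one] at h
  rw [pow_mul]; exact h.symm

/-- Commutation of powers for a pair which commutes mod `N`. -/
lemma commute_pow {N : Subgroup G} [N.Normal] (hN : LF N) {x y : G}
    (hxy : (x * y)⁻¹ * (y * x) ∈ N)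
    (h1 : ¬ FreePair (x * y) (y * x)) (h2 : ¬ FreePair (x * (x * y)) ((x * y) * x)) :
    ∃ n : ℕ, 0 < n ∧ Commute (x ^ n) y := by
  obtain ⟨M, hM, e1⟩ := milnor hN hxy h1
  have hxy2 : (x * (x * y))⁻¹ * ((x * y) * x) ∈ N := by
    have : (x * (x * y))⁻¹ * ((x * y) * x) = (x * y)⁻¹ * (y * x) := by group
    rw [this]; exact hxy
  obtain ⟨M', hM', e2⟩ := milnor hN hxy2 h2
  -- general: (p q)^M = (q p)^M implies (p q)^M commutes with p and q
  have gen : ∀ (p q : G) (M : ℕ), (p * q) ^ M = (q * p) ^ M →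
      Commute ((p * q) ^ M) p ∧ Commute ((p * q) ^ M) q := by
    intro p q M e
    have s1 : SemiconjBy p (q * p) (p * q) := by simp [SemiconjBy, mul_assoc]
    have s2 : SemiconjBy q (p * q) (q * p) := by simp [SemiconjBy, mul_assoc]
    have s1' := s1.pow_right M
    have s2' := s2.pow_right M
    rw [← e] at s1' s2'
    exact ⟨Commute.symm s1', Commute.symm s2'⟩
  obtain ⟨c1x, c1y⟩ := gen x y M e1
  obtain ⟨c2x, c2xy⟩ := gen x (x * y) M' e2
  set z1 := (x * y) ^ M with hz1
  set z2 := (x * (x * y)) ^ M' with hz2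
  have c2y : Commute z2 y := by
    have : y = x⁻¹ * (x * y) := by group
    rw [this]; exact (c2x.inv_right).mul_right c2xy
  set z := z2 ^ M * (z1 ^ M')⁻¹ with hz
  have czx : Commute z x := (c2x.pow_left M).mul_left (c1x.pow_left M').inv_left
  have czy : Commute z y := (c2y.pow_left M).mul_left (c1y.pow_left M').inv_left
  have hmem : z⁻¹ * x ^ (M * M') ∈ N := by
    rw [← QuotientGroup.eq]
    have hc : Commute (x : G ⧸ N) (y : G ⧸ N) := by
      have := (QuotientGroup.eq).2 hxy
      rw [QuotientGroup.mk_mul, QuotientGroup.mk_mul] at this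
      exact this
    rw [hz, hz1, hz2]
    simp only [QuotientGroup.mk_mul, QuotientGroup.mk_pow, QuotientGroup.mk_inv]
    rw [hc.mul_pow, ((Commute.refl (x : G ⧸ N)).mul_right hc).mul_pow, hc.mul_pow]
    have hc2 : ∀ i j : ℕ, Commute ((x : G ⧸ N) ^ i) ((y : G ⧸ N) ^ j) := fun i j => hc.pow_pow i j
    have hX : ((x : G ⧸ N) ^ M' * ((x : G ⧸ N) ^ M' * (y : G ⧸ N) ^ M')) =
        (x : G ⧸ N) ^ (M' + M') * (y : G ⧸ N) ^ M' := by rw [pow_add, mul_assoc]
    rw [hX, (hc2 _ _).mul_pow, (hc2 _ _).mul_pow]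
    simp only [← pow_mul]
    rw [mul_inv_eq_iff_eq_mul]
    have h3 : (x : G ⧸ N) ^ ((M' + M') * M) = (x : G ⧸ N) ^ (M * M') * (x : G ⧸ N) ^ (M * M') := by
      rw [← pow_add]; congr 1; ring
    rw [h3, mul_comm M' M, mul_assoc]
  obtain ⟨q, hq, e⟩ := pow_eq_pow hN czx hmem
  refine ⟨M * M' * q, by positivity, ?_⟩
  rw [e]
  exact czy.pow_left q

/-- The element `d = v⁻¹ u` has a power commuting with `u` and `v`. -/
lemma diff_commute {N : Subgroup G} [N.Normal] (hN : LF N) {x y : G}
    (hxy : (x * y)⁻¹ * (y * x) ∈ N)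
    (h1 : ¬ FreePair (x * y) (y * x)) (h1' : ¬ FreePair (y * x) (x * y))
    (h2 : ¬ FreePair (x * (x * y)) ((x * y) * x))
    (h2' : ¬ FreePair (y * (y * x)) ((y * x) * y)) :
    ∃ n : ℕ, 0 < n ∧ Commute ((y⁻¹ * x) ^ n) x ∧ Commute ((y⁻¹ * x) ^ n) y := by
  obtain ⟨n1, hn1, c1⟩ := commute_pow hN hxy h1 h2
  have hyx : (y * x)⁻¹ * (x * y) ∈ N := by
    have := inv_mem hxy
    simpa using this
  obtain ⟨n2, hn2, c2⟩ := commute_pow hN hyx h1' h2'
  -- n = n1 * n2
  have cx_y : Commute (x ^ (n1 * n2)) y := by rw [pow_mul]; exact c1.pow_left n2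
  have cy_x : Commute (y ^ (n1 * n2)) x := by rw [mul_comm n1, pow_mul]; exact c2.pow_left n1
  have cx_x : Commute (x ^ (n1 * n2)) x := (Commute.refl x).pow_left _
  have cy_y : Commute (y ^ (n1 * n2)) y := (Commute.refl y).pow_left _
  set n := n1 * n2 with hn
  have hnpos : 0 < n := by positivity
  set ζ := (y ^ n)⁻¹ * x ^ n with hζ
  have cζx : Commute ζ x := cy_x.inv_left.mul_left cx_x
  have cζy : Commute ζ y := cy_y.inv_left.mul_left cx_y
  have cζd : Commute ζ (y⁻¹ * x) := cζy.inv_right.mul_right cζx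
  have hmem : ζ⁻¹ * (y⁻¹ * x) ^ n ∈ N := by
    rw [← QuotientGroup.eq]
    have hc : Commute (x : G ⧸ N) (y : G ⧸ N) := by
      have := (QuotientGroup.eq).2 hxy
      rw [QuotientGroup.mk_mul, QuotientGroup.mk_mul] at this
      exact this
    rw [hζ]
    simp only [QuotientGroup.mk_mul, QuotientGroup.mk_pow, QuotientGroup.mk_inv]
    rw [(hc.symm.inv_left).mul_pow, inv_pow]
  obtain ⟨q, hq, e⟩ := pow_eq_pow hN cζd hmem
  refine ⟨n * q, by positivity, ?_, ?_⟩
  · rw [e]; exact cζx.pow_left q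
  · rw [e]; exact cζy.pow_left q

end Pool.Agent.H785R3.GrowthA
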