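import Pool.Agent.H785R3.GrowthA

/-! Helper file (helper785), part B. -/

namespace Pool.Agent.H785R3.GrowthA

open Subgroup
open scoped Pointwise commutatorElement

set_option linter.style.haveILetI false

universe u

/-- the terms of the lower central series: `gam G n = γ_{n+1}(G)` -/
abbrev gam (G : Type u) [Group G] (n : ℕ) : Subgroup G := (⊤ : Subgroup G).lowerCentralSeries n

variable {G : Type u} [Group G]

lemma gam_comm {n : ℕ} {a : G} (ha : a ∈ gam G n) (g : G) : ⁅a, g⁆ ∈ gam G (n + 1) := by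
  show ⁅a, g⁆ ∈ ⁅(⊤ : Subgroup G).lowerCentralSeries n, (⊤ : Subgroup G)⁆
  exact commutator_mem_commutator ha (mem_top g)

lemma gam_succ_le (n : ℕ) : gam G (n + 1) ≤ gam G n :=
  (⊤ : Subgroup G).lowerCentralSeries_antitone (Nat.le_succ n)

/-- extension of locally finite by (abelian torsion) -/
lemma ext_LF {N K : Subgroup G} [N.Normal] (hN : LF N)
    (hcomm : ∀ a ∈ K, ∀ b ∈ K, ⁅a, b⁆ ∈ N) (htor : ∀ a ∈ K, ∃ n : ℕ, 0 < n ∧ a ^ n ∈ N) :
    LF K := by
  intro T hT hTK
  set H := closure T with hH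
  have hHK : H ≤ K := (closure_le K).2 hTK
  haveI : Finite T := hT
  haveI hfg : Group.FG H := by
    rw [hH]; infer_instance
  set M := N.subgroupOf H with hM
  have hcomm' : ∀ a b : H ⧸ M, a * b = b * a := by
    intro a b
    induction a using QuotientGroup.induction_on with
    | H a =>
      induction b using QuotientGroup.induction_on with
      | H b =>
        have h1 := hcomm (a : G) (hHK a.2) (b : G) (hHK b.2)
        have h2 : ⁅a, b⁆ ∈ M := by
          rw [hM, mem_subgroupOf]; simpa [commutatorElement_def] using h1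
        have h3 : ((⁅a, b⁆ : H) : H ⧸ M) = 1 := (QuotientGroup.eq_one_iff _).2 h2
        rw [commutatorElement_def] at h3
        simp only [QuotientGroup.mk_mul, QuotientGroup.mk_inv] at h3
        rw [mul_inv_eq_one, mul_inv_eq_iff_eq_mul] at h3
        exact h3
  letI : CommGroup (H ⧸ M) := { (inferInstance : Group (H ⧸ M)) with mul_comm := hcomm' }
  haveI : Group.FG (H ⧸ M) := by infer_instance
  have htor' : IsMulTorsion (H ⧸ M) := by
    intro a
    induction a using QuotientGroup.induction_on with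
    | H a =>
      obtain ⟨n, hn, h⟩ := htor (a : G) (hHK a.2)
      rw [isOfFinOrder_iff_pow_eq_one]
      refine ⟨n, hn, ?_⟩
      have h2 : a ^ n ∈ M := by
        rw [hM, mem_subgroupOf]; simpa using h
      have h3 : ((a ^ n : H) : H ⧸ M) = 1 := (QuotientGroup.eq_one_iff _).2 h2
      simpa using h3
  haveI : Finite (H ⧸ M) := CommGroup.finite_of_fg_isMulTorsion _ htor'
  haveI : M.FiniteIndex := Subgroup.finiteIndex_of_finite_quotient
  haveI : Group.FG M := inferInstance
  -- M is finite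
  have hMfin : Finite M := by
    obtain ⟨T', hT'⟩ := (Group.fg_iff_subgroup_fg M).1 ‹Group.FG M›
    have h1 : Finite (closure ((H.subtype) '' (T' : Set H))) := by
      apply hN
      · exact (Finset.finite_toSet T').image _
      · rintro _ ⟨x, hx, rfl⟩
        have : x ∈ M := by rw [← hT']; exact Subgroup.subset_closure hx
        rw [hM, mem_subgroupOf] at this
        exact this
    have h2 : closure ((H.subtype) '' (T' : Set H)) = M.map H.subtype := by
      rw [← hT', MonoidHom.map_closure]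
    rw [h2] at h1
    have h3 : Function.Injective (fun x : M => (⟨H.subtype x, Subgroup.mem_map_of_mem _ x.2⟩ :
        M.map H.subtype)) := by
      intro x y hxy
      have := congrArg Subtype.val hxy
      exact Subtype.ext (Subtype.ext this)
    exact Finite.of_injective _ h3
  exact Finite.of_equiv _ (Subgroup.groupEquivQuotientProdSubgroup (s := M)).symm

/-- solvable torsion normal subgroups are locally finite -/
lemma LF_of_solvable_torsion [hs : Group.IsSolvable G] {N : Subgroup G} [N.Normal]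
    (htor : ∀ g ∈ N, IsOfFinOrder g) : LF N := by
  obtain ⟨m, hm⟩ := hs.solvable
  have key : ∀ i ≤ m, LF (N ⊓ derivedSeries G (m - i)) := by
    intro i
    induction i with
    | zero =>
      intro _ T hT hTK
      have : closure T ≤ ⊥ := by
        rw [closure_le]
        intro x hx
        have := (hTK hx).2
        simp only [Nat.sub_zero] at this
        rw [hm] at this
        exact this
      have h2 : closure T = ⊥ := le_bot_iff.1 this
      rw [h2]; infer_instance
    | succ i ih =>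
      intro hi
      have ih' := ih (by omega)
      haveI : (N ⊓ derivedSeries G (m - i)).Normal := inferInstance
      refine ext_LF ih' ?_ ?_
      · intro a ha b hb
        refine ⟨?_, ?_⟩
        · show ⁅a, b⁆ ∈ N
          rw [commutatorElement_def]
          exact mul_mem (mul_mem (mul_mem ha.1 hb.1) (inv_mem ha.1)) (inv_mem hb.1)
        · have hmi : m - i = (m - (i + 1)) + 1 := by omega
          rw [hmi, derivedSeries_succ]
          exact commutator_mem_commutator ha.2 hb.2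
      · intro a ha
        obtain ⟨n, hn, h⟩ := isOfFinOrder_iff_pow_eq_one.1 (htor a ha.1)
        exact ⟨n, hn, by rw [h]; exact one_mem _⟩
  have := key m le_rfl
  simpa using this

/-- no two elements of `S^j`, `j ≤ L`, freely generate a free semigroup -/
def NoFree (S : Set G) (L : ℕ) : Prop := ∀ j ≤ L, ∀ a ∈ S ^ j, ∀ b ∈ S ^ j, ¬ FreePair a b

/-- if `d = y⁻¹x` is central mod `N` then `x,y` commute mod `N` -/
lemma comm_of_central {N : Subgroup G} [N.Normal] {x y : G} (hd : ∀ g, ⁅y⁻¹ * x, g⁆ ∈ N) :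
    (x * y)⁻¹ * (y * x) ∈ N := by
  have h1 := (QuotientGroup.eq_one_iff _).2 (hd y)
  rw [commutatorElement_def] at h1
  simp only [QuotientGroup.mk_mul, QuotientGroup.mk_inv] at h1
  rw [mul_inv_eq_one, mul_inv_eq_iff_eq_mul] at h1
  rw [← QuotientGroup.eq]
  simp only [QuotientGroup.mk_mul]
  have h2 : ((x : G ⧸ N)) * (y : G ⧸ N) = (y : G ⧸ N) * ((y : G ⧸ N)⁻¹ * x * y) := by group
  rw [h2, h1]; group

lemma mul_mem_pow {S : Set G} {i j k : ℕ} {a b : G} (ha : a ∈ S ^ i) (hb : b ∈ S ^ j)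
    (hk : k = i + j) : a * b ∈ S ^ k := by
  rw [hk, pow_add]; exact Set.mul_mem_mul ha hb

lemma diff_commute' {N : Subgroup G} [N.Normal] (hN : LF N) {S : Set G} {m L : ℕ}
    (hNF : NoFree S L) (hm : 3 * m ≤ L) {x y : G} (hx : x ∈ S ^ m) (hy : y ∈ S ^ m)
    (hd : ∀ g, ⁅y⁻¹ * x, g⁆ ∈ N) :
    ∃ n : ℕ, 0 < n ∧ Commute ((y⁻¹ * x) ^ n) x ∧ Commute ((y⁻¹ * x) ^ n) y := by
  have hxy := mul_mem_pow hx hy (k := 2 * m) (by ring)
  have hyx := mul_mem_pow hy hx (k := 2 * m) (by ring)
  refine diff_commute hN (comm_of_central hd)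
    (hNF (2 * m) (by omega) _ hxy _ hyx) (hNF (2 * m) (by omega) _ hyx _ hxy)
    (hNF (3 * m) hm _ (mul_mem_pow hx hxy (by ring)) _ (mul_mem_pow hxy hx (by ring)))
    (hNF (3 * m) hm _ (mul_mem_pow hy hyx (by ring)) _ (mul_mem_pow hyx hy (by ring)))

lemma mem_center_of_commute {S : Set G} (hS : closure S = ⊤) {d : G} (h : ∀ z ∈ S, Commute d z) :
    d ∈ center G := by
  rw [mem_center_iff]
  intro g
  have hg : g ∈ closure S := by rw [hS]; exact mem_top g
  have : closure S ≤ centralizer {d} := by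
    rw [closure_le]
    intro z hz
    rw [SetLike.mem_coe, mem_centralizer_singleton_iff]
    exact (h z hz).symm.eq
  have h2 := this hg
  rw [mem_centralizer_singleton_iff] at h2
  exact h2

lemma common_pow {S : Set G} (hfin : S.Finite) {d : G}
    (h : ∀ w ∈ S, ∃ n : ℕ, 0 < n ∧ Commute (d ^ n) w) :
    ∃ n : ℕ, 0 < n ∧ ∀ w ∈ S, Commute (d ^ n) w := by
  induction S, hfin using Set.Finite.induction_on with
  | empty => exact ⟨1, one_pos, by simp⟩
  | @insert a s ha hs ih =>
    obtain ⟨n, hn, h1⟩ := ih (fun w hw => h w (Set.mem_insert_of_mem _ hw))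
    obtain ⟨m, hm, h2⟩ := h a (Set.mem_insert _ _)
    refine ⟨n * m, by positivity, ?_⟩
    intro w hw
    rcases hw with rfl | hw
    · rw [mul_comm, pow_mul]; exact h2.pow_left n
    · rw [pow_mul]; exact (h1 w hw).pow_left m

lemma central_power {N : Subgroup G} [N.Normal] (hN : LF N) {S : Set G} (hfin : S.Finite)
    (hS : closure S = ⊤) {l L : ℕ} (hL : 3 * (l + 1) ≤ L) (hNF : NoFree S L) {u v : G}
    (hu : u ∈ S ^ l) (hv : v ∈ S ^ l) (hd : ∀ g, ⁅v⁻¹ * u, g⁆ ∈ N) :
    ∃ n : ℕ, 0 < n ∧ (v⁻¹ * u) ^ n ∈ center G := by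
  obtain ⟨n0, hn0, cu, cv⟩ := diff_commute' hN hNF (by omega) hu hv hd
  have hw : ∀ w ∈ S, ∃ n : ℕ, 0 < n ∧ Commute ((v⁻¹ * u) ^ n) w := by
    intro w hw
    have e : (w * v)⁻¹ * (w * u) = v⁻¹ * u := by group
    have hw1 : w ∈ S ^ 1 := by simpa using hw
    obtain ⟨n1, hn1, cwu, cwv⟩ := diff_commute' hN hNF (m := l + 1) hL
      (mul_mem_pow hw1 hu (by ring)) (mul_mem_pow hw1 hv (by ring)) (by rw [e]; exact hd)
    rw [e] at cwu cwv
    refine ⟨n0 * n1, by positivity, ?_⟩
    have c1 : Commute ((v⁻¹ * u) ^ (n0 * n1)) u := by rw [pow_mul]; exact cu.pow_left n1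
    have c2 : Commute ((v⁻¹ * u) ^ (n0 * n1)) (w * u) := by
      rw [mul_comm, pow_mul]; exact cwu.pow_left n0
    have : w = (w * u) * u⁻¹ := by group
    rw [this]
    exact c2.mul_right c1.inv_right
  obtain ⟨n, hn, h⟩ := common_pow hfin hw
  exact ⟨n, hn, mem_center_of_commute hS h⟩

/-- Malcev-type pairs of words. -/
def Pr (S : Set G) : ℕ → G → G → Prop
  | 0, u, v => ∃ x ∈ S, ∃ y ∈ S, u = x * y ∧ v = y * x
  | j + 1, u, v => ∃ p q, Pr S j p q ∧
      ((u = p * q ∧ v = q * p) ∨ ∃ z ∈ S, u = p * z * q ∧ v = q * z * p)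

lemma Pr_len {S : Set G} : ∀ {j : ℕ} {u v : G}, Pr S j u v →
    ∃ l : ℕ, l + 1 ≤ 3 * 2 ^ j ∧ u ∈ S ^ l ∧ v ∈ S ^ l
  | 0, u, v, h => by
    obtain ⟨x, hx, y, hy, rfl, rfl⟩ := h
    have hx1 : x ∈ S ^ 1 := by simpa using hx
    have hy1 : y ∈ S ^ 1 := by simpa using hy
    exact ⟨2, by norm_num, mul_mem_pow hx1 hy1 (by norm_num), mul_mem_pow hy1 hx1 (by norm_num)⟩
  | j + 1, u, v, h => by
    obtain ⟨p, q, hpq, h⟩ := h
    obtain ⟨l, hl, hp, hq⟩ := Pr_len hpq
    rcases h with ⟨rfl, rfl⟩ | ⟨z, hz, rfl, rfl⟩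
    · exact ⟨2 * l, by rw [pow_succ]; omega, mul_mem_pow hp hq (by ring),
        mul_mem_pow hq hp (by ring)⟩
    · have hz1 : z ∈ S ^ 1 := by simpa using hz
      exact ⟨2 * l + 1, by rw [pow_succ]; omega,
        mul_mem_pow (mul_mem_pow hp hz1 rfl) hq (by ring),
        mul_mem_pow (mul_mem_pow hq hz1 rfl) hp (by ring)⟩

lemma Pr_mem {S : Set G} : ∀ {j : ℕ} {u v : G}, Pr S j u v → v⁻¹ * u ∈ gam G (j + 1)
  | 0, u, v, h => by
    obtain ⟨x, hx, y, hy, rfl, rfl⟩ := h
    have : (y * x)⁻¹ * (x * y) = ⁅x⁻¹, y⁻¹⁆ := by rw [commutatorElement_def]; group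
    rw [this]
    exact gam_comm (n := 0) (mem_top _) _
  | j + 1, u, v, h => by
    obtain ⟨p, q, hpq, h⟩ := h
    have hd := Pr_mem hpq
    rcases h with ⟨rfl, rfl⟩ | ⟨z, hz, rfl, rfl⟩
    · have : (q * p)⁻¹ * (p * q) = ⁅(q⁻¹ * p), p⁻¹⁆⁻¹ := by
        rw [commutatorElement_def]; group
      rw [this]
      exact inv_mem (gam_comm hd _)
    · have : (q * z * p)⁻¹ * (p * z * q) = ⁅(q⁻¹ * p), (z * p)⁻¹⁆⁻¹ := by
        rw [commutatorElement_def]; group
      rw [this]
      exact inv_mem (gam_comm hd _)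

end Pool.Agent.H785R3.GrowthA
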