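import Pool.Agent.H785R3.GrowthB

/-! Helper file (helper785), part C. -/

namespace Pool.Agent.H785R3.GrowthA

open Subgroup
open scoped Pointwise commutatorElement

set_option linter.style.haveILetI false

universe u

variable {G : Type u} [Group G]

lemma normal_between {Λ : Subgroup G} {n : ℕ} (h1 : gam G (n + 1) ≤ Λ) (h2 : Λ ≤ gam G n) :
    Λ.Normal := by
  constructor
  intro a ha g
  have h3 : ⁅a, g⁆⁻¹ ∈ Λ := h1 (inv_mem (gam_comm (h2 ha) g))
  have h4 : g * a * g⁻¹ = ⁅a, g⁆⁻¹ * a := by rw [commutatorElement_def]; group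
  rw [h4]
  exact mul_mem h3 ha

/-- the set of elements central modulo `Λ` -/
def Cen (Λ : Subgroup G) [Λ.Normal] : Subgroup G :=
  (center (G ⧸ Λ)).comap (QuotientGroup.mk' Λ)

lemma mem_Cen {Λ : Subgroup G} [Λ.Normal] {a : G} : a ∈ Cen Λ ↔ ∀ g, ⁅a, g⁆ ∈ Λ := by
  unfold Cen
  rw [mem_comap, mem_center_iff]
  constructor
  · intro h g
    have := h (g : G ⧸ Λ)
    rw [← QuotientGroup.eq_one_iff, commutatorElement_def]
    simp only [QuotientGroup.mk_mul, QuotientGroup.mk_inv]
    rw [mul_inv_eq_one, mul_inv_eq_iff_eq_mul]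
    exact this.symm
  · intro h g
    induction g using QuotientGroup.induction_on with
    | H g =>
      have := h g
      rw [← QuotientGroup.eq_one_iff, commutatorElement_def] at this
      simp only [QuotientGroup.mk_mul, QuotientGroup.mk_inv] at this
      rw [mul_inv_eq_one, mul_inv_eq_iff_eq_mul] at this
      exact this.symm

lemma mem_Cen_of_gen {Λ : Subgroup G} [Λ.Normal] {S : Set G} (hS : closure S = ⊤) {d : G}
    (h : ∀ z ∈ S, Commute (d : G ⧸ Λ) (z : G ⧸ Λ)) : d ∈ Cen Λ := by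
  unfold Cen
  rw [mem_comap]
  have hS' : closure ((QuotientGroup.mk' Λ) '' S) = ⊤ := by
    rw [← MonoidHom.map_closure, hS, ← MonoidHom.range_eq_map]
    exact MonoidHom.range_eq_top.2 (QuotientGroup.mk'_surjective Λ)
  apply mem_center_of_commute hS'
  rintro _ ⟨z, hz, rfl⟩
  exact h z hz

lemma gam_le_of_Cen {Λ : Subgroup G} [Λ.Normal] {n : ℕ} (h : gam G n ≤ Cen Λ) :
    gam G (n + 1) ≤ Λ := by
  show ⁅(⊤ : Subgroup G).lowerCentralSeries n, (⊤ : Subgroup G)⁆ ≤ Λ
  rw [commutator_le]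
  intro a ha g _
  exact (mem_Cen.1 (h ha)) g

/-- the differences `v⁻¹ u` of Malcev pairs -/
def Df (S : Set G) (j : ℕ) : Set G := {d | ∃ u v, Pr S j u v ∧ d = v⁻¹ * u}

lemma Df_subset {S : Set G} (j : ℕ) : Df S j ⊆ (gam G (j + 1) : Set G) := by
  rintro _ ⟨u, v, h, rfl⟩
  exact Pr_mem h

lemma Df_normal (S : Set G) (j : ℕ) : (closure (Df S j) ⊔ gam G (j + 2)).Normal := by
  apply normal_between (n := j + 1)
  · exact le_sup_right
  · exact sup_le ((closure_le _).2 (Df_subset j)) (gam_succ_le (j + 1))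

/-- the differences of Malcev pairs generate `γ_{j+2}` modulo `γ_{j+3}`. -/
lemma gam_le_Df {S : Set G} (hS : closure S = ⊤) : ∀ j : ℕ,
    gam G (j + 1) ≤ closure (Df S j) ⊔ gam G (j + 2)
  | 0 => by
    haveI := Df_normal S 0
    apply gam_le_of_Cen (n := 0)
    show (⊤ : Subgroup G) ≤ _
    rw [← hS, closure_le]
    intro x hx
    apply mem_Cen_of_gen hS
    intro y hy
    have h1 : (y * x)⁻¹ * (x * y) ∈ closure (Df S 0) ⊔ gam G (0 + 2) := by
      apply (le_sup_left : closure (Df S 0) ≤ _)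
      exact Subgroup.subset_closure ⟨x * y, y * x, ⟨x, hx, y, hy, rfl, rfl⟩, rfl⟩
    rw [← QuotientGroup.eq] at h1
    simp only [QuotientGroup.mk_mul] at h1
    exact h1.symm
  | j + 1 => by
    have ih := gam_le_Df hS j
    haveI := Df_normal S (j + 1)
    apply gam_le_of_Cen (n := j + 1)
    refine ih.trans (sup_le ?_ ?_)
    · rw [closure_le]
      rintro _ ⟨p, q, hpq, rfl⟩
      apply mem_Cen_of_gen hS
      intro z hz
      have h1 : (q * p)⁻¹ * (p * q) ∈ closure (Df S (j + 1)) ⊔ gam G (j + 1 + 2) := by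
        apply (le_sup_left : closure (Df S (j + 1)) ≤ _)
        exact Subgroup.subset_closure ⟨_, _, ⟨p, q, hpq, Or.inl ⟨rfl, rfl⟩⟩, rfl⟩
      have h2 : (q * z * p)⁻¹ * (p * z * q) ∈ closure (Df S (j + 1)) ⊔ gam G (j + 1 + 2) := by
        apply (le_sup_left : closure (Df S (j + 1)) ≤ _)
        exact Subgroup.subset_closure ⟨_, _, ⟨p, q, hpq, Or.inr ⟨z, hz, rfl, rfl⟩⟩, rfl⟩
      rw [← QuotientGroup.eq] at h1 h2
      simp only [QuotientGroup.mk_mul] at h1 h2
      simp only [QuotientGroup.mk_mul, QuotientGroup.mk_inv]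
      generalize (p : G ⧸ (closure (Df S (j + 1)) ⊔ gam G (j + 1 + 2))) = P at *
      generalize (q : G ⧸ (closure (Df S (j + 1)) ⊔ gam G (j + 1 + 2))) = Q at *
      generalize (z : G ⧸ (closure (Df S (j + 1)) ⊔ gam G (j + 1 + 2))) = Z at *
      show Q⁻¹ * P * Z = Z * (Q⁻¹ * P)
      have h3 : Q⁻¹ * P = P * Q⁻¹ := by
        rw [inv_mul_eq_iff_eq_mul, ← mul_assoc, h1]; group
      have h4 : P * Z = Q * Z * P * Q⁻¹ := by rw [h2]; group
      calc Q⁻¹ * P * Z = Q⁻¹ * (P * Z) := by group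
        _ = Q⁻¹ * (Q * Z * P * Q⁻¹) := by rw [h4]
        _ = Z * (P * Q⁻¹) := by group
        _ = Z * (Q⁻¹ * P) := by rw [h3]
    · intro a ha
      rw [mem_Cen]
      intro g
      exact (le_sup_right : gam G (j + 1 + 2) ≤ _) (gam_comm ha g)

lemma FreePair.of_map {H : Type u} [Group H] (f : G →* H) {a b : G} (h : FreePair (f a) (f b)) :
    FreePair a b := by
  have key : ∀ l : List Bool, ev (f a) (f b) l = f (ev a b l) := by
    intro l
    induction l with
    | nil => simp
    | cons t l ih => rw [ev_cons, ev_cons, map_mul, ih]; cases t <;> simp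
  intro l l' hlen hev
  apply h l l' hlen
  rw [key, key, hev]

lemma NoFree.map {H : Type u} [Group H] (f : G →* H) {S : Set G} {L L' : ℕ} (hL : L' ≤ L)
    (h : NoFree S L) : NoFree (f '' S) L' := by
  intro j hj a ha b hb hfree
  rw [← Set.image_pow] at ha hb
  obtain ⟨a, ha, rfl⟩ := ha
  obtain ⟨b, hb, rfl⟩ := hb
  exact h j (hj.trans hL) a ha b hb (FreePair.of_map f hfree)

lemma LF.map {H : Type u} [Group H] (f : G →* H) {N : Subgroup G} (hN : LF N) :
    LF (N.map f) := by
  classical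
  intro T hT hTN
  choose g hg using (fun t : T => (mem_map.1 (hTN t.2)))
  haveI : Finite T := hT
  have h1 : Finite (closure (Set.range g)) := by
    apply hN
    · exact Set.finite_range g
    · rintro _ ⟨t, rfl⟩; exact (hg t).1
  have h2 : closure T = (closure (Set.range g)).map f := by
    rw [MonoidHom.map_closure]
    congr 1
    ext x
    constructor
    · intro hx
      exact ⟨g ⟨x, hx⟩, ⟨_, rfl⟩, (hg ⟨x, hx⟩).2⟩
    · rintro ⟨_, ⟨t, rfl⟩, rfl⟩
      rw [(hg t).2]; exact t.2
  rw [h2]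
  exact Finite.of_surjective (fun x : closure (Set.range g) => (⟨f x, mem_map_of_mem f x.2⟩ :
    (closure (Set.range g)).map f)) (by
      rintro ⟨_, x, hx, rfl⟩
      exact ⟨⟨x, hx⟩, rfl⟩)

lemma gam_map {H : Type u} [Group H] {f : G →* H} (hf : Function.Surjective f) (n : ℕ) :
    gam H n = (gam G n).map f := by
  unfold gam
  rw [map_lowerCentralSeries, ← MonoidHom.range_eq_map, MonoidHom.range_eq_top.2 hf]

/-- torsion modulo the next term -/
lemma tor_mod {n : ℕ} {D : Set G} (hD : D ⊆ (gam G n : Set G))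
    (hgen : gam G n ≤ closure D ⊔ gam G (n + 1)) (htor : ∀ d ∈ D, ∃ m : ℕ, 0 < m ∧ d ^ m = 1) :
    ∀ a ∈ gam G n, ∃ m : ℕ, 0 < m ∧ a ^ m ∈ gam G (n + 1) := by
  intro a ha
  have h1 : closure D ⊔ gam G (n + 1) = closure (D ∪ (gam G (n + 1) : Set G)) := by
    rw [Subgroup.closure_union, Subgroup.closure_eq]
  have h2 : a ∈ closure (D ∪ (gam G (n + 1) : Set G)) := h1 ▸ hgen ha
  clear ha
  have : a ∈ gam G n ∧ ∃ m : ℕ, 0 < m ∧ a ^ m ∈ gam G (n + 1) := by
    induction h2 using Subgroup.closure_induction with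
    | mem x hx =>
      rcases hx with hx | hx
      · obtain ⟨m, hm, h⟩ := htor x hx
        exact ⟨hD hx, m, hm, by rw [h]; exact one_mem _⟩
      · exact ⟨gam_succ_le n hx, 1, one_pos, by simpa using hx⟩
    | one => exact ⟨one_mem _, 1, one_pos, by simp⟩
    | mul x y _ _ hx hy =>
      obtain ⟨hx1, m1, hm1, h1⟩ := hx
      obtain ⟨hy1, m2, hm2, h2⟩ := hy
      refine ⟨mul_mem hx1 hy1, m1 * m2, by positivity, ?_⟩
      have hc : ⁅x, y⁆ ∈ gam G (n + 1) := gam_comm hx1 y
      rw [← QuotientGroup.eq_one_iff, commutatorElement_def] at hc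
      simp only [QuotientGroup.mk_mul, QuotientGroup.mk_inv] at hc
      rw [mul_inv_eq_one, mul_inv_eq_iff_eq_mul] at hc
      rw [← QuotientGroup.eq_one_iff] at h1 h2 ⊢
      simp only [QuotientGroup.mk_mul, QuotientGroup.mk_pow] at h1 h2 ⊢
      rw [(show Commute (x : G ⧸ gam G (n + 1)) (y : G ⧸ gam G (n + 1)) from hc).mul_pow, pow_mul,
        h1, one_pow, one_mul, mul_comm m1, pow_mul, h2, one_pow]
    | inv x _ hx =>
      obtain ⟨hx1, m1, hm1, h1⟩ := hx
      exact ⟨inv_mem hx1, m1, hm1, by rw [inv_pow]; exact inv_mem h1⟩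
  exact this.2

/-- The inductive step: if enough elements have central powers, then the next lower central term of
`G / Z(G)` is locally finite. -/
lemma LF_quot {n : ℕ} (hN : LF (gam G (n + 1))) {D : Set G} (hD : D ⊆ (gam G n : Set G))
    (hgen : gam G n ≤ closure D ⊔ gam G (n + 1))
    (htor : ∀ d ∈ D, ∃ m : ℕ, 0 < m ∧ d ^ m ∈ center G) :
    LF (gam (G ⧸ center G) n) := by
  have hsurj := QuotientGroup.mk'_surjective (center G)
  have hN' : LF (gam (G ⧸ center G) (n + 1)) := by
    rw [gam_map hsurj]; exact hN.map _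
  have hD' : (QuotientGroup.mk' (center G)) '' D ⊆ (gam (G ⧸ center G) n : Set (G ⧸ center G)) := by
    rw [gam_map hsurj]
    rintro _ ⟨d, hd, rfl⟩
    exact mem_map_of_mem _ (hD hd)
  have hgen' : gam (G ⧸ center G) n ≤
      closure ((QuotientGroup.mk' (center G)) '' D) ⊔ gam (G ⧸ center G) (n + 1) := by
    rw [gam_map hsurj, gam_map hsurj, ← MonoidHom.map_closure, ← Subgroup.map_sup]
    exact Subgroup.map_mono hgen
  have htor' : ∀ d ∈ (QuotientGroup.mk' (center G)) '' D, ∃ m : ℕ, 0 < m ∧ d ^ m = 1 := by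
    rintro _ ⟨d, hd, rfl⟩
    obtain ⟨m, hm, h⟩ := htor d hd
    refine ⟨m, hm, ?_⟩
    rw [← map_pow]
    exact (QuotientGroup.eq_one_iff _).2 h
  exact ext_LF hN' (fun a ha b _ => gam_comm ha b) (tor_mod hD' hgen' htor')

/-- **Main theorem**, algebraic form. -/
theorem main : ∀ (k : ℕ) (G : Type u) [Group G] (S : Set G), S.Finite → closure S = ⊤ →
    LF (gam G k) → NoFree S (9 * 2 ^ k / 4) → (Subgroup.upperCentralSeries G k).FiniteIndex
  | 0, G, _, S, hfin, hS, hLF, _ => by
    have h1 : Finite (closure S) := hLF S hfin (fun x _ => mem_top x)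
    rw [hS] at h1
    haveI : Finite G := Finite.of_equiv _ (Subgroup.topEquiv (G := G)).toEquiv
    infer_instance
  | k + 1, G, _, S, hfin, hS, hLF, hNF => by
    have hS' : closure ((QuotientGroup.mk' (center G)) '' S) = ⊤ := by
      rw [← MonoidHom.map_closure, hS, ← MonoidHom.range_eq_map]
      exact MonoidHom.range_eq_top.2 (QuotientGroup.mk'_surjective _)
    have hLF' : LF (gam (G ⧸ center G) k) := by
      cases k with
      | zero =>
        refine LF_quot (D := S) hLF (fun x _ => mem_top x) (by rw [hS]; exact le_sup_left) ?_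
        intro x hx
        have hc : ∀ y ∈ S, ∃ n : ℕ, 0 < n ∧ Commute (x ^ n) y := by
          intro y hy
          have hx1 : x ∈ S ^ 1 := by simpa using hx
          have hy1 : y ∈ S ^ 1 := by simpa using hy
          have hxy : (x * y)⁻¹ * (y * x) ∈ gam G 1 := by
            have : (x * y)⁻¹ * (y * x) = ⁅y⁻¹, x⁻¹⁆ := by rw [commutatorElement_def]; group
            rw [this]; exact gam_comm (n := 0) (mem_top _) _
          have h1 := mul_mem_pow hx1 hy1 (k := 2) rfl
          have h2 := mul_mem_pow hy1 hx1 (k := 2) rfl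
          exact commute_pow hLF hxy (hNF 2 (by norm_num) _ h1 _ h2)
            (hNF 3 (by norm_num) _ (mul_mem_pow hx1 h1 rfl) _ (mul_mem_pow h1 hx1 rfl))
        obtain ⟨n, hn, h⟩ := common_pow hfin hc
        exact ⟨n, hn, mem_center_of_commute hS h⟩
      | succ j =>
        refine LF_quot (D := Df S j) hLF (Df_subset j) (gam_le_Df hS j) ?_
        rintro _ ⟨u, v, huv, rfl⟩
        obtain ⟨l, hl, hu, hv⟩ := Pr_len huv
        have hpow : 9 * 2 ^ (j + 1 + 1) / 4 = 9 * 2 ^ j := by
          rw [pow_succ, pow_succ]; omega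
        exact central_power hLF hfin hS (l := l) (by rw [hpow]; omega) hNF hu hv
          (fun g => gam_comm (Pr_mem huv) g)
    have hle : 9 * 2 ^ k / 4 ≤ 9 * 2 ^ (k + 1) / 4 := by
      apply Nat.div_le_div_right
      apply Nat.mul_le_mul_left
      exact Nat.pow_le_pow_right (by norm_num) (Nat.le_succ k)
    have ih := main k (G ⧸ center G) ((QuotientGroup.mk' (center G)) '' S) (hfin.image _) hS' hLF'
      (hNF.map _ hle)
    rw [← Subgroup.comap_upperCentralSeries_quotient_center k]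
    constructor
    rw [Subgroup.index_comap_of_surjective _ (QuotientGroup.mk'_surjective _)]
    exact ih.index_ne_zero

end Pool.Agent.H785R3.GrowthA
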