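import Pool.Agent.H785R3.GrowthC

/-! Helper file (helper785), part D: growth. -/

namespace Pool.Agent.H785R3.GrowthA

open Subgroup Filter Topology
open scoped Pointwise commutatorElement

set_option linter.style.haveILetI false

universe u

variable {G : Type u} [Group G]

lemma ev_mem_pow {S : Set G} {j : ℕ} {a b : G} (ha : a ∈ S ^ j) (hb : b ∈ S ^ j) :
    ∀ l : List Bool, ev a b l ∈ S ^ (j * l.length)
  | [] => by simp
  | t :: l => by
    rw [ev_cons]
    apply mul_mem_pow (i := j) (j := j * l.length) _ (ev_mem_pow ha hb l)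
    · simp only [List.length_cons]; ring
    · cases t
      · simpa using ha
      · simpa using hb

lemma finite_pow {S : Set G} (hfin : S.Finite) : ∀ n : ℕ, (S ^ n).Finite
  | 0 => by simp
  | n + 1 => by rw [pow_succ]; exact (finite_pow hfin n).mul hfin

lemma two_pow_le {S : Set G} (hfin : S.Finite) {j : ℕ} {a b : G} (ha : a ∈ S ^ j) (hb : b ∈ S ^ j)
    (hfree : FreePair a b) (n : ℕ) : 2 ^ n ≤ (S ^ (j * n)).ncard := by
  haveI : Finite ↥(S ^ (j * n)) := finite_pow hfin _
  have h1 : ∀ e : Fin n → Bool, ev a b (List.ofFn e) ∈ S ^ (j * n) := by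
    intro e
    have := ev_mem_pow ha hb (List.ofFn e)
    simpa using this
  have h2 : Function.Injective (fun e : Fin n → Bool =>
      (⟨ev a b (List.ofFn e), h1 e⟩ : ↥(S ^ (j * n)))) := by
    intro e e' h
    have h3 : ev a b (List.ofFn e) = ev a b (List.ofFn e') := congrArg Subtype.val h
    exact List.ofFn_injective (hfree _ _ (by simp) h3)
  have h4 := Nat.card_le_card_of_injective _ h2
  rw [Nat.card_coe_set_eq] at h4
  simpa using h4

lemma growth_bound {S : Set G} (hfin : S.Finite) {j : ℕ} {a b : G} (ha : a ∈ S ^ j)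
    (hb : b ∈ S ^ j) (hfree : FreePair a b) {ρ : ℝ}
    (hρ : Tendsto (fun n : ℕ => Real.log ((S ^ n).ncard : ℝ) / n) atTop (𝓝 ρ)) :
    0 < j ∧ Real.log 2 / j ≤ ρ := by
  have hj : 0 < j := by
    rcases Nat.eq_zero_or_pos j with h | h
    · exfalso
      subst h
      simp only [pow_zero, Set.mem_one] at ha hb
      subst ha; subst hb
      have := hfree [true] [false] rfl (by simp)
      simp at this
    · exact h
  refine ⟨hj, ?_⟩
  have hj' : (0 : ℝ) < j := by exact_mod_cast hj
  have hsub : Tendsto (fun n : ℕ => j * n) atTop atTop := by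
    apply tendsto_atTop_mono (fun n => _) tendsto_id
    intro n
    show n ≤ j * n
    nlinarith
  have h1 := hρ.comp hsub
  apply ge_of_tendsto h1
  filter_upwards [eventually_gt_atTop 0] with n hn
  have hn' : (0 : ℝ) < n := by exact_mod_cast hn
  have h2 := two_pow_le hfin ha hb hfree n
  have h3 : (2 : ℝ) ^ n ≤ ((S ^ (j * n)).ncard : ℝ) := by exact_mod_cast h2
  have h4 : (n : ℝ) * Real.log 2 ≤ Real.log ((S ^ (j * n)).ncard : ℝ) := by
    rw [← Real.log_pow]
    exact Real.log_le_log (by positivity) h3
  simp only [Function.comp_apply, Nat.cast_mul]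
  rw [div_le_div_iff₀ hj' (by positivity)]
  nlinarith

/-- `Z_k(G)` is a nilpotent group. -/
lemma nilpotent_upper (k : ℕ) : Group.IsNilpotent (Subgroup.upperCentralSeries G k) := by
  rw [Subgroup.nilpotent_iff_finite_ascending_central_series]
  refine ⟨k, fun i => (Subgroup.upperCentralSeries G i).subgroupOf
    (Subgroup.upperCentralSeries G k), ⟨?_, ?_⟩, ?_⟩
  · show (Subgroup.upperCentralSeries G 0).subgroupOf (Subgroup.upperCentralSeries G k) = ⊥
    rw [Subgroup.upperCentralSeries_zero, Subgroup.bot_subgroupOf]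
  · intro x n hx g
    rw [mem_subgroupOf] at hx ⊢
    have := (Subgroup.mem_upperCentralSeries_succ_iff.1 hx) (g : G)
    simpa [commutatorElement_def] using this
  · exact Subgroup.subgroupOf_self _

end Pool.Agent.H785R3.GrowthA
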