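import Pool.Agent.H785R3.GrowthD

/-! Helper file (helper785), part E: metabelian groups. -/

namespace Pool.Agent.H785R3.GrowthA

open Subgroup Filter Topology
open scoped Pointwise commutatorElement

set_option linter.style.haveILetI false

universe u

variable {G : Type u} [Group G]

lemma ev_inv_reverse (a b : G) : ∀ l : List Bool, ev a⁻¹ b⁻¹ l.reverse = (ev a b l)⁻¹ := by
  have happ : ∀ (a b : G) (l l' : List Bool), ev a b (l ++ l') = ev a b l * ev a b l' := by
    intro a b l l'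
    simp [ev]
  intro l
  induction l with
  | nil => simp
  | cons t l ih =>
    rw [List.reverse_cons, happ, ih]
    cases t <;> simp

lemma FreePair.of_inv {a b : G} (h : FreePair a⁻¹ b⁻¹) : FreePair a b := by
  intro l l' hlen hev
  have := h l.reverse l'.reverse (by simpa using hlen) (by
    rw [ev_inv_reverse, ev_inv_reverse, hev])
  exact List.reverse_injective this

/-- `t` acts integrally (from one side) on `c` -/
def Int1 (t c : G) : Prop :=
  ∃ m : ℕ, t ^ m * c * (t ^ m)⁻¹ ∈ closure ((fun j : ℕ => t ^ j * c * (t ^ j)⁻¹) '' Set.Iio m)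

lemma conj_mem_of {X : Set G} {K : Subgroup G} {g x : G} (hx : x ∈ closure X)
    (h : ∀ y ∈ X, g * y * g⁻¹ ∈ K) : g * x * g⁻¹ ∈ K := by
  have hle : closure X ≤ K.comap (MulAut.conj g).toMonoidHom := by
    rw [closure_le]
    intro y hy
    simpa using h y hy
  simpa using hle hx

lemma int_of_not_free {t c : G} (h : ¬ FreePair t (t * c)) : Int1 t c ∧ Int1 t⁻¹ c := by
  constructor
  · have h' : ¬ FreePair t⁻¹ (t⁻¹ * (t * c⁻¹ * t⁻¹)) := by
      intro h2
      apply h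
      apply FreePair.of_inv
      have : (t * c)⁻¹ = t⁻¹ * (t * c⁻¹ * t⁻¹) := by group
      rw [this]; exact h2
    unfold FreePair at h'
    push Not at h'
    obtain ⟨l, l', hlen, hev, hne⟩ := h'
    obtain ⟨m, hm⟩ := exists_conj_mem _ _ l l' hlen hev hne
    refine ⟨m, ?_⟩
    -- conjugate by t⁻¹ and invert
    have h3 := conj_mem_of (g := t⁻¹)
      (K := closure ((fun j : ℕ => t ^ j * c * (t ^ j)⁻¹) '' Set.Iio m)) hm (by
        rintro _ ⟨j, hj, rfl⟩
        have e : t⁻¹ * (((t⁻¹) ^ j)⁻¹ * (t * c⁻¹ * t⁻¹) * (t⁻¹) ^ j) * (t⁻¹)⁻¹ =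
            (t ^ j * c * (t ^ j)⁻¹)⁻¹ := by
          have h1 : (t⁻¹ : G) ^ j = (t ^ j)⁻¹ := inv_pow t j
          have h2 : t⁻¹ * t ^ j * t = t ^ j := by
            rw [mul_assoc, ← pow_succ, pow_succ']; group
          have h2' : t⁻¹ * (t ^ j)⁻¹ * t = (t ^ j)⁻¹ := by
            have := congrArg (·⁻¹) h2
            simpa [mul_assoc] using this
          calc t⁻¹ * (((t⁻¹) ^ j)⁻¹ * (t * c⁻¹ * t⁻¹) * (t⁻¹) ^ j) * (t⁻¹)⁻¹
              = (t⁻¹ * t ^ j * t) * c⁻¹ * (t⁻¹ * (t ^ j)⁻¹ * t) := by rw [h1]; group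
            _ = t ^ j * c⁻¹ * (t ^ j)⁻¹ := by rw [h2, h2']
            _ = (t ^ j * c * (t ^ j)⁻¹)⁻¹ := by group
        rw [e]
        exact inv_mem (Subgroup.subset_closure ⟨j, hj, rfl⟩))
    have e : t⁻¹ * (((t⁻¹) ^ m)⁻¹ * (t * c⁻¹ * t⁻¹) * (t⁻¹) ^ m) * (t⁻¹)⁻¹ =
        (t ^ m * c * (t ^ m)⁻¹)⁻¹ := by
      have h1 : (t⁻¹ : G) ^ m = (t ^ m)⁻¹ := inv_pow t m
      have h2 : t⁻¹ * t ^ m * t = t ^ m := by
        rw [mul_assoc, ← pow_succ, pow_succ']; group
      have h2' : t⁻¹ * (t ^ m)⁻¹ * t = (t ^ m)⁻¹ := by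
        have := congrArg (·⁻¹) h2
        simpa [mul_assoc] using this
      calc t⁻¹ * (((t⁻¹) ^ m)⁻¹ * (t * c⁻¹ * t⁻¹) * (t⁻¹) ^ m) * (t⁻¹)⁻¹
          = (t⁻¹ * t ^ m * t) * c⁻¹ * (t⁻¹ * (t ^ m)⁻¹ * t) := by rw [h1]; group
        _ = t ^ m * c⁻¹ * (t ^ m)⁻¹ := by rw [h2, h2']
        _ = (t ^ m * c * (t ^ m)⁻¹)⁻¹ := by group
    rw [e] at h3
    exact inv_mem_iff.1 h3
  · unfold FreePair at h
    push Not at h
    obtain ⟨l, l', hlen, hev, hne⟩ := h
    obtain ⟨m, hm⟩ := exists_conj_mem _ _ l l' hlen hev hne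
    refine ⟨m, ?_⟩
    simpa [inv_pow] using hm

/-- finitely many commuting integral operators: a finite set of conjugates of `c` generating a
subgroup which is mapped to itself by the operators. -/
lemma fg_inv {A : Subgroup G} [A.Normal]
    (hcom : ∀ g h : G, ∀ a ∈ A, g * (h * a * h⁻¹) * g⁻¹ = h * (g * a * g⁻¹) * h⁻¹)
    {c : G} (hc : c ∈ A) {T : Set G} (hT : T.Finite) (hInt : ∀ t ∈ T, Int1 t c) :
    ∃ W : Set G, W.Finite ∧ (1 : G) ∈ W ∧
      ∀ t ∈ T, ∀ w ∈ W, t * (w * c * w⁻¹) * t⁻¹ ∈ closure ((fun w : G => w * c * w⁻¹) '' W) := by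
  induction T, hT using Set.Finite.induction_on with
  | empty => exact ⟨{1}, Set.finite_singleton 1, rfl, by simp⟩
  | @insert t T _ _ ih =>
    obtain ⟨W, hWfin, hW1, hW⟩ := ih (fun s hs => hInt s (Set.mem_insert_of_mem _ hs))
    obtain ⟨n, hn⟩ := hInt t (Set.mem_insert _ _)
    refine ⟨Set.image2 (fun (j : ℕ) (w : G) => t ^ j * w) (Set.Iic n) W,
      Set.Finite.image2 _ (Set.finite_Iic n) hWfin, ⟨0, by simp, 1, hW1, by simp⟩, ?_⟩
    set K := closure ((fun w : G => w * c * w⁻¹) ''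
      (Set.image2 (fun (j : ℕ) (w : G) => t ^ j * w) (Set.Iic n) W)) with hK
    have hmemK : ∀ j ≤ n, ∀ w ∈ W, t ^ j * (w * c * w⁻¹) * (t ^ j)⁻¹ ∈ K := by
      intro j hj w hw
      apply Subgroup.subset_closure
      exact ⟨t ^ j * w, ⟨j, hj, w, hw, rfl⟩, by simp [mul_assoc]⟩
    have hconjA : ∀ w : G, w * c * w⁻¹ ∈ A := fun w => ‹A.Normal›.conj_mem c hc w
    rintro s hs _ ⟨j, hj, w, hw, rfl⟩
    have hj' : j ≤ n := hj
    have e0 : t ^ j * w * c * (t ^ j * w)⁻¹ = t ^ j * (w * c * w⁻¹) * (t ^ j)⁻¹ := by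
      simp [mul_assoc]
    simp only
    rw [e0]
    rcases hs with rfl | hs
    · -- s = t
      rcases Nat.lt_or_ge j n with hjn | hjn
      · have e1 : s * (s ^ j * (w * c * w⁻¹) * (s ^ j)⁻¹) * s⁻¹ =
            s ^ (j + 1) * (w * c * w⁻¹) * (s ^ (j + 1))⁻¹ := by
          rw [pow_succ']; simp [mul_assoc]
        rw [e1]
        exact hmemK (j + 1) hjn w hw
      · have hjn' : j = n := le_antisymm hj' hjn
        subst hjn'
        -- s * (s^j (w c w⁻¹) s^-j) * s⁻¹ = s * (w * (s^j c s^-j) * w⁻¹) * s⁻¹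
        rw [hcom (s ^ j) w c hc]
        have e2 : s * (w * (s ^ j * c * (s ^ j)⁻¹) * w⁻¹) * s⁻¹ =
            (s * w) * (s ^ j * c * (s ^ j)⁻¹) * (s * w)⁻¹ := by simp [mul_assoc]
        rw [e2]
        apply conj_mem_of hn
        rintro _ ⟨i, hi, rfl⟩
        have hi' : i < j := hi
        have e3 : s * w * (s ^ i * c * (s ^ i)⁻¹) * (s * w)⁻¹ =
            s ^ (i + 1) * (w * c * w⁻¹) * (s ^ (i + 1))⁻¹ := by
          have := hcom w (s ^ i) c hc
          calc s * w * (s ^ i * c * (s ^ i)⁻¹) * (s * w)⁻¹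
              = s * (w * (s ^ i * c * (s ^ i)⁻¹) * w⁻¹) * s⁻¹ := by simp [mul_assoc]
            _ = s * (s ^ i * (w * c * w⁻¹) * (s ^ i)⁻¹) * s⁻¹ := by rw [this]
            _ = s ^ (i + 1) * (w * c * w⁻¹) * (s ^ (i + 1))⁻¹ := by
                rw [pow_succ']; simp [mul_assoc]
        show s * w * (s ^ i * c * (s ^ i)⁻¹) * (s * w)⁻¹ ∈ K
        rw [e3]
        exact hmemK (i + 1) hi' w hw
    · -- s ∈ T
      rw [hcom s (t ^ j) _ (hconjA w)]
      apply conj_mem_of (hW s hs w hw)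
      rintro _ ⟨w', hw', rfl⟩
      exact hmemK j hj' w' hw'

/-- if `G = ⟨T⟩` and all elements of `T` act integrally (both sides) on `c` then `c` lies in a
normal subgroup generated by finitely many conjugates of `c`. -/
lemma fg_normal {A : Subgroup G} [A.Normal]
    (hcom : ∀ g h : G, ∀ a ∈ A, g * (h * a * h⁻¹) * g⁻¹ = h * (g * a * g⁻¹) * h⁻¹)
    {c : G} (hc : c ∈ A) {T : Set G} (hT : T.Finite) (hTgen : closure T = ⊤)
    (hInt : ∀ t ∈ T, Int1 t c ∧ Int1 t⁻¹ c) :
    ∃ F : Set G, F.Finite ∧ F ⊆ (A : Set G) ∧ c ∈ F ∧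
      ∀ g : G, ∀ k ∈ closure F, g * k * g⁻¹ ∈ closure F := by
  have hT' : (T ∪ T⁻¹).Finite := hT.union hT.inv
  obtain ⟨W, hW, hW1, h⟩ := fg_inv hcom hc hT' (by
    rintro t (ht | ht)
    · exact (hInt t ht).1
    · have := (hInt t⁻¹ ht).2
      simpa using this)
  refine ⟨(fun w : G => w * c * w⁻¹) '' W, hW.image _, ?_, ⟨1, hW1, by simp⟩, ?_⟩
  · rintro _ ⟨w, -, rfl⟩
    exact ‹A.Normal›.conj_mem c hc w
  · intro g
    have hg : g ∈ closure T := by rw [hTgen]; exact mem_top g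
    have hstep : ∀ t ∈ T ∪ T⁻¹, ∀ k ∈ closure ((fun w : G => w * c * w⁻¹) '' W),
        t * k * t⁻¹ ∈ closure ((fun w : G => w * c * w⁻¹) '' W) := by
      intro t ht k hk
      apply conj_mem_of hk
      rintro _ ⟨w, hw, rfl⟩
      exact h t ht w hw
    have both : (∀ k ∈ closure ((fun w : G => w * c * w⁻¹) '' W),
        g * k * g⁻¹ ∈ closure ((fun w : G => w * c * w⁻¹) '' W)) ∧
        (∀ k ∈ closure ((fun w : G => w * c * w⁻¹) '' W),
        g⁻¹ * k * g ∈ closure ((fun w : G => w * c * w⁻¹) '' W)) := by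
      induction hg using Subgroup.closure_induction with
      | mem t ht =>
        refine ⟨hstep t (Or.inl ht), ?_⟩
        have := hstep t⁻¹ (Or.inr (by simpa using ht))
        simpa using this
      | one => exact ⟨fun k hk => by simpa using hk, fun k hk => by simpa using hk⟩
      | mul x y _ _ hx hy =>
        refine ⟨fun k hk => ?_, fun k hk => ?_⟩
        · have := hx.1 _ (hy.1 k hk)
          simpa [mul_assoc] using this
        · have := hy.2 _ (hx.2 k hk)
          simpa [mul_assoc] using this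
      | inv x _ hx =>
        refine ⟨fun k hk => ?_, fun k hk => ?_⟩
        · have := hx.2 k hk
          simpa using this
        · have := hx.1 k hk
          simpa using this
    exact both.1

/-- metabelian groups without short free pairs have finitely generated derived subgroup. -/
lemma metabelian_fg {S : Set G} (hfin : S.Finite) (hS : closure S = ⊤)
    (hab : ∀ a ∈ gam G 1, ∀ b ∈ gam G 1, a * b = b * a) (hNF : NoFree S 3) :
    ∃ F : Set G, F.Finite ∧ closure F = gam G 1 := by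
  classical
  have hcom : ∀ g h : G, ∀ a ∈ gam G 1, g * (h * a * h⁻¹) * g⁻¹ = h * (g * a * g⁻¹) * h⁻¹ := by
    intro g h a ha
    have hu : (h * g)⁻¹ * (g * h) ∈ gam G 1 := by
      have : (h * g)⁻¹ * (g * h) = ⁅g⁻¹, h⁻¹⁆ := by rw [commutatorElement_def]; group
      rw [this]; exact gam_comm (n := 0) (mem_top _) _
    have h1 := hab _ hu _ ha
    have h2 : (h * g)⁻¹ * (g * h) * a * ((h * g)⁻¹ * (g * h))⁻¹ = a := by rw [h1]; group
    calc g * (h * a * h⁻¹) * g⁻¹
        = (h * g) * ((h * g)⁻¹ * (g * h) * a * ((h * g)⁻¹ * (g * h))⁻¹) * (h * g)⁻¹ := by group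
      _ = (h * g) * a * (h * g)⁻¹ := by rw [h2]
      _ = h * (g * a * g⁻¹) * h⁻¹ := by group
  have key : ∀ p : S × S, ∃ F : Set G, F.Finite ∧ F ⊆ (gam G 1 : Set G) ∧
      ((p.1 * p.2 : G)⁻¹ * (p.2 * p.1)) ∈ F ∧
      ∀ g : G, ∀ k ∈ closure F, g * k * g⁻¹ ∈ closure F := by
    rintro ⟨⟨x, hx⟩, ⟨y, hy⟩⟩
    simp only
    have hc : (x * y)⁻¹ * (y * x) ∈ gam G 1 := by
      have : (x * y)⁻¹ * (y * x) = ⁅y⁻¹, x⁻¹⁆ := by rw [commutatorElement_def]; group
      rw [this]; exact gam_comm (n := 0) (mem_top _) _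
    have hx1 : x ∈ S ^ 1 := by simpa using hx
    have hy1 : y ∈ S ^ 1 := by simpa using hy
    have h1 := mul_mem_pow hx1 hy1 (k := 2) rfl
    have h2 := mul_mem_pow hy1 hx1 (k := 2) rfl
    apply fg_normal hcom hc (T := {x * y} ∪ (fun z : G => z * (x * y)) '' S)
      ((Set.finite_singleton _).union (hfin.image _))
    · -- generation
      rw [eq_top_iff, ← hS, closure_le]
      intro z hz
      have a1 : x * y ∈ closure ({x * y} ∪ (fun z : G => z * (x * y)) '' S) :=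
        Subgroup.subset_closure (Or.inl rfl)
      have a2 : z * (x * y) ∈ closure ({x * y} ∪ (fun z : G => z * (x * y)) '' S) :=
        Subgroup.subset_closure (Or.inr ⟨z, hz, rfl⟩)
      have : z = (z * (x * y)) * (x * y)⁻¹ := by group
      rw [this]
      exact mul_mem a2 (inv_mem a1)
    · rintro t (ht | ⟨z, hz, rfl⟩)
      · have ht' : t = x * y := ht
        subst ht'
        apply int_of_not_free
        have e : x * y * ((x * y)⁻¹ * (y * x)) = y * x := by group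
        rw [e]
        exact hNF 2 (by norm_num) _ h1 _ h2
      · apply int_of_not_free
        have e : z * (x * y) * ((x * y)⁻¹ * (y * x)) = z * (y * x) := by group
        have hz1 : z ∈ S ^ 1 := by simpa using hz
        show ¬ FreePair (z * (x * y)) (z * (x * y) * ((x * y)⁻¹ * (y * x)))
        rw [e]
        exact hNF 3 le_rfl _ (mul_mem_pow hz1 h1 rfl) _ (mul_mem_pow hz1 h2 rfl)
  choose f hf1 hf2 hf3 hf4 using key
  haveI : Finite S := hfin
  set F := ⋃ p : S × S, f p with hF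
  have hFA : closure F ≤ gam G 1 := by
    rw [closure_le]
    intro a ha
    obtain ⟨p, hp⟩ := Set.mem_iUnion.1 ha
    exact hf2 p hp
  haveI hnorm : (closure F).Normal := by
    constructor
    intro a ha g
    apply conj_mem_of ha
    intro y hy
    obtain ⟨p, hp⟩ := Set.mem_iUnion.1 hy
    have := hf4 p g y (Subgroup.subset_closure hp)
    exact Subgroup.closure_mono (Set.subset_iUnion f p) this
  refine ⟨F, Set.finite_iUnion hf1, le_antisymm hFA ?_⟩
  apply gam_le_of_Cen (n := 0)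
  show (⊤ : Subgroup G) ≤ _
  rw [← hS, closure_le]
  intro x hx
  apply mem_Cen_of_gen hS
  intro y hy
  have h1 : (x * y)⁻¹ * (y * x) ∈ closure F :=
    Subgroup.subset_closure (Set.mem_iUnion.2 ⟨(⟨x, hx⟩, ⟨y, hy⟩), hf3 (⟨x, hx⟩, ⟨y, hy⟩)⟩)
  rw [← QuotientGroup.eq] at h1
  simp only [QuotientGroup.mk_mul] at h1
  exact h1

end Pool.Agent.H785R3.GrowthA
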