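import Pool.Agent.H785R3.GrowthE

/-! Helper file (helper785), part F: passing to `G/G''` and back. -/

namespace Pool.Agent.H785R3.GrowthA

open Subgroup Filter Topology
open scoped Pointwise commutatorElement

set_option linter.style.haveILetI false

universe u

variable {G : Type u} [Group G]

/-- If no short free pairs, then `G'/G''` is finitely generated. -/
lemma derived_fg_mod {S : Set G} (hfin : S.Finite) (hS : closure S = ⊤) (hNF : NoFree S 3) :
    ∃ F : Set G, F.Finite ∧ F ⊆ (commutator G : Set G) ∧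
      commutator G = closure F ⊔ ⁅commutator G, commutator G⁆ := by
  classical
  set D := ⁅commutator G, commutator G⁆ with hD
  have hDle : D ≤ commutator G := by
    rw [hD]; exact commutator_le_left _ _
  have hsurj := QuotientGroup.mk'_surjective D
  have hS' : closure ((QuotientGroup.mk' D) '' S) = ⊤ := by
    rw [← MonoidHom.map_closure, hS, ← MonoidHom.range_eq_map]
    exact MonoidHom.range_eq_top.2 hsurj
  have hg : gam (G ⧸ D) 1 = (commutator G).map (QuotientGroup.mk' D) := gam_map hsurj 1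
  have hab : ∀ a ∈ gam (G ⧸ D) 1, ∀ b ∈ gam (G ⧸ D) 1, a * b = b * a := by
    rw [hg]
    rintro _ ⟨a, ha, rfl⟩ _ ⟨b, hb, rfl⟩
    have : ⁅a, b⁆ ∈ D := commutator_mem_commutator ha hb
    rw [← QuotientGroup.eq_one_iff, commutatorElement_def] at this
    simp only [QuotientGroup.mk_mul, QuotientGroup.mk_inv] at this
    rw [mul_inv_eq_one, mul_inv_eq_iff_eq_mul] at this
    exact this
  obtain ⟨F', hF', hF'2⟩ := metabelian_fg (hfin.image _) hS' hab (hNF.map _ le_rfl)
  -- lift
  have hlift : ∀ x : F', ∃ y ∈ commutator G, QuotientGroup.mk' D y = x := by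
    rintro ⟨x, hx⟩
    have : x ∈ gam (G ⧸ D) 1 := by rw [← hF'2]; exact Subgroup.subset_closure hx
    rw [hg] at this
    obtain ⟨y, hy, hyx⟩ := this
    exact ⟨y, hy, hyx⟩
  choose f hf1 hf2 using hlift
  haveI : Finite F' := hF'
  refine ⟨Set.range f, Set.finite_range f, ?_, ?_⟩
  · rintro _ ⟨x, rfl⟩; exact hf1 x
  · apply le_antisymm
    · intro a ha
      have h1 : (QuotientGroup.mk' D) a ∈ closure F' := by
        rw [hF'2, hg]; exact mem_map_of_mem _ ha
      have h2 : closure F' = (closure (Set.range f)).map (QuotientGroup.mk' D) := by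
        rw [MonoidHom.map_closure]
        congr 1
        ext x
        constructor
        · intro hx; exact ⟨f ⟨x, hx⟩, ⟨_, rfl⟩, hf2 ⟨x, hx⟩⟩
        · rintro ⟨_, ⟨t, rfl⟩, rfl⟩
          rw [hf2 t]; exact t.2
      rw [h2] at h1
      obtain ⟨b, hb, hba⟩ := h1
      have h3 : b⁻¹ * a ∈ D := by
        rw [← QuotientGroup.eq]; exact hba
      have h4 : a = b * (b⁻¹ * a) := by group
      rw [h4]
      exact mul_mem ((le_sup_left : closure (Set.range f) ≤ _) hb)
        ((le_sup_right : D ≤ closure (Set.range f) ⊔ D) h3)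
    · refine sup_le ?_ hDle
      rw [closure_le]
      rintro _ ⟨x, rfl⟩; exact hf1 x

/-- In a normal subgroup `N`, if `H ⊔ [N,N] = N` then `H ⊔ γ_i(N) = N`. -/
lemma sup_lcs {N H : Subgroup G} [N.Normal] (hHN : H ≤ N) (h : N ≤ H ⊔ N.lowerCentralSeries 1) :
    ∀ i : ℕ, N ≤ H ⊔ N.lowerCentralSeries (i + 1)
  | 0 => h
  | i + 1 => by
    have ih := sup_lcs hHN h i
    refine h.trans (sup_le le_sup_left ?_)
    show ⁅N, N⁆ ≤ _
    rw [commutator_le]
    intro a ha b hb
    obtain ⟨x, hx, z, hz, rfl⟩ := mem_sup_of_normal_right.1 (ih ha)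
    obtain ⟨y, hy, w, hw, rfl⟩ := mem_sup_of_normal_right.1 (ih hb)
    have hc : ∀ z ∈ N.lowerCentralSeries (i + 1), ∀ n ∈ N,
        Commute (z : G ⧸ N.lowerCentralSeries (i + 1 + 1)) (n : G ⧸ N.lowerCentralSeries (i + 1 + 1)) := by
      intro z hz n hn
      have : ⁅z, n⁆ ∈ N.lowerCentralSeries (i + 1 + 1) := commutator_mem_commutator hz hn
      rw [← QuotientGroup.eq_one_iff, commutatorElement_def] at this
      simp only [QuotientGroup.mk_mul, QuotientGroup.mk_inv] at this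
      rw [mul_inv_eq_one, mul_inv_eq_iff_eq_mul] at this
      exact this
    have hwN : w ∈ N := (N.lowerCentralSeries_le_self _) hw
    have h1 := hc z hz y (hHN hy)
    have h2 := hc z hz w hwN
    have h3 := hc w hw x (hHN hx)
    have hEq : ((⁅x * z, y * w⁆ : G) : G ⧸ N.lowerCentralSeries (i + 1 + 1)) =
        ((⁅x, y⁆ : G) : G ⧸ N.lowerCentralSeries (i + 1 + 1)) := by
      simp only [commutatorElement_def, QuotientGroup.mk_mul, QuotientGroup.mk_inv]
      generalize (x : G ⧸ N.lowerCentralSeries (i + 1 + 1)) = X at *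
      generalize (y : G ⧸ N.lowerCentralSeries (i + 1 + 1)) = Y at *
      generalize (z : G ⧸ N.lowerCentralSeries (i + 1 + 1)) = Z at *
      generalize (w : G ⧸ N.lowerCentralSeries (i + 1 + 1)) = W at *
      have e1 : Z * (Y * W) = (Y * W) * Z := (h1.mul_right h2).eq
      have e2 : W * X⁻¹ = X⁻¹ * W := (h3.inv_right).eq
      calc X * Z * (Y * W) * (X * Z)⁻¹ * (Y * W)⁻¹
          = X * (Z * (Y * W)) * Z⁻¹ * X⁻¹ * W⁻¹ * Y⁻¹ := by group
        _ = X * ((Y * W) * Z) * Z⁻¹ * X⁻¹ * W⁻¹ * Y⁻¹ := by rw [e1]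
        _ = X * Y * (W * X⁻¹) * W⁻¹ * Y⁻¹ := by group
        _ = X * Y * (X⁻¹ * W) * W⁻¹ * Y⁻¹ := by rw [e2]
        _ = X * Y * X⁻¹ * Y⁻¹ := by group
    rw [eq_comm, QuotientGroup.eq] at hEq
    have hxy : ⁅x, y⁆ ∈ H := by
      rw [commutatorElement_def]
      exact mul_mem (mul_mem (mul_mem hx hy) (inv_mem hx)) (inv_mem hy)
    have e : ⁅x * z, y * w⁆ = ⁅x, y⁆ * (⁅x, y⁆⁻¹ * ⁅x * z, y * w⁆) := by group
    rw [e]
    exact mul_mem ((le_sup_left : H ≤ _) hxy)
      ((le_sup_right : N.lowerCentralSeries (i + 1 + 1) ≤ _) hEq)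

/-- If `N` is nilpotent and `N = ⟨F⟩[N,N]` then `N = ⟨F⟩`. -/
lemma nilp_gen {N : Subgroup G} [N.Normal] (hN : Group.IsNilpotent N) {F : Set G}
    (hF : F ⊆ (N : Set G)) (h : N = closure F ⊔ ⁅N, N⁆) : closure F = N := by
  have hle : closure F ≤ N := (closure_le N).2 hF
  obtain ⟨n, hn⟩ := (Subgroup.isNilpotent_iff_lowerCentralSeries N).1 hN
  have h1 : N ≤ closure F ⊔ N.lowerCentralSeries (n + 1) := sup_lcs hle (le_of_eq h) n
  have h2 : N.lowerCentralSeries (n + 1) = ⊥ := by
    rw [eq_bot_iff, ← hn]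
    exact N.lowerCentralSeries_antitone (Nat.le_succ n)
  rw [h2, sup_bot_eq] at h1
  exact le_antisymm hle h1

end Pool.Agent.H785R3.GrowthA
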