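import Pool.Agent.H785R3.GrowthF

/-! Helper file (helper785), part G: determinant argument. -/

namespace Pool.Agent.H785R3.GrowthA

open TensorProduct

lemma det_root {D M : Type*} [CommRing D] [IsDomain D] [AddCommGroup M] [Module D M]
    [Module.Finite D M] [Nontrivial M]
    (htf : ∀ (r : D) (m : M), r • m = 0 → r = 0 ∨ m = 0)
    (a b : M →ₗ[D] M) (ha : Function.Injective a) (hb : Function.Injective b) (ζ : D)
    (hab : a ∘ₗ b = ζ • (b ∘ₗ a)) : ∃ r : ℕ, 0 < r ∧ ζ ^ r = 1 := by
  let K := FractionRing D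
  let V := K ⊗[D] M
  let A := a.baseChange K
  let B := b.baseChange K
  have hA : Function.Injective A := Module.Flat.lTensor_preserves_injective_linearMap a ha
  have hB : Function.Injective B := Module.Flat.lTensor_preserves_injective_linearMap b hb
  have hdA : LinearMap.det A ≠ 0 := by
    intro h
    have := LinearMap.bot_lt_ker_of_det_eq_zero h
    rw [LinearMap.ker_eq_bot.2 hA] at this
    exact lt_irrefl _ this
  have hdB : LinearMap.det B ≠ 0 := by
    intro h
    have := LinearMap.bot_lt_ker_of_det_eq_zero h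
    rw [LinearMap.ker_eq_bot.2 hB] at this
    exact lt_irrefl _ this
  have hAB : A ∘ₗ B = (algebraMap D K ζ) • (B ∘ₗ A) := by
    have h1 : (a ∘ₗ b).baseChange K = A ∘ₗ B := LinearMap.baseChange_comp b a
    have h2 : (b ∘ₗ a).baseChange K = B ∘ₗ A := LinearMap.baseChange_comp a b
    rw [← h1, ← h2, hab, LinearMap.baseChange_smul, algebraMap_smul]
  have h2 := congrArg LinearMap.det hAB
  rw [LinearMap.det_comp, LinearMap.det_smul, LinearMap.det_comp] at h2
  have hnt : Nontrivial V := by
    obtain ⟨m, hm⟩ := exists_ne (0 : M)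
    refine ⟨⟨TensorProduct.mk D K M 1 m, 0, ?_⟩⟩
    intro h
    rw [IsLocalizedModule.eq_zero_iff (nonZeroDivisors D)] at h
    obtain ⟨s, hs⟩ := h
    rcases htf (s : D) m hs with h0 | h0
    · exact nonZeroDivisors.ne_zero s.2 h0
    · exact hm h0
  refine ⟨Module.finrank K V, Module.finrank_pos, ?_⟩
  have h3 : (algebraMap D K ζ) ^ Module.finrank K V = 1 := by
    have : (algebraMap D K ζ) ^ Module.finrank K V * (LinearMap.det B * LinearMap.det A) =
        1 * (LinearMap.det B * LinearMap.det A) := by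
      rw [← h2]; ring
    exact mul_right_cancel₀ (mul_ne_zero hdB hdA) this
  have hinj := IsFractionRing.injective D K
  apply hinj
  rw [map_pow, h3, map_one]

section Act

variable {Q M : Type*} [Group Q] [AddCommGroup M] (ρ : Q →* Module.End ℤ M)

/-- one sided integrality of `t` on `c` -/
def IntM (t : Q) (c : M) : Prop :=
  ∃ n : ℕ, ρ (t ^ n) c ∈ Submodule.span ℤ ((fun j : ℕ => ρ (t ^ j) c) '' Set.Iio n)

/-- the ring generated by the action -/
abbrev BB : Subring (Module.End ℤ M) := Subring.closure (Set.range ρ)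

/-- its centre -/
abbrev DD : Subring (BB ρ) := Subring.center (BB ρ)

variable (hJN : ∀ r : Module.End ℤ M, (∀ g : Q, r * ρ g = ρ g * r) → r = 0 ∨ Function.Injective r)

lemma DD_comm (r : DD ρ) (g : Q) : ((r : BB ρ) : Module.End ℤ M) * ρ g = ρ g * ((r : BB ρ) : Module.End ℤ M) := by
  have h := r.2
  rw [Subring.mem_center_iff] at h
  have := h ⟨ρ g, Subring.subset_closure ⟨g, rfl⟩⟩
  exact (congrArg Subtype.val this).symm

include hJN in
lemma DD_inj (r : DD ρ) : r = 0 ∨ Function.Injective (fun m : M => r • m) := by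
  rcases hJN ((r : BB ρ) : Module.End ℤ M) (DD_comm ρ r) with h | h
  · left
    exact Subtype.ext (Subtype.ext h)
  · right
    exact h

include hJN in
lemma DD_domain [Nontrivial M] : IsDomain (DD ρ) := by
  have h1 : Nontrivial (DD ρ) := by
    refine ⟨⟨0, 1, ?_⟩⟩
    intro h
    obtain ⟨a, ha⟩ := exists_ne (0 : M)
    apply ha
    rw [← one_smul (DD ρ) a, ← h, zero_smul]
  have h2 : NoZeroDivisors (DD ρ) := by
    refine ⟨?_⟩
    intro x y hxy
    by_contra hcon
    push Not at hcon
    obtain ⟨a, ha⟩ := exists_ne (0 : M)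
    have h3 := (DD_inj ρ hJN x).resolve_left hcon.1
    have h4 := (DD_inj ρ hJN y).resolve_left hcon.2
    apply ha
    apply h4
    apply h3
    show x • y • a = x • y • (0 : M)
    rw [← mul_smul, hxy, zero_smul, smul_zero, smul_zero]
  exact NoZeroDivisors.to_isDomain _

/-- central elements of `Q` give elements of `DD ρ` -/
def cen (z : Q) (hz : z ∈ Subgroup.center Q) : DD ρ :=
  ⟨⟨ρ z, Subring.subset_closure ⟨z, rfl⟩⟩, by
    rw [Subring.mem_center_iff]
    rintro ⟨g, hg⟩
    apply Subtype.ext
    show g * ρ z = ρ z * g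
    induction hg using Subring.closure_induction with
    | mem x hx =>
      obtain ⟨q, rfl⟩ := hx
      rw [← map_mul, ← map_mul, (Subgroup.mem_center_iff.1 hz) q]
    | zero => simp
    | one => simp
    | add x y _ _ hx hy => rw [add_mul, mul_add, hx, hy]
    | neg x _ hx => rw [neg_mul, mul_neg, hx]
    | mul x y _ _ hx hy => rw [mul_assoc, hy, ← mul_assoc, hx, mul_assoc]⟩

lemma cen_smul (z : Q) (hz : z ∈ Subgroup.center Q) (m : M) : cen ρ z hz • m = ρ z m := rfl

end Act

end Pool.Agent.H785R3.GrowthA
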