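import Pool.Agent.H785R3.GrowthG

/-! Helper file (helper785), part H: Heisenberg pairs act through roots of unity. -/

namespace Pool.Agent.H785R3.GrowthA

open Subgroup

section Act

variable {Q M : Type*} [Group Q] [AddCommGroup M] (ρ : Q →* Module.End ℤ M)

/-- `ρ g` as a `DD ρ`-linear map -/
def rL (g : Q) : M →ₗ[DD ρ] M where
  toFun := ρ g
  map_add' := map_add _
  map_smul' r m := by
    have := DD_comm ρ r g
    have h := congrArg (fun f : Module.End ℤ M => f m) this
    exact h.symm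

lemma rL_apply (g : Q) (m : M) : rL ρ g m = ρ g m := rfl

lemma rho_inj (g : Q) : Function.Injective (ρ g) := by
  intro x y h
  have : ρ g⁻¹ (ρ g x) = ρ g⁻¹ (ρ g y) := by rw [h]
  rw [← Module.End.mul_apply, ← Module.End.mul_apply, ← map_mul, inv_mul_cancel, map_one] at this
  exact this

lemma span_map {X : Set M} {x : M} (hx : x ∈ Submodule.span ℤ X) (f : Module.End ℤ M)
    {M0 : AddSubgroup M} (h : ∀ y ∈ X, f y ∈ M0) : f x ∈ M0 := by
  induction hx using Submodule.span_induction with
  | mem y hy => exact h y hy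
  | zero => rw [map_zero]; exact zero_mem _
  | add y z _ _ hy hz => rw [map_add]; exact add_mem hy hz
  | smul n y _ hy => rw [map_zsmul]; exact zsmul_mem hy n

variable (hJN : ∀ r : Module.End ℤ M, (∀ g : Q, r * ρ g = ρ g * r) → r = 0 ∨ Function.Injective r)

lemma comm_pow_heis {a b z : Q} (hz : z ∈ center Q) (hab : a * b = z * (b * a)) (i j : ℕ) :
    a ^ i * b ^ j = z ^ (i * j) * (b ^ j * a ^ i) := by
  have hzc : ∀ g : Q, g * z = z * g := fun g => mem_center_iff.1 hz g
  have hzp : ∀ (n : ℕ) (g : Q), g * z ^ n = z ^ n * g := fun n g =>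
    mem_center_iff.1 (pow_mem hz n) g
  have h1 : ∀ j : ℕ, a * b ^ j = z ^ j * (b ^ j * a) := by
    intro j
    induction j with
    | zero => simp
    | succ j ih =>
      calc a * b ^ (j + 1) = (a * b ^ j) * b := by rw [pow_succ]; group
        _ = z ^ j * (b ^ j * (a * b)) := by rw [ih]; group
        _ = z ^ j * (b ^ j * z) * (b * a) := by rw [hab]; group
        _ = z ^ j * (z * b ^ j) * (b * a) := by rw [hzc]
        _ = z ^ (j + 1) * (b ^ (j + 1) * a) := by rw [pow_succ, pow_succ]; group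
  induction i with
  | zero => simp
  | succ i ih =>
    calc a ^ (i + 1) * b ^ j = a * (a ^ i * b ^ j) := by rw [pow_succ']; group
      _ = (a * z ^ (i * j)) * (b ^ j * a ^ i) := by rw [ih]; group
      _ = z ^ (i * j) * ((a * b ^ j) * a ^ i) := by rw [hzp]; group
      _ = z ^ (i * j) * (z ^ j * (b ^ j * a) * a ^ i) := by rw [h1]
      _ = z ^ ((i + 1) * j) * (b ^ j * a ^ (i + 1)) := by
          rw [pow_succ' a, Nat.succ_mul, pow_add]; group

include hJN in
theorem heis {a b z : Q} (hz : z ∈ center Q) (hab : a * b = z * (b * a)) {c : M} (hc : c ≠ 0)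
    (ha : IntM ρ a c) (hb : IntM ρ b c) : ∃ r : ℕ, 0 < r ∧ ρ (z ^ r) = 1 := by
  classical
  have : Nontrivial M := ⟨⟨c, 0, hc⟩⟩
  have := DD_domain ρ hJN
  obtain ⟨I, hI⟩ := ha
  obtain ⟨J, hJ⟩ := hb
  have hI0 : 0 < I := by
    rcases Nat.eq_zero_or_pos I with h | h
    · subst h; exfalso; apply hc; simpa using hI
    · exact h
  have hJ0 : 0 < J := by
    rcases Nat.eq_zero_or_pos J with h | h
    · subst h; exfalso; apply hc; simpa using hJ
    · exact h
  set X : Set M := (fun p : ℕ × ℕ => ρ (b ^ p.2 * a ^ p.1) c) '' (Set.Iio I ×ˢ Set.Iio J) with hX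
  have hXfin : X.Finite := ((Set.finite_Iio I).prod (Set.finite_Iio J)).image _
  set M0 : Submodule (DD ρ) M := Submodule.span (DD ρ) X with hM0
  have hgen : ∀ i < I, ∀ j < J, ρ (b ^ j * a ^ i) c ∈ M0 := by
    intro i hi j hj
    exact Submodule.subset_span ⟨(i, j), ⟨hi, hj⟩, rfl⟩
  have hcz : ∀ (n : ℕ) (m : M), m ∈ M0 → ρ (z ^ n) m ∈ M0 := by
    intro n m hm
    rw [← cen_smul ρ (z ^ n) (pow_mem hz n)]
    exact M0.smul_mem _ hm
  have hczi : ∀ (n : ℕ) (m : M), m ∈ M0 → ρ (z ^ n)⁻¹ m ∈ M0 := by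
    intro n m hm
    rw [← cen_smul ρ (z ^ n)⁻¹ (inv_mem (pow_mem hz n))]
    exact M0.smul_mem _ hm
  have hA : ∀ m ∈ M0, rL ρ a m ∈ M0 := by
    intro m hm
    have : M0 ≤ M0.comap (rL ρ a) := by
      rw [hM0, Submodule.span_le]
      rintro _ ⟨⟨i, j⟩, ⟨hi, hj⟩, rfl⟩
      simp only [Set.mem_Iio] at hi hj
      show ρ a (ρ (b ^ j * a ^ i) c) ∈ M0
      rw [← Module.End.mul_apply, ← map_mul]
      have e : a * (b ^ j * a ^ i) = z ^ j * (b ^ j * a ^ (i + 1)) := by
        have := comm_pow_heis hz hab 1 j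
        rw [pow_one, one_mul] at this
        rw [← mul_assoc, this, pow_succ']; group
      rw [e, map_mul, Module.End.mul_apply]
      apply hcz
      rcases Nat.lt_or_ge (i + 1) I with h | h
      · exact hgen (i + 1) h j hj
      · have hiI : i + 1 = I := by omega
        rw [hiI, map_mul, Module.End.mul_apply]
        apply span_map hI (ρ (b ^ j)) (M0 := M0.toAddSubgroup)
        rintro _ ⟨i', hi', rfl⟩
        show ρ (b ^ j) (ρ (a ^ i') c) ∈ M0
        rw [← Module.End.mul_apply, ← map_mul]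
        exact hgen i' hi' j hj
    exact this hm
  have hB : ∀ m ∈ M0, rL ρ b m ∈ M0 := by
    intro m hm
    have : M0 ≤ M0.comap (rL ρ b) := by
      rw [hM0, Submodule.span_le]
      rintro _ ⟨⟨i, j⟩, ⟨hi, hj⟩, rfl⟩
      simp only [Set.mem_Iio] at hi hj
      show ρ b (ρ (b ^ j * a ^ i) c) ∈ M0
      rw [← Module.End.mul_apply, ← map_mul]
      have e : b * (b ^ j * a ^ i) = b ^ (j + 1) * a ^ i := by rw [pow_succ']; group
      rw [e]
      rcases Nat.lt_or_ge (j + 1) J with h | h
      · exact hgen i hi (j + 1) h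
      · have hjJ : j + 1 = J := by omega
        rw [hjJ]
        have e2 : b ^ J * a ^ i = (z ^ (i * J))⁻¹ * (a ^ i * b ^ J) := by
          rw [comm_pow_heis hz hab i J]; group
        rw [e2, map_mul, Module.End.mul_apply]
        apply hczi
        rw [map_mul, Module.End.mul_apply]
        apply span_map hJ (ρ (a ^ i)) (M0 := M0.toAddSubgroup)
        rintro _ ⟨j', hj', rfl⟩
        show ρ (a ^ i) (ρ (b ^ j') c) ∈ M0
        rw [← Module.End.mul_apply, ← map_mul, comm_pow_heis hz hab i j', map_mul,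
          Module.End.mul_apply]
        exact hcz _ _ (hgen i hi j' hj')
    exact this hm
  have hfinM0 : Module.Finite (DD ρ) M0 := by
    rw [Module.Finite.iff_fg]
    exact ⟨hXfin.toFinset, by rw [Set.Finite.coe_toFinset]⟩
  have hc0 : c ∈ M0 := by
    have := hgen 0 hI0 0 hJ0
    simpa using this
  have : Nontrivial M0 := ⟨⟨⟨c, hc0⟩, 0, fun h => hc (congrArg Subtype.val h)⟩⟩
  obtain ⟨r, hr, h⟩ := det_root (D := DD ρ) (M := M0)
    (by
      intro r m h
      rcases DD_inj ρ hJN r with h0 | h0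
      · exact Or.inl h0
      · right
        apply Subtype.ext
        apply h0
        have h1 : r • (m : M) = 0 := congrArg Subtype.val h
        show r • (m : M) = r • (0 : M)
        rw [h1, smul_zero])
    ((rL ρ a).restrict hA) ((rL ρ b).restrict hB)
    (by
      intro x y hxy
      apply Subtype.ext
      exact rho_inj ρ a (congrArg Subtype.val hxy))
    (by
      intro x y hxy
      apply Subtype.ext
      exact rho_inj ρ b (congrArg Subtype.val hxy))
    (cen ρ z hz)
    (by
      ext m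
      show ρ a (ρ b (m : M)) = (cen ρ z hz) • ρ b (ρ a (m : M))
      rw [cen_smul, ← Module.End.mul_apply, ← Module.End.mul_apply, ← Module.End.mul_apply,
        ← map_mul, ← map_mul, ← map_mul, hab, mul_assoc])
  refine ⟨r, hr, ?_⟩
  have h1 : ((((cen ρ z hz) ^ r : DD ρ) : BB ρ) : Module.End ℤ M) = 1 := by rw [h]; rfl
  rw [map_pow]
  have h2 : ((cen ρ z hz : BB ρ) : Module.End ℤ M) ^ r = 1 := by simpa using h1
  exact h2

end Act

end Pool.Agent.H785R3.GrowthA
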