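import Pool.Agent.H785R3.GrowthH

/-! Helper file (helper785), part I: finite-by-central commutators act through finite order. -/

namespace Pool.Agent.H785R3.GrowthA

open Subgroup
open scoped Pointwise commutatorElement

universe u

section P

variable {Q : Type*} [Group Q]

lemma finite_normal_power {Φ : Subgroup Q} [Φ.Normal] [Finite Φ] :
    ∃ n : ℕ, 0 < n ∧ ∀ x : Q, ∀ φ ∈ Φ, Commute (x ^ n) φ := by
  classical
  have hfin : Finite (MulAut Φ) := by
    have : Function.Injective (fun f : MulAut Φ => (f : Φ → Φ)) := fun f g h => by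
      ext x; exact congrArg Subtype.val (congrFun h x)
    exact Finite.of_injective _ this
  refine ⟨Nat.card (MulAut Φ), Nat.card_pos, ?_⟩
  intro x φ hφ
  have h1 : (MulAut.conjNormal x : MulAut Φ) ^ Nat.card (MulAut Φ) = 1 := pow_card_eq_one'
  rw [← map_pow] at h1
  have h2 := congrArg (fun f : MulAut Φ => ((f ⟨φ, hφ⟩ : Φ) : Q)) h1
  simp only [MulAut.conjNormal_apply, MulAut.one_apply] at h2
  show x ^ Nat.card (MulAut Φ) * φ = φ * x ^ Nat.card (MulAut Φ)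
  rw [mul_inv_eq_iff_eq_mul] at h2
  exact h2

/-- Lemma P -/
lemma lemP {Φ : Subgroup Q} [Φ.Normal] [Finite Φ] {e t1 t2 : Q} (he : ∀ g, ⁅e, g⁆ ∈ Φ)
    (h : t1 * t2 = e * (t2 * t1)) :
    ∃ M : ℕ, 0 < M ∧ e ^ M ∈ center Q ∧ t1 * t2 ^ M = e ^ M * (t2 ^ M * t1) := by
  obtain ⟨n1, hn1, hcomm⟩ := finite_normal_power (Φ := Φ)
  have hF : 0 < Nat.card Φ := Nat.card_pos
  set F := Nat.card Φ with hFdef
  have hpowF : ∀ φ ∈ Φ, φ ^ F = 1 := by
    intro φ hφ
    have h0 : (⟨φ, hφ⟩ : Φ) ^ Nat.card Φ = 1 := pow_card_eq_one'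
    have h1 : (((⟨φ, hφ⟩ : Φ) ^ Nat.card Φ : Φ) : Q) = 1 := by rw [h0]; rfl
    rw [Subgroup.coe_pow] at h1
    exact h1
  -- e is central mod Φ
  have hec : ∀ g : Q, Commute (e : Q ⧸ Φ) (g : Q ⧸ Φ) := by
    intro g
    have := (QuotientGroup.eq_one_iff _).2 (he g)
    rw [commutatorElement_def] at this
    simp only [QuotientGroup.mk_mul, QuotientGroup.mk_inv] at this
    rw [mul_inv_eq_one, mul_inv_eq_iff_eq_mul] at this
    exact this
  -- e^(n1 F) is central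
  have hcen : e ^ (n1 * F) ∈ center Q := by
    rw [mem_center_iff]
    intro g
    have h1 : g * e ^ n1 * g⁻¹ * (e ^ n1)⁻¹ ∈ Φ := by
      rw [← QuotientGroup.eq_one_iff]
      simp only [QuotientGroup.mk_mul, QuotientGroup.mk_inv, QuotientGroup.mk_pow]
      have := ((hec g).pow_left n1).eq
      rw [← this]; group
    set φ := g * e ^ n1 * g⁻¹ * (e ^ n1)⁻¹ with hφ
    have h2 : g * e ^ n1 * g⁻¹ = φ * e ^ n1 := by rw [hφ]; group
    have h3 : g * e ^ (n1 * F) * g⁻¹ = (g * e ^ n1 * g⁻¹) ^ F := by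
      rw [conj_pow, ← pow_mul]
    have h4 : (φ * e ^ n1) ^ F = e ^ (n1 * F) := by
      rw [(hcomm e φ h1).symm.mul_pow, hpowF φ h1, one_mul, ← pow_mul]
    rw [h2, h4] at h3
    rw [mul_inv_eq_iff_eq_mul] at h3
    exact h3
  set m := n1 * F with hm
  have hb0 : ∀ φ ∈ Φ, Commute (t2 ^ m) φ := by
    intro φ hφ
    rw [hm, pow_mul]
    exact (hcomm t2 φ hφ).pow_left F
  have h1 : t1 * t2 * t1⁻¹ = e * t2 := by rw [h]; group
  have h2 : t1 * t2 ^ m * t1⁻¹ = (e * t2) ^ m := by rw [← conj_pow, h1]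
  have h3 : (e * t2) ^ m * (e ^ m * t2 ^ m)⁻¹ ∈ Φ := by
    rw [← QuotientGroup.eq_one_iff]
    simp only [QuotientGroup.mk_mul, QuotientGroup.mk_inv, QuotientGroup.mk_pow]
    rw [(hec t2).mul_pow]; group
  set φ := (e * t2) ^ m * (e ^ m * t2 ^ m)⁻¹ with hφ
  have h4 : (e * t2) ^ m = φ * (e ^ m * t2 ^ m) := by rw [hφ]; group
  have hEc : ∀ g : Q, Commute (e ^ m) g := fun g => (mem_center_iff.1 hcen g).symm
  refine ⟨m * F, by positivity, ?_, ?_⟩
  · rw [pow_mul]; exact pow_mem hcen F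
  · have h5 : t1 * t2 ^ (m * F) * t1⁻¹ = (t1 * t2 ^ m * t1⁻¹) ^ F := by
      rw [conj_pow, ← pow_mul]
    have h6 : (φ * (e ^ m * t2 ^ m)) ^ F = e ^ (m * F) * t2 ^ (m * F) := by
      have c1 : Commute φ (e ^ m * t2 ^ m) := (hEc φ).symm.mul_right (hb0 φ h3).symm
      rw [c1.mul_pow, hpowF φ h3, one_mul, (hEc (t2 ^ m)).mul_pow, ← pow_mul, ← pow_mul]
    rw [h2, h4, h6, mul_inv_eq_iff_eq_mul] at h5
    rw [h5, mul_assoc]

end P

section Act

variable {Q M : Type*} [Group Q] [AddCommGroup M] (ρ : Q →* Module.End ℤ M)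

lemma IntM_pow {t : Q} {c : M} (h : IntM ρ t c) (N : ℕ) : IntM ρ (t ^ N) c := by
  obtain ⟨n, hn⟩ := h
  set V : Submodule ℤ M := Submodule.span ℤ ((fun j : ℕ => ρ (t ^ j) c) '' Set.Iio n) with hV
  have hVfg : V.FG := by
    have hfin : ((fun j : ℕ => ρ (t ^ j) c) '' Set.Iio n).Finite := (Set.finite_Iio n).image _
    exact ⟨hfin.toFinset, by rw [Set.Finite.coe_toFinset]⟩
  have hstab : ∀ v ∈ V, ρ t v ∈ V := by
    intro v hv
    apply span_map hv (ρ t) (M0 := V.toAddSubgroup)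
    rintro _ ⟨j, hj, rfl⟩
    have hj' : j < n := hj
    show ρ t (ρ (t ^ j) c) ∈ V
    rw [← Module.End.mul_apply, ← map_mul, ← pow_succ']
    rcases Nat.lt_or_ge (j + 1) n with h | h
    · exact Submodule.subset_span ⟨j + 1, h, rfl⟩
    · have : j + 1 = n := by omega
      rw [this]; exact hn
  have hall : ∀ i : ℕ, ρ (t ^ i) c ∈ V := by
    intro i
    induction i with
    | zero =>
      rcases Nat.eq_zero_or_pos n with h | h
      · subst h; exact hn
      · exact Submodule.subset_span ⟨0, h, rfl⟩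
    | succ i ih =>
      rw [pow_succ', map_mul, Module.End.mul_apply]
      exact hstab _ ih
  have hnoeth : IsNoetherian ℤ V := isNoetherian_of_fg_of_noetherian V hVfg
  let W : ℕ → Submodule ℤ M := fun m =>
    Submodule.span ℤ ((fun j : ℕ => ρ ((t ^ N) ^ j) c) '' Set.Iio m)
  have hWmono : ∀ {a b : ℕ}, a ≤ b → W a ≤ W b := by
    intro a b hab
    apply Submodule.span_mono
    apply Set.image_mono
    intro x hx
    exact lt_of_lt_of_le hx hab
  let f : ℕ →o Submodule ℤ V := ⟨fun m => (W m).comap V.subtype, by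
    intro a b hab
    exact Submodule.comap_mono (hWmono hab)⟩
  obtain ⟨m, hm⟩ := (monotone_stabilizes_iff_noetherian.2 hnoeth) f
  refine ⟨m, ?_⟩
  have h1 : ρ ((t ^ N) ^ m) c ∈ V := by rw [← pow_mul]; exact hall _
  have h2 : (⟨ρ ((t ^ N) ^ m) c, h1⟩ : V) ∈ f (m + 1) := by
    show ρ ((t ^ N) ^ m) c ∈ W (m + 1)
    exact Submodule.subset_span ⟨m, Nat.lt_succ_self m, rfl⟩
  rw [← hm (m + 1) (Nat.le_succ m)] at h2
  exact h2

variable (hJN : ∀ r : Module.End ℤ M, (∀ g : Q, r * ρ g = ρ g * r) → r = 0 ∨ Function.Injective r)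

include hJN in
theorem torsion_comm {Φ : Subgroup Q} [Φ.Normal] [Finite Φ] {t1 t2 : Q}
    (he : ∀ g, ⁅⁅t1, t2⁆, g⁆ ∈ Φ) {c : M} (hc : c ≠ 0) (h1 : IntM ρ t1 c) (h2 : IntM ρ t2 c) :
    ∃ n : ℕ, 0 < n ∧ ρ (⁅t1, t2⁆ ^ n) = 1 := by
  have h : t1 * t2 = ⁅t1, t2⁆ * (t2 * t1) := by rw [commutatorElement_def]; group
  obtain ⟨m, hm, hcen, hrel⟩ := lemP he h
  obtain ⟨r, hr, h3⟩ := heis ρ hJN hcen hrel hc h1 (IntM_pow ρ h2 m)
  exact ⟨m * r, by positivity, by rw [pow_mul]; exact h3⟩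

end Act

end Pool.Agent.H785R3.GrowthA
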