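import Pool.Agent.H785R3.GrowthI

/-! Helper file (helper785), part J: descending induction. -/

namespace Pool.Agent.H785R3.GrowthA

open Subgroup
open scoped Pointwise commutatorElement

universe u

section Gen

variable {Q : Type u} [Group Q]

lemma Pr_finite {S : Set Q} (hfin : S.Finite) (j : ℕ) :
    {x : Q × Q | Pr S j x.1 x.2}.Finite := by
  have h1 : (⋃ l ∈ Set.Iic (3 * 2 ^ j), ((S ^ l) ×ˢ (S ^ l) : Set (Q × Q))).Finite := by
    apply Set.Finite.biUnion (Set.finite_Iic _)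
    intro l _
    exact (finite_pow hfin l).prod (finite_pow hfin l)
  apply h1.subset
  rintro ⟨p, q⟩ hpq
  obtain ⟨l, hl, hp, hq⟩ := Pr_len hpq
  rw [Set.mem_iUnion₂]
  exact ⟨l, by simp only [Set.mem_Iic]; omega, hp, hq⟩

/-- generators of `γ_2` -/
def E1 (S : Set Q) (X : Q) : Set Q :=
  (fun p : Q × Q => ⁅p.1, p.2⁆) ''
    (({X} ∪ (fun w : Q => w * X) '' S) ×ˢ ({X} ∪ (fun w : Q => w * X) '' S))

/-- generators of `γ_{j+3}` -/
def E2 (S : Set Q) (X : Q) (j : ℕ) : Set Q :=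
  (fun p : Q × Q => ⁅p.1 * X, p.2 * X⁆) '' {x : Q × Q | Pr S j x.1 x.2} ∪
  (fun p : Q × (Q × Q) => ⁅p.1 * p.2.1 * X, p.1 * p.2.2 * X⁆) ''
    (S ×ˢ {x : Q × Q | Pr S j x.1 x.2})

lemma E1_finite {S : Set Q} (hfin : S.Finite) (X : Q) : (E1 S X).Finite := by
  apply Set.Finite.image
  have : ({X} ∪ (fun w : Q => w * X) '' S).Finite := (Set.finite_singleton _).union (hfin.image _)
  exact this.prod this

lemma E2_finite {S : Set Q} (hfin : S.Finite) (X : Q) (j : ℕ) : (E2 S X j).Finite :=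
  ((Pr_finite hfin j).image _).union ((hfin.prod (Pr_finite hfin j)).image _)

lemma TX_gen {S : Set Q} (hS : closure S = ⊤) (X : Q) :
    closure ({X} ∪ (fun w : Q => w * X) '' S) = ⊤ := by
  rw [eq_top_iff, ← hS, closure_le]
  intro z hz
  have a1 : X ∈ closure ({X} ∪ (fun z : Q => z * X) '' S) :=
    Subgroup.subset_closure (Or.inl rfl)
  have a2 : z * X ∈ closure ({X} ∪ (fun z : Q => z * X) '' S) :=
    Subgroup.subset_closure (Or.inr ⟨z, hz, rfl⟩)
  have : z = (z * X) * X⁻¹ := by group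
  rw [this]
  exact mul_mem a2 (inv_mem a1)

lemma E1_sub {S : Set Q} (X : Q) : E1 S X ⊆ (gam Q 1 : Set Q) := by
  rintro _ ⟨⟨a, b⟩, -, rfl⟩
  exact gam_comm (n := 0) (mem_top _) _

lemma comm_shift {p q X : Q} : ⁅p * X, q * X⁆ = q * X * ⁅X⁻¹ * (q⁻¹ * p) * X, q * X⁆ * (q * X)⁻¹ := by
  rw [commutatorElement_def, commutatorElement_def]; group

lemma E2_sub {S : Set Q} (X : Q) (j : ℕ) : E2 S X j ⊆ (gam Q (j + 2) : Set Q) := by
  have key : ∀ p q : Q, q⁻¹ * p ∈ gam Q (j + 1) → ⁅p * X, q * X⁆ ∈ gam Q (j + 2) := by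
    intro p q h
    rw [comm_shift]
    have h1 : X⁻¹ * (q⁻¹ * p) * X ∈ gam Q (j + 1) := by
      have := (inferInstance : (gam Q (j + 1)).Normal).conj_mem _ h X⁻¹
      simpa using this
    exact (inferInstance : (gam Q (j + 2)).Normal).conj_mem _ (gam_comm h1 _) _
  rintro _ (⟨⟨p, q⟩, hpq, rfl⟩ | ⟨⟨w, ⟨p, q⟩⟩, ⟨hw, hpq⟩, rfl⟩)
  · exact key p q (Pr_mem hpq)
  · apply key
    have : (w * q)⁻¹ * (w * p) = q⁻¹ * p := by group
    show (w * q)⁻¹ * (w * p) ∈ _
    rw [this]; exact Pr_mem hpq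

lemma gam_le_E1 {S : Set Q} (hS : closure S = ⊤) (X : Q) :
    gam Q 1 ≤ closure (E1 S X) ⊔ gam Q 2 := by
  have hn : (closure (E1 S X) ⊔ gam Q 2).Normal :=
    normal_between (n := 1) le_sup_right (sup_le ((closure_le _).2 (E1_sub X)) (gam_succ_le 1))
  apply gam_le_of_Cen (n := 0)
  show (⊤ : Subgroup Q) ≤ _
  rw [← TX_gen hS X, closure_le]
  intro x hx
  apply mem_Cen_of_gen (TX_gen hS X)
  intro y hy
  have h1 : ⁅x, y⁆ ∈ closure (E1 S X) ⊔ gam Q 2 := by
    apply (le_sup_left : closure (E1 S X) ≤ _)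
    exact Subgroup.subset_closure ⟨(x, y), ⟨hx, hy⟩, rfl⟩
  rw [← QuotientGroup.eq_one_iff, commutatorElement_def] at h1
  simp only [QuotientGroup.mk_mul, QuotientGroup.mk_inv] at h1
  rw [mul_inv_eq_one, mul_inv_eq_iff_eq_mul] at h1
  exact h1

lemma gam_le_E2 {S : Set Q} (hS : closure S = ⊤) (X : Q) (j : ℕ) :
    gam Q (j + 2) ≤ closure (E2 S X j) ⊔ gam Q (j + 3) := by
  have hn : (closure (E2 S X j) ⊔ gam Q (j + 3)).Normal :=
    normal_between (n := j + 2) le_sup_right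
      (sup_le ((closure_le _).2 (E2_sub X j)) (gam_succ_le (j + 2)))
  apply gam_le_of_Cen (n := j + 1)
  refine (gam_le_Df hS j).trans (sup_le ?_ ?_)
  · rw [closure_le]
    rintro _ ⟨p, q, hpq, rfl⟩
    -- X⁻¹ (q⁻¹ p) X is central mod Λ
    have hc : X⁻¹ * (q⁻¹ * p) * X ∈ Cen (closure (E2 S X j) ⊔ gam Q (j + 3)) := by
      apply mem_Cen_of_gen hS
      intro z hz
      have h1 : ⁅p * X, q * X⁆ ∈ closure (E2 S X j) ⊔ gam Q (j + 3) := by
        apply (le_sup_left : closure (E2 S X j) ≤ _)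
        exact Subgroup.subset_closure (Or.inl ⟨(p, q), hpq, rfl⟩)
      have h2 : ⁅z * p * X, z * q * X⁆ ∈ closure (E2 S X j) ⊔ gam Q (j + 3) := by
        apply (le_sup_left : closure (E2 S X j) ≤ _)
        exact Subgroup.subset_closure (Or.inr ⟨(z, (p, q)), ⟨hz, hpq⟩, rfl⟩)
      rw [← QuotientGroup.eq_one_iff, commutatorElement_def] at h1 h2
      simp only [QuotientGroup.mk_mul, QuotientGroup.mk_inv] at h1 h2
      simp only [QuotientGroup.mk_mul, QuotientGroup.mk_inv]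
      rw [mul_inv_eq_one, mul_inv_eq_iff_eq_mul] at h1 h2
      generalize (p : Q ⧸ (closure (E2 S X j) ⊔ gam Q (j + 3))) = P at *
      generalize (q : Q ⧸ (closure (E2 S X j) ⊔ gam Q (j + 3))) = R at *
      generalize (z : Q ⧸ (closure (E2 S X j) ⊔ gam Q (j + 3))) = Z at *
      generalize (X : Q ⧸ (closure (E2 S X j) ⊔ gam Q (j + 3))) = Y at *
      show Y⁻¹ * (R⁻¹ * P) * Y * Z = Z * (Y⁻¹ * (R⁻¹ * P) * Y)
      -- h1 : P Y R Y = R Y P Y ; h2 : Z P Y (Z R Y) = Z R Y (Z P Y)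
      have g1 : (R * Y)⁻¹ * (P * Y) = (P * Y) * (R * Y)⁻¹ := by
        rw [inv_mul_eq_iff_eq_mul, ← mul_assoc, ← h1]; group
      have g2 : (P * Y) * Z * (R * Y) = (R * Y) * Z * (P * Y) := by
        have : Z * ((P * Y) * Z * (R * Y)) = Z * ((R * Y) * Z * (P * Y)) := by
          calc Z * ((P * Y) * Z * (R * Y)) = Z * P * Y * (Z * R * Y) := by group
            _ = Z * R * Y * (Z * P * Y) := h2
            _ = Z * ((R * Y) * Z * (P * Y)) := by group
        exact mul_left_cancel this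
      have g3 : (P * Y) * Z = (R * Y) * Z * (P * Y) * (R * Y)⁻¹ := by rw [← g2]; group
      calc Y⁻¹ * (R⁻¹ * P) * Y * Z = (R * Y)⁻¹ * ((P * Y) * Z) := by group
        _ = (R * Y)⁻¹ * ((R * Y) * Z * (P * Y) * (R * Y)⁻¹) := by rw [g3]
        _ = Z * ((P * Y) * (R * Y)⁻¹) := by group
        _ = Z * ((R * Y)⁻¹ * (P * Y)) := by rw [g1]
        _ = Z * (Y⁻¹ * (R⁻¹ * P) * Y) := by group
    have hCn : (Cen (closure (E2 S X j) ⊔ gam Q (j + 3))).Normal := by
      unfold Cen; infer_instance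
    have := hCn.conj_mem _ hc X
    have e : X * (X⁻¹ * (q⁻¹ * p) * X) * X⁻¹ = q⁻¹ * p := by group
    rw [e] at this
    exact this
  · intro a ha
    rw [mem_Cen]
    intro g
    exact (le_sup_right : gam Q (j + 3) ≤ _) (gam_comm ha g)

/-- finiteness step -/
lemma gam_finite_step {n : ℕ} (hfin : Finite (gam Q (n + 1))) {D : Set Q} (hDfin : D.Finite)
    (hD : D ⊆ (gam Q n : Set Q)) (hgen : gam Q n ≤ closure D ⊔ gam Q (n + 1))
    (htor : ∀ d ∈ D, ∃ m : ℕ, 0 < m ∧ d ^ m = 1) : Finite (gam Q n) := by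
  have hLF1 : LF (gam Q (n + 1)) := by
    intro T _ hT
    have hle : closure T ≤ gam Q (n + 1) := (closure_le _).2 hT
    exact Finite.of_injective (Subgroup.inclusion hle) (Subgroup.inclusion_injective hle)
  have hLF : LF (gam Q n) :=
    ext_LF hLF1 (fun a ha b _ => gam_comm ha b) (tor_mod hD hgen htor)
  have hset : (gam Q (n + 1) : Set Q).Finite := Set.toFinite _
  have h1 := hLF (D ∪ (gam Q (n + 1) : Set Q)) (hDfin.union hset)
    (Set.union_subset hD (gam_succ_le n))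
  have h2 : gam Q n ≤ closure (D ∪ (gam Q (n + 1) : Set Q)) := by
    rw [Subgroup.closure_union, Subgroup.closure_eq]; exact hgen
  exact Finite.of_injective (Subgroup.inclusion h2) (Subgroup.inclusion_injective h2)

end Gen

section Act

variable {Q : Type u} {M : Type*} [Group Q] [AddCommGroup M] (ρ : Q →* Module.End ℤ M)
variable (hJN : ∀ r : Module.End ℤ M, (∀ g : Q, r * ρ g = ρ g * r) → r = 0 ∨ Function.Injective r)

include hJN in
theorem gam_one_finite (hinj : Function.Injective ρ) {S : Set Q} (hSfin : S.Finite)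
    (hS : closure S = ⊤) {k : ℕ} (hk : 1 ≤ k) (hnil : gam Q k = ⊥) {X : Q} {c : M} (hc : c ≠ 0)
    (hInt : ∀ l ≤ 2 ^ (k - 1), ∀ g ∈ S ^ l, IntM ρ (g * X) c) : Finite (gam Q 1) := by
  have hIntX : IntM ρ X c := by
    have := hInt 0 (by positivity) 1 (by simp)
    simpa using this
  have hIntT : ∀ t ∈ ({X} ∪ (fun w : Q => w * X) '' S : Set Q), IntM ρ t c := by
    rintro t (ht | ⟨w, hw, rfl⟩)
    · have : t = X := ht
      rw [this]; exact hIntX
    · exact hInt 1 Nat.one_le_two_pow w (by simpa using hw)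
  have key : ∀ i : ℕ, i < k → Finite (gam Q (k - i)) := by
    intro i
    induction i with
    | zero => intro _; rw [Nat.sub_zero, hnil]; infer_instance
    | succ i ih =>
      intro hi
      have ih' := ih (by omega)
      obtain ⟨n, hn⟩ : ∃ n, k - (i + 1) = n + 1 := ⟨k - (i + 1) - 1, by omega⟩
      have hn2 : k - i = n + 2 := by omega
      rw [hn2] at ih'
      rw [hn]
      have hfinite : Finite (gam Q (n + 1 + 1)) := ih'
      -- torsion of commutators in gam (n+1)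
      have htors : ∀ t1 t2 : Q, IntM ρ t1 c → IntM ρ t2 c → ⁅t1, t2⁆ ∈ gam Q (n + 1) →
          ∃ m : ℕ, 0 < m ∧ ⁅t1, t2⁆ ^ m = 1 := by
        intro t1 t2 h1 h2 h3
        obtain ⟨m, hm, h⟩ := torsion_comm ρ hJN (Φ := gam Q (n + 1 + 1))
          (fun g => gam_comm h3 g) hc h1 h2
        exact ⟨m, hm, hinj (by rw [h, map_one])⟩
      rcases n with _ | j
      · refine gam_finite_step hfinite (E1_finite hSfin X) (E1_sub X) (gam_le_E1 hS X) ?_
        rintro _ ⟨⟨a, b⟩, ⟨ha, hb⟩, rfl⟩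
        exact htors a b (hIntT a ha) (hIntT b hb) (gam_comm (n := 0) (mem_top _) _)
      · have hjk : j + 3 ≤ k := by omega
        have hlen : 3 * 2 ^ j ≤ 2 ^ (k - 1) := by
          have h1 : 2 ^ (j + 2) ≤ 2 ^ (k - 1) := Nat.pow_le_pow_right (by norm_num) (by omega)
          have h2 : 2 ^ (j + 2) = 4 * 2 ^ j := by rw [pow_add]; ring
          have h3 : 0 < 2 ^ j := by positivity
          omega
        refine gam_finite_step hfinite (E2_finite hSfin X j) (E2_sub X j) (gam_le_E2 hS X j) ?_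
        rintro _ (⟨⟨p, q⟩, hpq, rfl⟩ | ⟨⟨w, ⟨p, q⟩⟩, ⟨hw, hpq⟩, rfl⟩)
        · obtain ⟨l, hl, hp, hq⟩ := Pr_len hpq
          exact htors (p * X) (q * X) (hInt l (by omega) p hp) (hInt l (by omega) q hq)
            (E2_sub X j (Or.inl ⟨(p, q), hpq, rfl⟩))
        · obtain ⟨l, hl, hp, hq⟩ := Pr_len hpq
          have hw1 : w ∈ S ^ 1 := by simpa using hw
          exact htors (w * p * X) (w * q * X)
            (hInt (l + 1) (by omega) (w * p) (mul_mem_pow hw1 hp (by ring)))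
            (hInt (l + 1) (by omega) (w * q) (mul_mem_pow hw1 hq (by ring)))
            (E2_sub X j (Or.inr ⟨(w, (p, q)), ⟨hw, hpq⟩, rfl⟩))
  have := key (k - 1) (by omega)
  have h1 : k - (k - 1) = 1 := by omega
  rw [h1] at this
  exact this

end Act

end Pool.Agent.H785R3.GrowthA
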