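import Pool.Agent.H785R3.GrowthJ

/-! Helper file (helper785), part K: just-non-finitely-generated quotient and the core theorem. -/

namespace Pool.Agent.H785R3.GrowthA

open Subgroup
open scoped Pointwise commutatorElement

universe u

section Act

variable {Q : Type u} {M : Type*} [Group Q] [AddCommGroup M] (ρ : Q →* Module.End ℤ M)

/-- finite-by-abelian: finitely many translates span an invariant subgroup. -/
lemma fin_inv [Finite (gam Q 1)] {c : M} {T : Set Q} (hT : T.Finite)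
    (hInt : ∀ t ∈ T, IntM ρ t c) :
    ∃ W : Set Q, W.Finite ∧ (1 : Q) ∈ W ∧ (∀ φ ∈ gam Q 1, ∀ w ∈ W, φ * w ∈ W) ∧
      ∀ t ∈ T, ∀ w ∈ W, ρ (t * w) c ∈ Submodule.span ℤ ((fun w : Q => ρ w c) '' W) := by
  have hcm : ∀ a b : Q, ⁅a, b⁆ ∈ gam Q 1 := fun a b => gam_comm (n := 0) (mem_top a) b
  induction T, hT using Set.Finite.induction_on with
  | empty =>
    exact ⟨(gam Q 1 : Set Q), Set.toFinite _, one_mem _, fun φ hφ w hw => mul_mem hφ hw, by simp⟩
  | @insert t T _ _ ih =>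
    obtain ⟨W, hWfin, hW1, hWφ, hW⟩ := ih (fun s hs => hInt s (Set.mem_insert_of_mem _ hs))
    obtain ⟨n, hn⟩ := hInt t (Set.mem_insert _ _)
    have hmem : ∀ j ≤ n, ∀ φ ∈ gam Q 1, ∀ w ∈ W,
        φ * (t ^ j * w) ∈ Set.image2 (fun (j : ℕ) (w : Q) => t ^ j * w) (Set.Iic n) W := by
      intro j hj φ hφ w hw
      refine ⟨j, hj, (t ^ j)⁻¹ * φ * t ^ j * w, ?_, by simp [mul_assoc]⟩
      apply hWφ _ _ w hw
      have := (inferInstance : (gam Q 1).Normal).conj_mem _ hφ (t ^ j)⁻¹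
      simpa using this
    refine ⟨Set.image2 (fun (j : ℕ) (w : Q) => t ^ j * w) (Set.Iic n) W,
      Set.Finite.image2 _ (Set.finite_Iic n) hWfin, ⟨0, by simp, 1, hW1, by simp⟩, ?_, ?_⟩
    · rintro φ hφ _ ⟨j, hj, w, hw, rfl⟩
      exact hmem j hj φ hφ w hw
    · have hsp : ∀ j ≤ n, ∀ φ ∈ gam Q 1, ∀ w ∈ W, ρ (φ * (t ^ j * w)) c ∈
          Submodule.span ℤ ((fun w : Q => ρ w c) ''
            (Set.image2 (fun (j : ℕ) (w : Q) => t ^ j * w) (Set.Iic n) W)) := by
        intro j hj φ hφ w hw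
        exact Submodule.subset_span ⟨_, hmem j hj φ hφ w hw, rfl⟩
      rintro s hs _ ⟨j, hj, w, hw, rfl⟩
      have hj' : j ≤ n := hj
      rcases hs with rfl | hs
      · rcases Nat.lt_or_ge j n with hjn | hjn
        · have := hsp (j + 1) hjn 1 (one_mem _) w hw
          rw [one_mul, pow_succ', mul_assoc] at this
          exact this
        · have hjn' : j = n := le_antisymm hj' hjn
          subst hjn'
          have e : s * (s ^ j * w) = ⁅s ^ (j + 1), w⁆ * (w * s) * s ^ j := by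
            rw [commutatorElement_def]
            have : s * (s ^ j * w) = s ^ (j + 1) * w := by rw [pow_succ', mul_assoc]
            rw [this]
            have h2 : w * s * s ^ j = w * s ^ (j + 1) := by rw [pow_succ', mul_assoc]
            rw [mul_assoc _ (w * s) (s ^ j), h2]; group
          show ρ (s * (s ^ j * w)) c ∈ _
          rw [e, map_mul, Module.End.mul_apply]
          apply span_map hn (ρ (⁅s ^ (j + 1), w⁆ * (w * s)))
            (M0 := (Submodule.span ℤ ((fun w : Q => ρ w c) ''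
            (Set.image2 (fun (j : ℕ) (w : Q) => s ^ j * w) (Set.Iic j) W))).toAddSubgroup)
          rintro _ ⟨i, hi, rfl⟩
          have hi' : i < j := hi
          show ρ (⁅s ^ (j + 1), w⁆ * (w * s)) (ρ (s ^ i) c) ∈ _
          rw [← Module.End.mul_apply, ← map_mul]
          have e2 : ⁅s ^ (j + 1), w⁆ * (w * s) * s ^ i =
              (⁅s ^ (j + 1), w⁆ * ⁅w, s ^ (i + 1)⁆) * (s ^ (i + 1) * w) := by
            have h2 : w * s * s ^ i = w * s ^ (i + 1) := by rw [pow_succ', mul_assoc]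
            rw [mul_assoc _ (w * s) (s ^ i), h2, commutatorElement_def w]; group
          rw [e2]
          exact hsp (i + 1) hi' _ (mul_mem (hcm _ _) (hcm _ _)) w hw
      · have e : s * (t ^ j * w) = (⁅s, t ^ j⁆ * t ^ j) * (s * w) := by
          rw [commutatorElement_def]; group
        show ρ (s * (t ^ j * w)) c ∈ _
        rw [e, map_mul, Module.End.mul_apply]
        apply span_map (hW s hs w hw) (ρ (⁅s, t ^ j⁆ * t ^ j))
          (M0 := (Submodule.span ℤ ((fun w : Q => ρ w c) ''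
            (Set.image2 (fun (j : ℕ) (w : Q) => t ^ j * w) (Set.Iic n) W))).toAddSubgroup)
        rintro _ ⟨w', hw', rfl⟩
        show ρ (⁅s, t ^ j⁆ * t ^ j) (ρ w' c) ∈ _
        rw [← Module.End.mul_apply, ← map_mul, mul_assoc]
        exact hsp j hj' _ (hcm _ _) w' hw'

lemma inv_of_gen {T : Set Q} (hTgen : closure T = ⊤) {V : Submodule ℤ M}
    (h : ∀ t ∈ T, ∀ v ∈ V, ρ t v ∈ V ∧ ρ t⁻¹ v ∈ V) (g : Q) : ∀ v ∈ V, ρ g v ∈ V := by
  have hg : g ∈ closure T := by rw [hTgen]; exact mem_top g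
  have both : (∀ v ∈ V, ρ g v ∈ V) ∧ (∀ v ∈ V, ρ g⁻¹ v ∈ V) := by
    induction hg using Subgroup.closure_induction with
    | mem t ht => exact ⟨fun v hv => (h t ht v hv).1, fun v hv => (h t ht v hv).2⟩
    | one => exact ⟨fun v hv => by simpa using hv, fun v hv => by simpa using hv⟩
    | mul x y _ _ hx hy =>
      refine ⟨fun v hv => ?_, fun v hv => ?_⟩
      · rw [map_mul, Module.End.mul_apply]; exact hx.1 _ (hy.1 v hv)
      · rw [mul_inv_rev, map_mul, Module.End.mul_apply]; exact hy.2 _ (hx.2 v hv)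
    | inv x _ hx => exact ⟨hx.2, by rw [inv_inv]; exact hx.1⟩
  exact both.1

lemma fg_inv_sub [Finite (gam Q 1)] {c : M} {T : Set Q} (hT : T.Finite) (hTgen : closure T = ⊤)
    (hInt : ∀ t ∈ T, IntM ρ t c ∧ IntM ρ t⁻¹ c) :
    ∃ F : Set M, F.Finite ∧ c ∈ Submodule.span ℤ F ∧
      ∀ g : Q, ∀ v ∈ Submodule.span ℤ F, ρ g v ∈ Submodule.span ℤ F := by
  obtain ⟨W, hW, hW1, -, h⟩ := fin_inv ρ (hT.union hT.inv) (c := c) (by
    rintro t (ht | ht)
    · exact (hInt t ht).1
    · have := (hInt t⁻¹ ht).2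
      simpa using this)
  refine ⟨(fun w : Q => ρ w c) '' W, hW.image _, Submodule.subset_span ⟨1, hW1, by simp⟩, ?_⟩
  have hstep : ∀ t ∈ T ∪ T⁻¹, ∀ v ∈ Submodule.span ℤ ((fun w : Q => ρ w c) '' W),
      ρ t v ∈ Submodule.span ℤ ((fun w : Q => ρ w c) '' W) := by
    intro t ht v hv
    apply span_map hv (ρ t) (M0 := (Submodule.span ℤ ((fun w : Q => ρ w c) '' W)).toAddSubgroup)
    rintro _ ⟨w, hw, rfl⟩
    show ρ t (ρ w c) ∈ _
    rw [← Module.End.mul_apply, ← map_mul]
    exact h t ht w hw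
  intro g
  apply inv_of_gen ρ hTgen
  intro t ht v hv
  exact ⟨hstep t (Or.inl ht) v hv, hstep t⁻¹ (Or.inr (by simpa using ht)) v hv⟩

/-- `M / V` is a finitely generated abelian group -/
def FQ {M : Type*} [AddCommGroup M] (V : Submodule ℤ M) : Prop :=
  ∃ F : Set M, F.Finite ∧ Submodule.span ℤ F ⊔ V = ⊤

/-- invariant -/
def InvS (V : Submodule ℤ M) : Prop := ∀ g : Q, ∀ v ∈ V, ρ g v ∈ V

/-- Zorn: a maximal invariant subgroup with non-finitely-generated quotient -/
lemma exists_max {S : Set Q} (hSfin : S.Finite) (hS : closure S = ⊤) {E : Set M} (hE : E.Finite)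
    (hEgen : ∀ V : Submodule ℤ M, InvS ρ V → E ⊆ V → V = ⊤) (hM : ¬ FQ (⊥ : Submodule ℤ M)) :
    ∃ V : Submodule ℤ M, InvS ρ V ∧ ¬ FQ V ∧ ∀ W : Submodule ℤ M, InvS ρ W → V < W → FQ W := by
  classical
  obtain ⟨V, hV⟩ := zorn_le₀ {V : Submodule ℤ M | InvS ρ V ∧ ¬ FQ V} (by
    intro c hc hchain
    rcases c.eq_empty_or_nonempty with rfl | hne
    · refine ⟨⊥, ⟨?_, hM⟩, by simp⟩
      intro g v hv
      rw [Submodule.mem_bot] at hv
      rw [hv, map_zero]; exact zero_mem _
    · have hdir : DirectedOn (· ≤ ·) c := hchain.directedOn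
      have hmem : ∀ x : M, x ∈ sSup c ↔ ∃ V ∈ c, x ∈ V := fun x =>
        Submodule.mem_sSup_of_directed hne hdir
      refine ⟨sSup c, ⟨?_, ?_⟩, fun z hz => le_sSup hz⟩
      · intro g v hv
        obtain ⟨V, hVc, hv⟩ := (hmem v).1 hv
        exact (hmem _).2 ⟨V, hVc, (hc hVc).1 g v hv⟩
      · rintro ⟨F, hF, hFtop⟩
        -- finitely many elements to be expressed
        have hfin : (E ∪ (fun p : Q × M => ρ p.1 p.2) '' ((S ∪ S⁻¹) ×ˢ F)).Finite :=
          hE.union (((hSfin.union hSfin.inv).prod hF).image _)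
        have hone : ∀ X : Set M, X.Finite → ∃ V ∈ c, ∀ x ∈ X, x ∈ Submodule.span ℤ F ⊔ V := by
          intro X hX
          induction X, hX using Set.Finite.induction_on with
          | empty => obtain ⟨V, hV⟩ := hne; exact ⟨V, hV, by simp⟩
          | @insert a X _ _ ih =>
            obtain ⟨V, hVc, hV⟩ := ih
            have ha : a ∈ Submodule.span ℤ F ⊔ sSup c := by rw [hFtop]; trivial
            obtain ⟨y, hy, z, hz, rfl⟩ := Submodule.mem_sup.1 ha
            obtain ⟨V', hV'c, hzV'⟩ := (hmem z).1 hz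
            obtain ⟨V'', hV''c, h1, h2⟩ := hdir V hVc V' hV'c
            refine ⟨V'', hV''c, ?_⟩
            rintro x (rfl | hx)
            · exact Submodule.mem_sup.2 ⟨y, hy, z, h2 hzV', rfl⟩
            · exact (sup_le_sup_left h1 _) (hV x hx)
        obtain ⟨V, hVc, hV⟩ := hone _ hfin
        apply (hc hVc).2
        refine ⟨F, hF, ?_⟩
        apply hEgen
        · apply inv_of_gen ρ hS
          have hs : ∀ s ∈ S ∪ S⁻¹, ∀ v ∈ Submodule.span ℤ F ⊔ V, ρ s v ∈ Submodule.span ℤ F ⊔ V := by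
            intro s hs v hv
            obtain ⟨y, hy, z, hz, rfl⟩ := Submodule.mem_sup.1 hv
            rw [map_add]
            apply add_mem
            · apply span_map hy (ρ s) (M0 := (Submodule.span ℤ F ⊔ V).toAddSubgroup)
              intro f hf
              exact hV _ (Or.inr ⟨(s, f), ⟨hs, hf⟩, rfl⟩)
            · exact (le_sup_right : V ≤ Submodule.span ℤ F ⊔ V) ((hc hVc).1 s z hz)
          intro t ht v hv
          exact ⟨hs t (Or.inl ht) v hv, hs t⁻¹ (Or.inr (by simpa using ht)) v hv⟩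
        · intro e he
          exact hV e (Or.inl he))
  refine ⟨V, hV.prop.1, hV.prop.2, ?_⟩
  intro W hW hlt
  by_contra hcon
  exact absurd (hV.le_of_ge ⟨hW, hcon⟩ hlt.le) (not_le_of_gt hlt)

/-- the just-non-finitely-generated property gives the dichotomy for commuting endomorphisms -/
lemma jn_dichotomy (hM : ¬ FQ (⊥ : Submodule ℤ M))
    (hJ : ∀ W : Submodule ℤ M, InvS ρ W → W ≠ ⊥ → FQ W) (r : Module.End ℤ M)
    (hr : ∀ g : Q, r * ρ g = ρ g * r) : r = 0 ∨ Function.Injective r := by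
  by_contra hcon
  push Not at hcon
  obtain ⟨h0, hinj⟩ := hcon
  have hr' : ∀ (g : Q) (m : M), r (ρ g m) = ρ g (r m) := fun g m =>
    congrArg (fun f : Module.End ℤ M => f m) (hr g)
  obtain ⟨F1, hF1, h1⟩ := hJ (LinearMap.ker r)
    (by
      intro g v hv
      rw [LinearMap.mem_ker] at hv ⊢
      rw [hr', hv, map_zero])
    (by intro h; exact hinj (LinearMap.ker_eq_bot.1 h))
  obtain ⟨F2, hF2, h2⟩ := hJ (LinearMap.range r)
    (by
      rintro g _ ⟨v, rfl⟩
      exact ⟨ρ g v, hr' g v⟩)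
    (by intro h; exact h0 (LinearMap.range_eq_bot.1 h))
  apply hM
  refine ⟨F2 ∪ r '' F1, hF2.union (hF1.image _), ?_⟩
  rw [sup_bot_eq, Submodule.span_union, eq_top_iff, ← h2]
  apply sup_le_sup_left
  rintro _ ⟨v, rfl⟩
  have hv : v ∈ Submodule.span ℤ F1 ⊔ LinearMap.ker r := by rw [h1]; trivial
  obtain ⟨y, hy, z, hz, rfl⟩ := Submodule.mem_sup.1 hv
  rw [map_add, LinearMap.mem_ker.1 hz, add_zero, ← Submodule.map_span]
  exact ⟨y, hy, rfl⟩

end Act

end Pool.Agent.H785R3.GrowthA
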