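import Pool.Agent.H785R3.GrowthK

/-! Helper file (helper785), part L: the core theorem at module level. -/

namespace Pool.Agent.H785R3.GrowthA

open Subgroup
open scoped Pointwise commutatorElement

universe u

section Core

variable {G : Type u} {M : Type*} [Group G] [AddCommGroup M] (ρ : G →* Module.End ℤ M)

/-- the action on the quotient by an invariant subgroup -/
def quotAct (V : Submodule ℤ M) (hV : InvS ρ V) : G →* Module.End ℤ (M ⧸ V) where
  toFun g := V.mapQ V (ρ g) (fun v hv => hV g v hv)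
  map_one' := by
    apply LinearMap.ext
    intro x
    obtain ⟨x, rfl⟩ := Submodule.Quotient.mk_surjective V x
    rw [Submodule.mapQ_apply, map_one]; rfl
  map_mul' g h := by
    apply LinearMap.ext
    intro x
    obtain ⟨x, rfl⟩ := Submodule.Quotient.mk_surjective V x
    rw [Submodule.mapQ_apply, map_mul]; rfl

lemma quotAct_mk (V : Submodule ℤ M) (hV : InvS ρ V) (g : G) (m : M) :
    quotAct ρ V hV g (V.mkQ m) = V.mkQ (ρ g m) := rfl

lemma IntM_quot (V : Submodule ℤ M) (hV : InvS ρ V) {t : G} {c : M} (h : IntM ρ t c) :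
    IntM (quotAct ρ V hV) t (V.mkQ c) := by
  obtain ⟨n, hn⟩ := h
  refine ⟨n, ?_⟩
  have h1 := Submodule.mem_map_of_mem (f := V.mkQ) hn
  rw [Submodule.map_span, ← Set.image_comp] at h1
  exact h1

theorem core {S : Set G} (hSfin : S.Finite) (hS : closure S = ⊤) {k : ℕ} (hk : 1 ≤ k)
    (hnil : ∀ g ∈ gam G k, ρ g = 1) {C : Set M} (hC : C.Finite)
    (hCgen : ∀ V : Submodule ℤ M, InvS ρ V → C ⊆ V → V = ⊤)
    (hInt : ∀ c ∈ C, ∃ X : G, ∀ l ≤ 2 ^ (k - 1), ∀ g ∈ S ^ l,
      IntM ρ (g * X) c ∧ IntM ρ (g * X)⁻¹ c) : FQ (⊥ : Submodule ℤ M) := by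
  by_contra hM
  obtain ⟨V, hV, hVn, hmax⟩ := exists_max ρ hSfin hS hC hCgen hM
  set ρ' := quotAct ρ V hV with hρ'
  obtain ⟨c, hcC, hcV⟩ : ∃ c ∈ C, c ∉ V := by
    by_contra hcon
    push Not at hcon
    apply hVn
    refine ⟨∅, Set.finite_empty, ?_⟩
    rw [hCgen V hV hcon]; simp
  have hM' : ¬ FQ (⊥ : Submodule ℤ (M ⧸ V)) := by
    rintro ⟨F, hF, hFt⟩
    apply hVn
    choose f hf using (fun x : M ⧸ V => Submodule.Quotient.mk_surjective V x)
    refine ⟨f '' F, hF.image _, ?_⟩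
    rw [eq_top_iff]
    intro m _
    have h1 : V.mkQ m ∈ Submodule.span ℤ F := by
      rw [sup_bot_eq] at hFt
      rw [hFt]; trivial
    have h2 : (Submodule.span ℤ (f '' F)).map V.mkQ = Submodule.span ℤ F := by
      rw [Submodule.map_span, ← Set.image_comp]
      congr 1
      ext x
      constructor
      · rintro ⟨y, hy, rfl⟩
        show V.mkQ (f y) ∈ F
        have : V.mkQ (f y) = y := hf y
        rw [this]; exact hy
      · intro hx
        exact ⟨x, hx, hf x⟩
    rw [← h2] at h1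
    obtain ⟨y, hy, hym⟩ := h1
    have h3 : m - y ∈ V := by
      rw [← Submodule.Quotient.mk_eq_zero, Submodule.Quotient.mk_sub, sub_eq_zero]
      exact hym.symm
    exact Submodule.mem_sup.2 ⟨y, hy, m - y, h3, by abel⟩
  have hJ : ∀ W : Submodule ℤ (M ⧸ V), InvS ρ' W → W ≠ ⊥ → FQ W := by
    intro W hW hne
    have hW' : InvS ρ (W.comap V.mkQ) := by
      intro g v hv
      rw [Submodule.mem_comap] at hv ⊢
      exact hW g _ hv
    have hlt : V < W.comap V.mkQ := by
      refine lt_of_le_of_ne ?_ ?_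
      · intro v hv
        rw [Submodule.mem_comap, Submodule.mkQ_apply, (Submodule.Quotient.mk_eq_zero V).2 hv]
        exact zero_mem _
      · intro h
        apply hne
        rw [eq_bot_iff]
        intro x hx
        obtain ⟨x, rfl⟩ := Submodule.Quotient.mk_surjective V x
        have : x ∈ V := by rw [h]; exact hx
        rw [Submodule.mem_bot]
        exact (Submodule.Quotient.mk_eq_zero V).2 this
    obtain ⟨F, hF, hFt⟩ := hmax _ hW' hlt
    refine ⟨V.mkQ '' F, hF.image _, ?_⟩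
    rw [eq_top_iff]
    intro x _
    obtain ⟨x, rfl⟩ := Submodule.Quotient.mk_surjective V x
    have hx : x ∈ Submodule.span ℤ F ⊔ W.comap V.mkQ := by rw [hFt]; trivial
    obtain ⟨y, hy, z, hz, rfl⟩ := Submodule.mem_sup.1 hx
    refine Submodule.mem_sup.2 ⟨V.mkQ y, ?_, V.mkQ z, hz, rfl⟩
    rw [← Submodule.map_span]
    exact ⟨y, hy, rfl⟩
  have hJN := jn_dichotomy ρ' hM' hJ
  -- the faithful quotient
  let q : G →* G ⧸ ρ'.ker := QuotientGroup.mk' ρ'.ker
  have hq : Function.Surjective q := QuotientGroup.mk'_surjective _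
  let ρQ : (G ⧸ ρ'.ker) →* Module.End ℤ (M ⧸ V) :=
    QuotientGroup.lift ρ'.ker ρ' (fun g hg => hg)
  have hρQ : ∀ g, ρQ (q g) = ρ' g := fun g => rfl
  have hinj : Function.Injective ρQ := by
    intro a b hab
    obtain ⟨a, rfl⟩ := hq a
    obtain ⟨b, rfl⟩ := hq b
    rw [hρQ, hρQ] at hab
    show (QuotientGroup.mk a : G ⧸ ρ'.ker) = QuotientGroup.mk b
    rw [QuotientGroup.eq, MonoidHom.mem_ker, map_mul, ← hab, ← map_mul, inv_mul_cancel, map_one]
  have hJNQ : ∀ r : Module.End ℤ (M ⧸ V), (∀ g, r * ρQ g = ρQ g * r) →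
      r = 0 ∨ Function.Injective r := fun r hr => hJN r (fun g => hr (q g))
  have hSQfin : (q '' S).Finite := hSfin.image _
  have hSQ : closure (q '' S) = ⊤ := by
    rw [← MonoidHom.map_closure, hS, ← MonoidHom.range_eq_map]
    exact MonoidHom.range_eq_top.2 hq
  have hnilQ : gam (G ⧸ ρ'.ker) k = ⊥ := by
    rw [gam_map hq, eq_bot_iff]
    rintro _ ⟨g, hg, rfl⟩
    rw [mem_bot]
    have : g ∈ ρ'.ker := by
      rw [MonoidHom.mem_ker]
      apply LinearMap.ext
      intro x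
      obtain ⟨x, rfl⟩ := Submodule.Quotient.mk_surjective V x
      show V.mkQ (ρ g x) = _
      rw [hnil g hg]; rfl
    exact (QuotientGroup.eq_one_iff g).2 this
  obtain ⟨X, hX⟩ := hInt c hcC
  have hc0 : V.mkQ c ≠ 0 := by
    intro h
    exact hcV ((Submodule.Quotient.mk_eq_zero V).1 h)
  have htr : ∀ t : G, IntM ρ t c → IntM ρQ (q t) (V.mkQ c) := by
    intro t ht
    exact IntM_quot ρ V hV ht
  have hIntQ : ∀ l ≤ 2 ^ (k - 1), ∀ g ∈ (q '' S) ^ l,
      IntM ρQ (g * q X) (V.mkQ c) ∧ IntM ρQ (g * q X)⁻¹ (V.mkQ c) := by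
    intro l hl g hg
    rw [← Set.image_pow] at hg
    obtain ⟨g, hg, rfl⟩ := hg
    rw [← map_mul, ← map_inv]
    exact ⟨htr _ (hX l hl g hg).1, htr _ (hX l hl g hg).2⟩
  have hfin1 : Finite (gam (G ⧸ ρ'.ker) 1) :=
    gam_one_finite ρQ hJNQ hinj hSQfin hSQ hk hnilQ hc0 (fun l hl g hg => (hIntQ l hl g hg).1)
  obtain ⟨F, hF, hcF, hFinv⟩ := fg_inv_sub ρQ (c := V.mkQ c)
    (T := {q X} ∪ (fun w => w * q X) '' (q '' S))
    ((Set.finite_singleton _).union (hSQfin.image _)) (TX_gen hSQ (q X)) (by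
      rintro t (ht | ⟨w, hw, rfl⟩)
      · have : t = q X := ht
        rw [this]
        have := hIntQ 0 (by positivity) 1 (by simp)
        simpa using this
      · exact hIntQ 1 Nat.one_le_two_pow w (by simpa using hw))
  have hne : Submodule.span ℤ F ≠ ⊥ := by
    intro h
    rw [h, Submodule.mem_bot] at hcF
    exact hc0 hcF
  obtain ⟨F', hF', hFt⟩ := hJ (Submodule.span ℤ F) (fun g v hv => hFinv (q g) v hv) hne
  apply hM'
  exact ⟨F' ∪ F, hF'.union hF, by rw [sup_bot_eq, Submodule.span_union]; exact hFt⟩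

end Core

section NC

lemma Pr_image {G H : Type u} [Group G] [Group H] (f : G →* H) (S : Set G) :
    ∀ (j : ℕ) (u v : H), Pr (f '' S) j u v → ∃ u' v', Pr S j u' v' ∧ f u' = u ∧ f v' = v
  | 0, u, v, h => by
    obtain ⟨_, ⟨x, hx, rfl⟩, _, ⟨y, hy, rfl⟩, rfl, rfl⟩ := h
    exact ⟨x * y, y * x, ⟨x, hx, y, hy, rfl, rfl⟩, map_mul f x y, map_mul f y x⟩
  | j + 1, u, v, h => by
    obtain ⟨p, q, hpq, h⟩ := h
    obtain ⟨p', q', hpq', rfl, rfl⟩ := Pr_image f S j p q hpq
    rcases h with ⟨rfl, rfl⟩ | ⟨_, ⟨z, hz, rfl⟩, rfl, rfl⟩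
    · exact ⟨p' * q', q' * p', ⟨p', q', hpq', Or.inl ⟨rfl, rfl⟩⟩, map_mul f _ _, map_mul f _ _⟩
    · exact ⟨p' * z * q', q' * z * p', ⟨p', q', hpq', Or.inr ⟨z, hz, rfl, rfl⟩⟩,
        by rw [map_mul, map_mul], by rw [map_mul, map_mul]⟩

lemma gam_bot_of_Df : ∀ (j : ℕ) (G : Type u) [Group G] (S : Set G), closure S = ⊤ →
    Df S j ⊆ {1} → gam G (j + 1) = ⊥
  | 0, G, _, S, hS, h => by
    rw [eq_bot_iff]
    apply gam_le_of_Cen (n := 0)
    show (⊤ : Subgroup G) ≤ _
    rw [← hS, closure_le]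
    intro x hx
    apply mem_Cen_of_gen hS
    intro y hy
    have h1 : (y * x)⁻¹ * (x * y) = 1 := h ⟨x * y, y * x, ⟨x, hx, y, hy, rfl, rfl⟩, rfl⟩
    have h2 : x * y = y * x := by
      rw [inv_mul_eq_one] at h1; exact h1.symm
    show (x : G ⧸ (⊥ : Subgroup G)) * (y : G ⧸ (⊥ : Subgroup G)) = y * x
    rw [← QuotientGroup.mk_mul, h2, QuotientGroup.mk_mul]
  | j + 1, G, _, S, hS, h => by
    have hcen : ∀ p q : G, Pr S j p q → q⁻¹ * p ∈ center G := by
      intro p q hpq
      apply mem_center_of_commute hS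
      intro z hz
      have h1 : (q * p)⁻¹ * (p * q) = 1 :=
        h ⟨_, _, ⟨p, q, hpq, Or.inl ⟨rfl, rfl⟩⟩, rfl⟩
      have h2 : (q * z * p)⁻¹ * (p * z * q) = 1 :=
        h ⟨_, _, ⟨p, q, hpq, Or.inr ⟨z, hz, rfl, rfl⟩⟩, rfl⟩
      rw [inv_mul_eq_one] at h1 h2
      show q⁻¹ * p * z = z * (q⁻¹ * p)
      have h3 : q⁻¹ * p = p * q⁻¹ := by
        rw [inv_mul_eq_iff_eq_mul, ← mul_assoc, h1]; group
      have h4 : p * z = q * z * p * q⁻¹ := by rw [h2]; group
      calc q⁻¹ * p * z = q⁻¹ * (p * z) := by group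
        _ = q⁻¹ * (q * z * p * q⁻¹) := by rw [h4]
        _ = z * (p * q⁻¹) := by group
        _ = z * (q⁻¹ * p) := by rw [h3]
    have hsurj := QuotientGroup.mk'_surjective (center G)
    have hS' : closure ((QuotientGroup.mk' (center G)) '' S) = ⊤ := by
      rw [← MonoidHom.map_closure, hS, ← MonoidHom.range_eq_map]
      exact MonoidHom.range_eq_top.2 hsurj
    have ih := gam_bot_of_Df j (G ⧸ center G) ((QuotientGroup.mk' (center G)) '' S) hS' (by
      rintro _ ⟨u, v, huv, rfl⟩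
      obtain ⟨u', v', h', rfl, rfl⟩ := Pr_image _ S j u v huv
      have := hcen u' v' h'
      rw [Set.mem_singleton_iff, ← map_inv, ← map_mul]
      exact (QuotientGroup.eq_one_iff _).2 this)
    rw [eq_bot_iff]
    have hle : gam G (j + 1) ≤ center G := by
      intro a ha
      have : QuotientGroup.mk' (center G) a ∈ gam (G ⧸ center G) (j + 1) := by
        rw [gam_map hsurj]; exact mem_map_of_mem _ ha
      rw [ih, mem_bot] at this
      exact (QuotientGroup.eq_one_iff _).1 this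
    show ⁅(⊤ : Subgroup G).lowerCentralSeries (j + 1), (⊤ : Subgroup G)⁆ ≤ ⊥
    rw [commutator_le]
    intro a ha g _
    rw [mem_bot, commutatorElement_eq_one_iff_mul_comm]
    exact (mem_center_iff.1 (hle ha) g).symm

lemma gam_le_normalClosure {G : Type u} [Group G] {S : Set G} (hS : closure S = ⊤) (j : ℕ) :
    gam G (j + 1) ≤ normalClosure (Df S j) := by
  have hsurj := QuotientGroup.mk'_surjective (normalClosure (Df S j))
  have hS' : closure ((QuotientGroup.mk' (normalClosure (Df S j))) '' S) = ⊤ := by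
    rw [← MonoidHom.map_closure, hS, ← MonoidHom.range_eq_map]
    exact MonoidHom.range_eq_top.2 hsurj
  have h := gam_bot_of_Df j _ _ hS' (by
      rintro _ ⟨u, v, huv, rfl⟩
      obtain ⟨u', v', h', rfl, rfl⟩ := Pr_image _ S j u v huv
      rw [Set.mem_singleton_iff, ← map_inv, ← map_mul]
      apply (QuotientGroup.eq_one_iff _).2
      exact subset_normalClosure ⟨u', v', h', rfl⟩)
  intro a ha
  have : QuotientGroup.mk' (normalClosure (Df S j)) a ∈ gam (G ⧸ normalClosure (Df S j)) (j + 1) := by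
    rw [gam_map hsurj]; exact mem_map_of_mem _ ha
  rw [h, mem_bot] at this
  exact (QuotientGroup.eq_one_iff _).1 this

end NC

end Pool.Agent.H785R3.GrowthA
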