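import Pool.Agent.H785R3.GrowthL
import Pool.Agent.H746UG.Conj

/-! Helper file (helper785), part M: the group theoretic form. -/

namespace Pool.Agent.H785R3.GrowthA

open Subgroup
open scoped Pointwise commutatorElement IsMulCommutative

universe u

variable {G : Type u} [Group G]

lemma Df_finite {S : Set G} (hfin : S.Finite) (j : ℕ) : (Df S j).Finite := by
  have : Df S j ⊆ (fun x : G × G => x.2⁻¹ * x.1) '' {x : G × G | Pr S j x.1 x.2} := by
    rintro _ ⟨u, v, h, rfl⟩
    exact ⟨(u, v), h, rfl⟩
  exact ((Pr_finite hfin j).image _).subset this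

section Tr

variable (A : Subgroup G) [A.Normal] [IsMulCommutative A]

lemma mem_span_of_closure {Y : Set (Additive A)} {x : G}
    (hx : x ∈ closure (H746UG.val A '' Y)) :
    ∃ m ∈ Submodule.span ℤ Y, H746UG.val A m = x := by
  induction hx using Subgroup.closure_induction with
  | mem x hx =>
    obtain ⟨m, hm, rfl⟩ := hx
    exact ⟨m, Submodule.subset_span hm, rfl⟩
  | one => exact ⟨0, zero_mem _, H746UG.val_zero⟩
  | mul x y _ _ hx hy =>
    obtain ⟨m, hm, rfl⟩ := hx
    obtain ⟨m', hm', rfl⟩ := hy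
    exact ⟨m + m', add_mem hm hm', H746UG.val_add m m'⟩
  | inv x _ hx =>
    obtain ⟨m, hm, rfl⟩ := hx
    exact ⟨-m, neg_mem hm, H746UG.val_neg m⟩

lemma IntM_of_Int1 {t : G} {m : Additive A} (h : Int1 t (H746UG.val A m)) :
    IntM (H746UG.th A) t m := by
  obtain ⟨n, hn⟩ := h
  refine ⟨n, ?_⟩
  have e : (fun j : ℕ => t ^ j * H746UG.val A m * (t ^ j)⁻¹) '' Set.Iio n =
      H746UG.val A '' ((fun j : ℕ => H746UG.th A (t ^ j) m) '' Set.Iio n) := by
    rw [Set.image_image]
    apply Set.image_congr
    intro j _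
    rw [H746UG.val_th]
  rw [e] at hn
  obtain ⟨m', hm', h⟩ := mem_span_of_closure A hn
  have : m' = H746UG.th A (t ^ n) m := by
    apply H746UG.val_inj
    rw [h, H746UG.val_th]
  rw [← this]; exact hm'

end Tr

/-- `γ_{k+1}` abelian, no short free pairs: `γ_{k+1}` is finitely generated. -/
theorem gam_fg_of_abelian {S : Set G} (hfin : S.Finite) (hS : closure S = ⊤) {k : ℕ} (hk : 1 ≤ k)
    (hab : ∀ a ∈ gam G k, ∀ b ∈ gam G k, a * b = b * a) (hNF : NoFree S (2 ^ (k + 1))) :
    ∃ F : Set G, F.Finite ∧ F ⊆ (gam G k : Set G) ∧ closure F = gam G k := by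
  classical
  set A := gam G k with hA
  have hcommA : IsMulCommutative A := ⟨⟨fun a b => Subtype.ext (hab a a.2 b b.2)⟩⟩
  obtain ⟨j, rfl⟩ : ∃ j, k = j + 1 := ⟨k - 1, by omega⟩
  let C : Set (Additive A) := {m | H746UG.val A m ∈ Df S j}
  have hC : C.Finite := by
    apply Set.Finite.of_injOn (f := H746UG.val A) (t := Df S j)
    · intro m hm; exact hm
    · intro a _ b _ hab; exact H746UG.val_inj hab
    · exact Df_finite hfin j
  have hDA : Df S j ⊆ (A : Set G) := Df_subset j
  have hcore := core (H746UG.th A) hfin hS hk (fun g hg => H746UG.th_of_mem hg) hC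
    (by
      intro V hV hCV
      rw [eq_top_iff]
      intro m _
      -- the subgroup of values
      let B : Subgroup G :=
        { carrier := H746UG.val A '' (V : Set (Additive A))
          mul_mem' := by
            rintro _ _ ⟨a, ha, rfl⟩ ⟨b, hb, rfl⟩
            exact ⟨a + b, add_mem ha hb, H746UG.val_add a b⟩
          one_mem' := ⟨0, zero_mem _, H746UG.val_zero⟩
          inv_mem' := by
            rintro _ ⟨a, ha, rfl⟩
            exact ⟨-a, neg_mem ha, H746UG.val_neg a⟩ }
      have hBn : B.Normal := by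
        constructor
        rintro _ ⟨a, ha, rfl⟩ g
        exact ⟨H746UG.th A g a, hV g a ha, H746UG.val_th g a⟩
      have hDB : Df S j ⊆ (B : Set G) := by
        intro d hd
        exact ⟨H746UG.el A d (hDA hd), hCV hd, H746UG.val_el d (hDA hd)⟩
      have hle : A ≤ B := (gam_le_normalClosure hS j).trans (normalClosure_le_normal hDB)
      obtain ⟨a, ha, hav⟩ := hle (H746UG.val_mem m)
      rw [← H746UG.val_inj hav]; exact ha)
    (by
      intro c hc
      obtain ⟨u, v, huv, hcv⟩ := hc
      refine ⟨v, ?_⟩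
      intro l hl g hg
      obtain ⟨l', hl', hu, hv⟩ := Pr_len huv
      have hlen : l + l' ≤ 2 ^ (j + 1 + 1) := by
        have h1 : 2 ^ (j + 1 + 1) = 4 * 2 ^ j := by rw [pow_succ, pow_succ]; ring
        have h2 : j + 1 - 1 = j := by omega
        rw [h2] at hl
        omega
      have hnf := hNF (l + l') hlen (g * v) (mul_mem_pow hg hv rfl) (g * u) (mul_mem_pow hg hu rfl)
      have e : g * v * H746UG.val A c = g * u := by rw [hcv]; group
      rw [← e] at hnf
      have := int_of_not_free hnf
      exact ⟨IntM_of_Int1 A this.1, IntM_of_Int1 A this.2⟩)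
  obtain ⟨F, hF, hFt⟩ := hcore
  rw [sup_bot_eq] at hFt
  refine ⟨H746UG.val A '' F, hF.image _, ?_, ?_⟩
  · rintro _ ⟨m, -, rfl⟩; exact H746UG.val_mem m
  · apply le_antisymm
    · rw [closure_le]
      rintro _ ⟨m, -, rfl⟩; exact H746UG.val_mem m
    · intro a ha
      have hm : H746UG.el A a ha ∈ Submodule.span ℤ F := by rw [hFt]; trivial
      have key : ∀ m ∈ Submodule.span ℤ F, H746UG.val A m ∈ closure (H746UG.val A '' F) := by
        intro m hm
        rw [← Submodule.mem_toAddSubgroup, ] at hm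
        have hm2 : m ∈ AddSubgroup.closure F := by
          rw [← Submodule.span_int_eq_addSubgroupClosure]; exact hm
        induction hm2 using AddSubgroup.closure_induction with
        | mem x hx => exact Subgroup.subset_closure ⟨x, hx, rfl⟩
        | zero => rw [H746UG.val_zero]; exact one_mem _
        | add x y hx hy h1 h2 =>
          rw [H746UG.val_add]
          refine mul_mem (h1 ?_) (h2 ?_)
          · rw [← Submodule.span_int_eq_addSubgroupClosure] at hx; exact hx
          · rw [← Submodule.span_int_eq_addSubgroupClosure] at hy; exact hy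
        | neg x hx h1 =>
          rw [H746UG.val_neg]
          refine inv_mem (h1 ?_)
          rw [← Submodule.span_int_eq_addSubgroupClosure] at hx; exact hx
      exact key _ hm

/-- General form: no short free pairs implies that `γ_{k+1}/γ_{k+1}'` is finitely generated. -/
theorem gam_fg_mod {S : Set G} (hfin : S.Finite) (hS : closure S = ⊤) {k : ℕ} (hk : 1 ≤ k)
    (hNF : NoFree S (2 ^ (k + 1))) :
    ∃ F : Set G, F.Finite ∧ F ⊆ (gam G k : Set G) ∧
      gam G k = closure F ⊔ ⁅gam G k, gam G k⁆ := by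
  classical
  set D := ⁅gam G k, gam G k⁆ with hD
  have hDle : D ≤ gam G k := by
    rw [hD]; exact commutator_le_left _ _
  have hsurj := QuotientGroup.mk'_surjective D
  have hS' : closure ((QuotientGroup.mk' D) '' S) = ⊤ := by
    rw [← MonoidHom.map_closure, hS, ← MonoidHom.range_eq_map]
    exact MonoidHom.range_eq_top.2 hsurj
  have hg : gam (G ⧸ D) k = (gam G k).map (QuotientGroup.mk' D) := gam_map hsurj k
  have hab : ∀ a ∈ gam (G ⧸ D) k, ∀ b ∈ gam (G ⧸ D) k, a * b = b * a := by
    rw [hg]
    rintro _ ⟨a, ha, rfl⟩ _ ⟨b, hb, rfl⟩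
    have : ⁅a, b⁆ ∈ D := commutator_mem_commutator ha hb
    rw [← QuotientGroup.eq_one_iff, commutatorElement_def] at this
    simp only [QuotientGroup.mk_mul, QuotientGroup.mk_inv] at this
    rw [mul_inv_eq_one, mul_inv_eq_iff_eq_mul] at this
    exact this
  obtain ⟨F', hF', hF'1, hF'2⟩ := gam_fg_of_abelian (hfin.image _) hS' hk hab (hNF.map _ le_rfl)
  have hlift : ∀ x : F', ∃ y ∈ gam G k, QuotientGroup.mk' D y = x := by
    rintro ⟨x, hx⟩
    have : x ∈ gam (G ⧸ D) k := hF'1 hx
    rw [hg] at this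
    obtain ⟨y, hy, hyx⟩ := this
    exact ⟨y, hy, hyx⟩
  choose f hf1 hf2 using hlift
  have : Finite F' := hF'
  refine ⟨Set.range f, Set.finite_range f, ?_, ?_⟩
  · rintro _ ⟨x, rfl⟩; exact hf1 x
  · apply le_antisymm
    · intro a ha
      have h1 : (QuotientGroup.mk' D) a ∈ closure F' := by
        rw [hF'2, hg]; exact mem_map_of_mem _ ha
      have h2 : closure F' = (closure (Set.range f)).map (QuotientGroup.mk' D) := by
        rw [MonoidHom.map_closure]
        congr 1
        ext x
        constructor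
        · intro hx; exact ⟨f ⟨x, hx⟩, ⟨_, rfl⟩, hf2 ⟨x, hx⟩⟩
        · rintro ⟨_, ⟨t, rfl⟩, rfl⟩
          rw [hf2 t]; exact t.2
      rw [h2] at h1
      obtain ⟨b, hb, hba⟩ := h1
      have h3 : b⁻¹ * a ∈ D := by
        rw [← QuotientGroup.eq]; exact hba
      have h4 : a = b * (b⁻¹ * a) := by group
      rw [h4]
      exact mul_mem ((le_sup_left : closure (Set.range f) ≤ _) hb)
        ((le_sup_right : D ≤ closure (Set.range f) ⊔ D) h3)
    · refine sup_le ?_ hDle
      rw [closure_le]
      rintro _ ⟨x, rfl⟩; exact hf1 x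

end Pool.Agent.H785R3.GrowthA
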