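import Pool.Agent.H785R3.GrowthM

/-! Helper file (helper785), part N: virtually unipotent actions. -/

namespace Pool.Agent.H785R3.GrowthA

open Subgroup
open scoped Pointwise commutatorElement

universe u

section U

variable {G : Type u} {M M' : Type*} [Group G] [AddCommGroup M] [AddCommGroup M']
variable (ρ : G →* Module.End ℤ M) (ρ' : G →* Module.End ℤ M')

/-- iterated augmentation -/
def aug (H : Subgroup G) : ℕ → Submodule ℤ M → Submodule ℤ M
  | 0, V => V
  | n + 1, V => Submodule.span ℤ {x | ∃ h ∈ H, ∃ v ∈ aug H n V, x = ρ h v - v}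

lemma aug_mono {H H' : Subgroup G} (hH : H ≤ H') {V V' : Submodule ℤ M} (hV : V ≤ V') :
    ∀ n : ℕ, aug ρ H n V ≤ aug ρ H' n V'
  | 0 => hV
  | n + 1 => by
    apply Submodule.span_mono
    rintro _ ⟨h, hh, v, hv, rfl⟩
    exact ⟨h, hH hh, v, aug_mono hH hV n hv, rfl⟩

lemma aug_add (H : Subgroup G) (V : Submodule ℤ M) (n : ℕ) :
    ∀ m : ℕ, aug ρ H (m + n) V = aug ρ H m (aug ρ H n V)
  | 0 => by rw [Nat.zero_add]; rfl
  | m + 1 => by
    have e : m + 1 + n = (m + n) + 1 := by omega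
    rw [e]
    show Submodule.span ℤ {x | ∃ h ∈ H, ∃ v ∈ aug ρ H (m + n) V, x = ρ h v - v} =
      Submodule.span ℤ {x | ∃ h ∈ H, ∃ v ∈ aug ρ H m (aug ρ H n V), x = ρ h v - v}
    rw [aug_add H V n m]

lemma aug_map (f : M →ₗ[ℤ] M') (hf : ∀ g m, f (ρ g m) = ρ' g (f m)) (H : Subgroup G)
    (U : Submodule ℤ M) : ∀ n : ℕ, (aug ρ H n U).map f = aug ρ' H n (U.map f)
  | 0 => rfl
  | n + 1 => by
    have ih := aug_map f hf H U n
    show (Submodule.span ℤ {x | ∃ h ∈ H, ∃ v ∈ aug ρ H n U, x = ρ h v - v}).map f =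
      Submodule.span ℤ {x | ∃ h ∈ H, ∃ v ∈ aug ρ' H n (U.map f), x = ρ' h v - v}
    rw [Submodule.map_span]
    congr 1
    ext x
    constructor
    · rintro ⟨_, ⟨h, hh, v, hv, rfl⟩, rfl⟩
      refine ⟨h, hh, f v, ?_, by rw [map_sub, hf]⟩
      rw [← ih]; exact ⟨v, hv, rfl⟩
    · rintro ⟨h, hh, v, hv, rfl⟩
      rw [← ih] at hv
      obtain ⟨v, hv, rfl⟩ := hv
      exact ⟨_, ⟨h, hh, v, hv, rfl⟩, by rw [map_sub, hf]⟩

/-- virtually unipotent modulo `V` -/
def UU (V : Submodule ℤ M) : Prop := ∃ H : Subgroup G, H.FiniteIndex ∧ ∃ n, aug ρ H n ⊤ ≤ V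

lemma jnU (hM : ¬ UU ρ ⊥) (hJ : ∀ W : Submodule ℤ M, InvS ρ W → W ≠ ⊥ → UU ρ W)
    (r : Module.End ℤ M) (hr : ∀ g : G, r * ρ g = ρ g * r) : r = 0 ∨ Function.Injective r := by
  by_contra hcon
  push Not at hcon
  obtain ⟨h0, hinj⟩ := hcon
  have hr' : ∀ (g : G) (m : M), r (ρ g m) = ρ g (r m) := fun g m =>
    congrArg (fun f : Module.End ℤ M => f m) (hr g)
  obtain ⟨H2, hH2, n2, h2⟩ := hJ (LinearMap.ker r)
    (by
      intro g v hv
      rw [LinearMap.mem_ker] at hv ⊢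
      rw [hr', hv, map_zero])
    (by intro h; exact hinj (LinearMap.ker_eq_bot.1 h))
  obtain ⟨H1, hH1, n1, h1⟩ := hJ (LinearMap.range r)
    (by
      rintro g _ ⟨v, rfl⟩
      exact ⟨ρ g v, hr' g v⟩)
    (by intro h; exact h0 (LinearMap.range_eq_bot.1 h))
  apply hM
  refine ⟨H1 ⊓ H2, inferInstance, n2 + n1, ?_⟩
  rw [aug_add]
  have s1 : aug ρ (H1 ⊓ H2) n1 ⊤ ≤ (⊤ : Submodule ℤ M).map r := by
    rw [Submodule.map_top]
    exact (aug_mono ρ inf_le_left le_rfl n1).trans h1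
  refine (aug_mono ρ inf_le_right s1 n2).trans ?_
  rw [← aug_map ρ ρ r hr']
  rintro _ ⟨v, hv, rfl⟩
  have := h2 hv
  rw [LinearMap.mem_ker] at this
  rw [this]; exact zero_mem _

/-- quasi-unipotence of `t` at `c` -/
def QU (t : G) (c : M) : Prop :=
  ∃ n m e : ℕ, 0 < n ∧ 0 < e ∧ (e : ℤ) • ((ρ t ^ n - 1) ^ m) c = 0

lemma QU_map {f : M →ₗ[ℤ] M'} (hf : ∀ g m, f (ρ g m) = ρ' g (f m)) {t : G} {c : M}
    (h : QU ρ t c) : QU ρ' t (f c) := by
  obtain ⟨n, m, e, hn, he, h⟩ := h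
  refine ⟨n, m, e, hn, he, ?_⟩
  have h1 : ∀ (i : ℕ) (x : M), f ((ρ t ^ i) x) = (ρ' t ^ i) (f x) := by
    intro i
    induction i with
    | zero => intro x; simp
    | succ i ih => intro x; rw [pow_succ, pow_succ, Module.End.mul_apply, Module.End.mul_apply, ih, hf]
  have h2 : ∀ (j : ℕ) (x : M), f (((ρ t ^ n - 1) ^ j) x) = ((ρ' t ^ n - 1) ^ j) (f x) := by
    intro j
    induction j with
    | zero => intro x; simp
    | succ j ih =>
      intro x
      rw [pow_succ, pow_succ, Module.End.mul_apply, Module.End.mul_apply, ih,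
        LinearMap.sub_apply, map_sub, h1, LinearMap.sub_apply]
      rfl
  rw [← h2, ← map_zsmul, h, map_zero]

lemma IntM_of_noeth [IsNoetherian ℤ M] (t : G) (c : M) : IntM ρ t c := by
  let f : ℕ →o Submodule ℤ M :=
    ⟨fun m => Submodule.span ℤ ((fun j : ℕ => ρ (t ^ j) c) '' Set.Iio m), by
      intro a b hab
      apply Submodule.span_mono
      apply Set.image_mono
      intro x hx
      exact lt_of_lt_of_le hx hab⟩
  obtain ⟨m, hm⟩ := (monotone_stabilizes_iff_noetherian.2 ‹_›) f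
  refine ⟨m, ?_⟩
  have h2 : ρ (t ^ m) c ∈ f (m + 1) := Submodule.subset_span ⟨m, Nat.lt_succ_self m, rfl⟩
  rw [← hm (m + 1) (Nat.le_succ m)] at h2
  exact h2

end U

section P

variable {Q : Type*} [Group Q]

lemma pow_central {Φ : Subgroup Q} [Φ.Normal] [Finite Φ] (hΦ : ∀ a b : Q, ⁅a, b⁆ ∈ Φ) (e : Q) :
    ∃ N : ℕ, 0 < N ∧ e ^ N ∈ center Q := by
  obtain ⟨n1, hn1, hcomm⟩ := finite_normal_power (Φ := Φ)
  have hF : 0 < Nat.card Φ := Nat.card_pos
  set F := Nat.card Φ with hFdef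
  have hpowF : ∀ φ ∈ Φ, φ ^ F = 1 := by
    intro φ hφ
    have h0 : (⟨φ, hφ⟩ : Φ) ^ Nat.card Φ = 1 := pow_card_eq_one'
    have h1 : (((⟨φ, hφ⟩ : Φ) ^ Nat.card Φ : Φ) : Q) = 1 := by rw [h0]; rfl
    rw [Subgroup.coe_pow] at h1
    exact h1
  have hec : ∀ g : Q, Commute (e : Q ⧸ Φ) (g : Q ⧸ Φ) := by
    intro g
    have := (QuotientGroup.eq_one_iff _).2 (hΦ e g)
    rw [commutatorElement_def] at this
    simp only [QuotientGroup.mk_mul, QuotientGroup.mk_inv] at this
    rw [mul_inv_eq_one, mul_inv_eq_iff_eq_mul] at this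
    exact this
  refine ⟨n1 * F, by positivity, ?_⟩
  rw [mem_center_iff]
  intro g
  have h1 : g * e ^ n1 * g⁻¹ * (e ^ n1)⁻¹ ∈ Φ := by
    rw [← QuotientGroup.eq_one_iff]
    simp only [QuotientGroup.mk_mul, QuotientGroup.mk_inv, QuotientGroup.mk_pow]
    have := ((hec g).pow_left n1).eq
    rw [← this]; group
  set φ := g * e ^ n1 * g⁻¹ * (e ^ n1)⁻¹ with hφ
  have h2 : g * e ^ n1 * g⁻¹ = φ * e ^ n1 := by rw [hφ]; group
  have h3 : g * e ^ (n1 * F) * g⁻¹ = (g * e ^ n1 * g⁻¹) ^ F := by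
    rw [conj_pow, ← pow_mul]
  have h4 : (φ * e ^ n1) ^ F = e ^ (n1 * F) := by
    rw [(hcomm e φ h1).symm.mul_pow, hpowF φ h1, one_mul, ← pow_mul]
  rw [h2, h4] at h3
  rw [mul_inv_eq_iff_eq_mul] at h3
  exact h3

end P

section V

variable {Q : Type u} {M : Type*} [Group Q] [AddCommGroup M] (ρ : Q →* Module.End ℤ M)

/-- with finite derived subgroup and the dichotomy, quasi-unipotent elements have finite order -/
lemma finOrder [Module.Finite ℤ M] [Finite (gam Q 1)] (hinj : Function.Injective ρ)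
    (hJN : ∀ r : Module.End ℤ M, (∀ g : Q, r * ρ g = ρ g * r) → r = 0 ∨ Function.Injective r)
    {t : Q} {c : M} (hc : c ≠ 0) (h : QU ρ t c) : ∃ n : ℕ, 0 < n ∧ t ^ n = 1 := by
  obtain ⟨N, hN, hcen⟩ := pow_central (Φ := gam Q 1)
    (fun a b => gam_comm (n := 0) (mem_top a) b) t
  obtain ⟨n, m, e, hn, he, h⟩ := h
  -- the central element
  have hc1 : ∀ g : Q, ρ (t ^ (n * N)) * ρ g = ρ g * ρ (t ^ (n * N)) := by
    intro g
    rw [← map_mul, ← map_mul]
    have : t ^ (n * N) ∈ center Q := by rw [mul_comm, pow_mul]; exact pow_mem hcen n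
    rw [mem_center_iff.1 this g]
  set r : Module.End ℤ M := ρ (t ^ (n * N)) - 1 with hr
  have hrc : ∀ g : Q, r * ρ g = ρ g * r := by
    intro g
    rw [hr, sub_mul, mul_sub, hc1, one_mul, mul_one]
  have hrpow : ∀ (j : ℕ) (g : Q), r ^ j * ρ g = ρ g * r ^ j := by
    intro j
    induction j with
    | zero => intro g; simp
    | succ j ih => intro g; rw [pow_succ, mul_assoc, hrc, ← mul_assoc, ih, mul_assoc]
  have hfac : ∃ s : Module.End ℤ M, Commute s (ρ t ^ n - 1) ∧ r = s * (ρ t ^ n - 1) := by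
    refine ⟨∑ i ∈ Finset.range N, (ρ t ^ n) ^ i, ?_, ?_⟩
    · apply Commute.sub_right
      · apply Commute.sum_left
        intro i _
        exact (Commute.refl (ρ t ^ n)).pow_left i
      · exact Commute.one_right _
    · rw [hr, map_pow, pow_mul, geom_sum_mul]
  obtain ⟨s, hs, hrs⟩ := hfac
  have hkill : (e : ℤ) • (r ^ m) c = 0 := by
    rw [hrs, hs.mul_pow, Module.End.mul_apply, ← map_zsmul, h, map_zero]
  have hE : ((e : ℤ) • r ^ m) = 0 := by
    rcases hJN ((e : ℤ) • r ^ m) (fun g => by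
      rw [smul_mul_assoc, hrpow, mul_smul_comm]) with h0 | h0
    · exact h0
    · exfalso
      apply hc
      apply h0
      rw [LinearMap.smul_apply, hkill, map_zero]
  rcases hJN ((e : ℤ) • (1 : Module.End ℤ M)) (fun g => by
      rw [smul_mul_assoc, mul_smul_comm, one_mul, mul_one]) with h0 | h0
  · -- `M` is finite
    have htor : Module.IsTorsion ℤ M := by
      intro x
      refine ⟨⟨(e : ℤ), mem_nonZeroDivisors_of_ne_zero (by exact_mod_cast he.ne')⟩, ?_⟩
      have := congrArg (fun f : Module.End ℤ M => f x) h0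
      exact this
    have hMf : Finite M := Module.finite_of_fg_torsion M htor
    have hEf : Finite (Module.End ℤ M) :=
      Finite.of_injective (fun f : Module.End ℤ M => (f : M → M)) DFunLike.coe_injective
    have hQf : Finite Q := Finite.of_injective ρ hinj
    exact ⟨Nat.card Q, Nat.card_pos, pow_card_eq_one'⟩
  · have hrm : r ^ m = 0 := by
      apply LinearMap.ext
      intro x
      apply h0
      have := congrArg (fun f : Module.End ℤ M => f x) hE
      show (e : ℤ) • (r ^ m) x = (e : ℤ) • (0 : M)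
      rw [smul_zero]
      exact this
    have hr0 : r = 0 := by
      rcases hJN r hrc with h1 | h1
      · exact h1
      · exfalso
        apply hc
        have h2 : Function.Injective (r ^ m) := by
          rw [Module.End.coe_pow]
          exact h1.iterate m
        apply h2
        rw [hrm]; rfl
    refine ⟨n * N, by positivity, hinj ?_⟩
    rw [map_one]
    rw [hr, sub_eq_zero] at hr0
    exact hr0

end V

end Pool.Agent.H785R3.GrowthA
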