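import Pool.Agent.H785R3.GrowthN

/-! Helper file (helper785), part O: the core theorem for quasi-unipotent actions. -/

namespace Pool.Agent.H785R3.GrowthA

open Subgroup
open scoped Pointwise commutatorElement

universe u

section Core

variable {G : Type u} {M : Type*} [Group G] [AddCommGroup M] (ρ : G →* Module.End ℤ M)

theorem coreU [Module.Finite ℤ M] {S : Set G} (hSfin : S.Finite) (hS : closure S = ⊤) {k : ℕ}
    (hk : 1 ≤ k) (hnil : ∀ g ∈ gam G k, ρ g = 1) {C : Set M}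
    (hCgen : ∀ V : Submodule ℤ M, InvS ρ V → C ⊆ V → V = ⊤)
    (hQU : ∀ c ∈ C, ∃ X : G, QU ρ X c ∧ ∀ w ∈ S, QU ρ (w * X) c) : UU ρ (⊥ : Submodule ℤ M) := by
  by_contra hM
  have hnoeth : IsNoetherian ℤ M := inferInstance
  obtain ⟨V, ⟨hV, hVn⟩, hmax⟩ := (wellFounded_gt (α := Submodule ℤ M)).has_min
    {V : Submodule ℤ M | InvS ρ V ∧ ¬ UU ρ V} ⟨⊥, by
      intro g v hv
      rw [Submodule.mem_bot] at hv
      rw [hv, map_zero]; exact zero_mem _, hM⟩
  set ρ' := quotAct ρ V hV with hρ'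
  have hmk : ∀ (g : G) (m : M), V.mkQ (ρ g m) = ρ' g (V.mkQ m) := fun g m => rfl
  have hmaptop : (⊤ : Submodule ℤ M).map V.mkQ = ⊤ := by
    rw [Submodule.map_top, Submodule.range_mkQ]
  obtain ⟨c, hcC, hcV⟩ : ∃ c ∈ C, c ∉ V := by
    by_contra hcon
    push Not at hcon
    apply hVn
    refine ⟨⊤, inferInstance, 0, ?_⟩
    rw [hCgen V hV hcon]; exact le_top
  have hM' : ¬ UU ρ' (⊥ : Submodule ℤ (M ⧸ V)) := by
    rintro ⟨H, hH, n, hn⟩
    apply hVn
    refine ⟨H, hH, n, ?_⟩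
    intro x hx
    have h1 : V.mkQ x ∈ (aug ρ H n ⊤).map V.mkQ := ⟨x, hx, rfl⟩
    rw [aug_map ρ ρ' V.mkQ hmk, hmaptop] at h1
    have h2 := hn h1
    rw [Submodule.mem_bot] at h2
    exact (Submodule.Quotient.mk_eq_zero V).1 h2
  have hJ : ∀ W : Submodule ℤ (M ⧸ V), InvS ρ' W → W ≠ ⊥ → UU ρ' W := by
    intro W hW hne
    have hW' : InvS ρ (W.comap V.mkQ) := by
      intro g v hv
      rw [Submodule.mem_comap] at hv ⊢
      exact hW g _ hv
    have hlt : V < W.comap V.mkQ := by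
      refine lt_of_le_of_ne ?_ ?_
      · intro v hv
        rw [Submodule.mem_comap, Submodule.mkQ_apply, (Submodule.Quotient.mk_eq_zero V).2 hv]
        exact zero_mem _
      · intro h
        apply hne
        rw [eq_bot_iff]
        intro x hx
        obtain ⟨x, rfl⟩ := Submodule.Quotient.mk_surjective V x
        have : x ∈ V := by rw [h]; exact hx
        rw [Submodule.mem_bot]
        exact (Submodule.Quotient.mk_eq_zero V).2 this
    have hUU : UU ρ (W.comap V.mkQ) := by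
      by_contra hcon
      exact hmax _ ⟨hW', hcon⟩ hlt
    obtain ⟨H, hH, n, hn⟩ := hUU
    refine ⟨H, hH, n, ?_⟩
    rw [← hmaptop, ← aug_map ρ ρ' V.mkQ hmk]
    rintro _ ⟨x, hx, rfl⟩
    exact hn hx
  have hJN := jnU ρ' hM' hJ
  -- the faithful quotient
  let q : G →* G ⧸ ρ'.ker := QuotientGroup.mk' ρ'.ker
  have hq : Function.Surjective q := QuotientGroup.mk'_surjective _
  let ρQ : (G ⧸ ρ'.ker) →* Module.End ℤ (M ⧸ V) :=
    QuotientGroup.lift ρ'.ker ρ' (fun g hg => hg)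
  have hρQ : ∀ g, ρQ (q g) = ρ' g := fun g => rfl
  have hinj : Function.Injective ρQ := by
    intro a b hab
    obtain ⟨a, rfl⟩ := hq a
    obtain ⟨b, rfl⟩ := hq b
    rw [hρQ, hρQ] at hab
    show (QuotientGroup.mk a : G ⧸ ρ'.ker) = QuotientGroup.mk b
    rw [QuotientGroup.eq, MonoidHom.mem_ker, map_mul, ← hab, ← map_mul, inv_mul_cancel, map_one]
  have hJNQ : ∀ r : Module.End ℤ (M ⧸ V), (∀ g, r * ρQ g = ρQ g * r) →
      r = 0 ∨ Function.Injective r := fun r hr => hJN r (fun g => hr (q g))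
  have hSQfin : (q '' S).Finite := hSfin.image _
  have hSQ : closure (q '' S) = ⊤ := by
    rw [← MonoidHom.map_closure, hS, ← MonoidHom.range_eq_map]
    exact MonoidHom.range_eq_top.2 hq
  have hnilQ : gam (G ⧸ ρ'.ker) k = ⊥ := by
    rw [gam_map hq, eq_bot_iff]
    rintro _ ⟨g, hg, rfl⟩
    rw [mem_bot]
    have : g ∈ ρ'.ker := by
      rw [MonoidHom.mem_ker]
      apply LinearMap.ext
      intro x
      obtain ⟨x, rfl⟩ := Submodule.Quotient.mk_surjective V x
      show V.mkQ (ρ g x) = _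
      rw [hnil g hg]; rfl
    exact (QuotientGroup.eq_one_iff g).2 this
  obtain ⟨X, hX, hwX⟩ := hQU c hcC
  have hc0 : V.mkQ c ≠ 0 := by
    intro h
    exact hcV ((Submodule.Quotient.mk_eq_zero V).1 h)
  have htr : ∀ t : G, QU ρ t c → QU ρQ (q t) (V.mkQ c) := by
    intro t ht
    obtain ⟨n, m, e, hn, he, h⟩ := QU_map ρ ρ' hmk ht
    exact ⟨n, m, e, hn, he, h⟩
  have hfin1 : Finite (gam (G ⧸ ρ'.ker) 1) :=
    gam_one_finite ρQ hJNQ hinj hSQfin hSQ hk hnilQ (X := q X) hc0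
      (fun l hl g hg => IntM_of_noeth ρQ _ _)
  -- all the generators have finite order
  set T : Set (G ⧸ ρ'.ker) := {q X} ∪ (fun w => w * q X) '' (q '' S) with hT
  have hTgen : closure T = ⊤ := TX_gen hSQ (q X)
  have hTord : ∀ d ∈ T, ∃ m : ℕ, 0 < m ∧ d ^ m = 1 := by
    rintro d (hd | ⟨_, ⟨w, hw, rfl⟩, rfl⟩)
    · have : d = q X := hd
      rw [this]
      exact finOrder ρQ hinj hJNQ hc0 (htr X hX)
    · have := finOrder ρQ hinj hJNQ hc0 (htr (w * X) (hwX w hw))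
      rw [map_mul] at this
      exact this
  have hTfin : T.Finite := (Set.finite_singleton _).union (hSQfin.image _)
  have hQ0 : Finite (gam (G ⧸ ρ'.ker) 0) := by
    refine gam_finite_step hfin1 hTfin (fun x _ => mem_top x) ?_ hTord
    rw [hTgen]; exact le_sup_of_le_left le_top
  have hQfin : Finite (G ⧸ ρ'.ker) := by
    have h1 : Function.Injective
        (fun x : G ⧸ ρ'.ker => (⟨x, mem_top x⟩ : gam (G ⧸ ρ'.ker) 0)) :=
      fun a b h => congrArg Subtype.val h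
    exact Finite.of_injective _ h1
  apply hM'
  refine ⟨ρ'.ker, Subgroup.finiteIndex_of_finite_quotient, 1, ?_⟩
  show Submodule.span ℤ {x | ∃ h ∈ ρ'.ker, ∃ v ∈ (⊤ : Submodule ℤ (M ⧸ V)), x = ρ' h v - v} ≤ ⊥
  rw [Submodule.span_le]
  rintro _ ⟨h, hh, v, -, rfl⟩
  rw [MonoidHom.mem_ker] at hh
  rw [hh]
  simp

end Core

end Pool.Agent.H785R3.GrowthA
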