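import Mathlib

/-! Helper file (helper785), part P: eigenvalues that are not roots of unity. -/

namespace Pool.Agent.H785R3.GrowthP

open Polynomial TensorProduct

lemma prod_dvd {K : Type*} [Field K] (q : K[X]) (s : Multiset K) (h : ∀ x ∈ s, (X - C x) ∣ q) :
    (s.map (fun x => X - C x)).prod ∣ q ^ (Multiset.card s) := by
  induction s using Multiset.induction_on with
  | empty => simp
  | cons a s ih =>
    rw [Multiset.map_cons, Multiset.prod_cons, Multiset.card_cons, pow_succ']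
    exact mul_dvd_mul (h a (Multiset.mem_cons_self _ _))
      (ih (fun x hx => h x (Multiset.mem_cons_of_mem hx)))

lemma common_exp (s : Finset ℂ) (h : ∀ x ∈ s, ∃ n > 0, x ^ n = 1) :
    ∃ n > 0, ∀ x ∈ s, x ^ n = 1 := by
  induction s using Finset.induction_on with
  | empty => exact ⟨1, one_pos, by simp⟩
  | @insert a s _ ih =>
    obtain ⟨n, hn, h1⟩ := ih (fun x hx => h x (Finset.mem_insert_of_mem hx))
    obtain ⟨m, hm, h2⟩ := h a (Finset.mem_insert_self _ _)
    refine ⟨m * n, Nat.mul_pos hm hn, ?_⟩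
    intro x hx
    rcases Finset.mem_insert.1 hx with rfl | hx
    · rw [pow_mul, h2, one_pow]
    · rw [mul_comm, pow_mul, h1 x hx, one_pow]

variable {M : Type*} [AddCommGroup M]

lemma bc_pow (g : Module.End ℤ M) (n : ℕ) (d : M) :
    ((g.baseChange ℚ) ^ n) ((1 : ℚ) ⊗ₜ[ℤ] d) = (1 : ℚ) ⊗ₜ[ℤ] ((g ^ n) d) := by
  induction n with
  | zero => simp
  | succ n ih =>
    rw [pow_succ', pow_succ', Module.End.mul_apply, Module.End.mul_apply, ih,
      LinearMap.baseChange_tmul]

lemma bc_aeval (g : Module.End ℤ M) (p : ℤ[X]) (d : M) :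
    (aeval (g.baseChange ℚ : Module.End ℚ (ℚ ⊗[ℤ] M)) (p.map (algebraMap ℤ ℚ)))
      ((1 : ℚ) ⊗ₜ[ℤ] d) = (1 : ℚ) ⊗ₜ[ℤ] ((aeval g p) d) := by
  induction p using Polynomial.induction_on' with
  | add p q hp hq =>
    rw [Polynomial.map_add, map_add, map_add, LinearMap.add_apply, LinearMap.add_apply, hp, hq,
      TensorProduct.tmul_add]
  | monomial n a =>
    rw [Polynomial.map_monomial, aeval_monomial, aeval_monomial, Module.End.mul_apply,
      Module.End.mul_apply, bc_pow]
    rw [Module.algebraMap_end_apply, Module.algebraMap_end_apply]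
    rw [TensorProduct.tmul_smul, algebraMap_smul]

/-- either `g` is quasi-unipotent at `d`, or it has an eigenvalue there that is not a root of
unity -/
theorem exists_root [Module.Finite ℤ M] (g : Module.End ℤ M) (hg : Function.Injective g) (d : M) :
    (∃ n m e : ℕ, 0 < n ∧ 0 < e ∧ (e : ℤ) • ((g ^ n - 1) ^ m) d = 0) ∨
    ∃ x : ℂ, x ≠ 0 ∧ (∀ n > 0, x ^ n ≠ 1) ∧ ∀ p : ℤ[X], (aeval g p) d = 0 → aeval x p = 0 := by
  classical
  set A : Module.End ℚ (ℚ ⊗[ℤ] M) := g.baseChange ℚ with hA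
  set d' : ℚ ⊗[ℤ] M := (1 : ℚ) ⊗ₜ[ℤ] d with hd'
  have hAinj : Function.Injective A := Module.Flat.lTensor_preserves_injective_linearMap g hg
  let I : Ideal ℚ[X] :=
    { carrier := {p | (aeval A p) d' = 0}
      add_mem' := by
        intro p q hp hq
        simp only [Set.mem_ofPred_eq] at hp hq ⊢
        rw [map_add, LinearMap.add_apply, hp, hq, add_zero]
      zero_mem' := by simp
      smul_mem' := by
        intro c p hp
        simp only [Set.mem_ofPred_eq] at hp ⊢
        rw [smul_eq_mul, map_mul, Module.End.mul_apply, hp, map_zero] }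
  have hmemI : ∀ p : ℚ[X], p ∈ I ↔ (aeval A p) d' = 0 := fun p => Iff.rfl
  set p0 := Submodule.IsPrincipal.generator I with hp0
  have hgen : ∀ p : ℚ[X], p ∈ I ↔ p0 ∣ p := fun p => Submodule.IsPrincipal.mem_iff_generator_dvd I
  have hp0I : p0 ∈ I := (hgen p0).2 dvd_rfl
  have hp0ne : p0 ≠ 0 := by
    intro h
    have h1 : A.charpoly ∈ I := by
      rw [hmemI, LinearMap.aeval_self_charpoly]; rfl
    rw [hgen, h, zero_dvd_iff] at h1
    exact A.charpoly_monic.ne_zero h1
  by_cases hall : ∀ x ∈ (p0.map (algebraMap ℚ ℂ)).roots.toFinset, ∃ n > 0, x ^ n = 1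
  · left
    obtain ⟨n, hn, hx⟩ := common_exp _ hall
    set q : ℂ[X] := X ^ n - 1 with hq
    have hpm0 : p0.map (algebraMap ℚ ℂ) ≠ 0 := by
      rw [Ne, Polynomial.map_eq_zero]; exact hp0ne
    have h1 : ((p0.map (algebraMap ℚ ℂ)).roots.map (fun x => X - C x)).prod ∣
        q ^ (Multiset.card (p0.map (algebraMap ℚ ℂ)).roots) := by
      apply prod_dvd
      intro x hx'
      rw [dvd_iff_isRoot, IsRoot.def, hq, eval_sub, eval_pow, eval_X, eval_one,
        hx x (by simpa using hx'), sub_self]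
    set m := Multiset.card (p0.map (algebraMap ℚ ℂ)).roots with hm
    have h2 : p0.map (algebraMap ℚ ℂ) ∣ q ^ m := by
      have hs : (p0.map (algebraMap ℚ ℂ)).Splits := IsAlgClosed.splits _
      rw [hs.eq_prod_roots]
      have hu : IsUnit (C (p0.map (algebraMap ℚ ℂ)).leadingCoeff) := by
        rw [isUnit_C]
        exact isUnit_iff_ne_zero.2 (leadingCoeff_ne_zero.2 hpm0)
      exact (hu.mul_left_dvd).2 h1
    have h3 : p0 ∣ (X ^ n - 1) ^ m := by
      rw [← Polynomial.map_dvd_map' (algebraMap ℚ ℂ)]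
      simpa [hq] using h2
    rw [← hgen, hmemI] at h3
    have h4 := bc_aeval g ((X ^ n - 1) ^ m) d
    have h5 : ((X ^ n - 1 : ℤ[X]) ^ m).map (algebraMap ℤ ℚ) = (X ^ n - 1) ^ m := by simp
    rw [h5] at h4
    have h6 : (aeval g ((X ^ n - 1 : ℤ[X]) ^ m)) = (g ^ n - 1) ^ m := by simp
    rw [h6] at h4
    have h7 : (1 : ℚ) ⊗ₜ[ℤ] (((g ^ n - 1) ^ m) d) = 0 := by
      rw [← h4]; exact h3
    have h8 : TensorProduct.mk ℤ ℚ M 1 (((g ^ n - 1) ^ m) d) = 0 := h7
    rw [IsLocalizedModule.eq_zero_iff (nonZeroDivisors ℤ)] at h8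
    obtain ⟨s, hs⟩ := h8
    have hs0 : (s : ℤ) ≠ 0 := nonZeroDivisors.ne_zero s.2
    refine ⟨n, m, (s : ℤ).natAbs, hn, Int.natAbs_pos.2 hs0, ?_⟩
    have hs' : (s : ℤ) • ((g ^ n - 1) ^ m) d = 0 := hs
    rcases Int.natAbs_eq (s : ℤ) with h | h
    · rw [← h]; exact hs'
    · have : ((s : ℤ).natAbs : ℤ) = -(s : ℤ) := by rw [eq_comm, neg_eq_iff_eq_neg]; exact h
      rw [this, neg_smul, hs', neg_zero]
  · right
    push Not at hall
    obtain ⟨x, hx, hxn⟩ := hall
    rw [Multiset.mem_toFinset, mem_roots'] at hx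
    have hroot := hx.2
    refine ⟨x, ?_, hxn, ?_⟩
    · rintro rfl
      -- `X ∣ p0`
      have h1 : p0.coeff 0 = 0 := by
        rw [IsRoot.def, ← coeff_zero_eq_eval_zero, coeff_map] at hroot
        exact (map_eq_zero (algebraMap ℚ ℂ)).1 hroot
      obtain ⟨r, hr⟩ := X_dvd_iff.2 h1
      have h2 : r ∈ I := by
        rw [hmemI]
        apply hAinj
        rw [map_zero]
        rw [hmemI, hr, map_mul, aeval_X, Module.End.mul_apply] at hp0I
        exact hp0I
      rw [hgen] at h2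
      have hr0 : r ≠ 0 := by
        rintro rfl
        exact hp0ne (by rw [hr, mul_zero])
      have h3 := Polynomial.natDegree_le_of_dvd h2 hr0
      rw [hr, natDegree_mul X_ne_zero hr0, natDegree_X] at h3
      omega
    · intro p hp
      have h1 : p.map (algebraMap ℤ ℚ) ∈ I := by
        rw [hmemI]
        rw [bc_aeval, hp, TensorProduct.tmul_zero]
      rw [hgen] at h1
      obtain ⟨r, hr⟩ := h1
      have h2 : aeval x (p.map (algebraMap ℤ ℚ)) = 0 := by
        rw [hr, map_mul]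
        have : aeval x p0 = 0 := by
          rw [aeval_def, ← eval_map]; exact hroot
        rw [this, zero_mul]
      rw [aeval_map_algebraMap] at h2
      exact h2

end Pool.Agent.H785R3.GrowthP
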