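import Pool.Agent.H785R3.GrowthO
import Pool.Agent.H785R3.GrowthP
import Pool.Agent.H746UG.MetFinal
import Pool.Agent.H648R4.Nilp

/-! Helper file (helper785), part Q: digit sums and virtual nilpotence. -/

namespace Pool.Agent.H785R3.GrowthA

open Subgroup
open scoped Pointwise commutatorElement IsMulCommutative

universe u

section Count

variable {G : Type u} [Group G]

lemma card_DS_le {S : Set G} (hS : S.Finite) {j : ℕ} {X Y : G} (hX : X ∈ S ^ j) (hY : Y ∈ S ^ j)
    (x : ℂ) (h : ∀ u v : List Bool, u.length = v.length → H746UG.ev X Y u = H746UG.ev X Y v →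
      H746UG.dsm x u = H746UG.dsm x v) (n : ℕ) :
    Nat.card (H746UG.DS x n) ≤ Nat.card ↥(S ^ n) ^ j := by
  refine le_trans ?_ (H746UG.card_pow_mul S j n)
  have : Finite ↥(S ^ (j * n)) := H746UG.finite_pow S hS _
  choose w hw1 hw2 using fun z : H746UG.DS x n => z.2
  refine Nat.card_le_card_of_injective
    (fun z => (⟨H746UG.ev X Y (w z), by
      have := H746UG.ev_mem S j hX hY (w z)
      rwa [hw1 z] at this⟩ : ↥(S ^ (j * n)))) ?_
  intro z z' hzz
  have h1 := h (w z) (w z') ((hw1 z).trans (hw1 z').symm) (congrArg Subtype.val hzz)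
  apply Subtype.ext
  rw [hw2 z, hw2 z', h1]

lemma pow_le_of_le {S : Set G} (hS : S.Finite) (hne : S.Nonempty) {a b : ℕ} (hab : a ≤ b) (n : ℕ) :
    Nat.card ↥(S ^ n) ^ a ≤ Nat.card ↥(S ^ n) ^ b := by
  have hne' : (S ^ n).Nonempty := hne.pow
  have : Finite ↥(S ^ n) := H746UG.finite_pow S hS n
  have : Nonempty ↥(S ^ n) := hne'.to_subtype
  exact Nat.pow_le_pow_right Nat.card_pos hab

end Count

section Abel

variable {G : Type u} [Group G] (A : Subgroup G) [A.Normal] [IsMulCommutative A]

lemma ev_val (t : G) (m : Additive A) (w : List Bool) :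
    H746UG.ev t (H746UG.val A m * t) w =
      H746UG.val A ((Polynomial.aeval (H746UG.th A t)
        (H746UG.dsm (Polynomial.X : Polynomial ℤ) w)) m) * t ^ w.length := by
  induction w with
  | nil => simp [H746UG.ev_nil, H746UG.dsm, H746UG.val_zero]
  | cons b w ih =>
    rw [H746UG.ev_cons, ih, H746UG.dsm, map_add, LinearMap.add_apply, map_mul, Polynomial.aeval_X,
      Module.End.mul_apply, H746UG.val_add, H746UG.val_th, List.length_cons, pow_succ']
    cases b
    · simp only [Bool.false_eq_true, if_false, map_one, Module.End.one_apply]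
      group
    · simp only [if_true, map_zero, LinearMap.zero_apply, H746UG.val_zero]
      group

lemma digits_of_pair {t d : G} {m : Additive A} (hm : H746UG.val A m = d) (x : ℂ)
    (hx : ∀ p : Polynomial ℤ, (Polynomial.aeval (H746UG.th A t) p) m = 0 →
      Polynomial.aeval x p = 0) (u v : List Bool) (hl : u.length = v.length)
    (h : H746UG.ev t (t * d) u = H746UG.ev t (t * d) v) :
    H746UG.dsm x u = H746UG.dsm x v := by
  have e : t * d = H746UG.val A (H746UG.th A t m) * t := by
    rw [H746UG.val_th, hm]; group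
  rw [e, ev_val, ev_val, hl] at h
  have h1 := H746UG.val_inj (mul_right_cancel h)
  set g := H746UG.th A t with hg
  have hcomm : ∀ p : Polynomial ℤ, (Polynomial.aeval g p) (g m) = g ((Polynomial.aeval g p) m) := by
    intro p
    have h2 : Polynomial.aeval g (p * Polynomial.X) = Polynomial.aeval g (Polynomial.X * p) := by
      rw [mul_comm]
    rw [map_mul, map_mul, Polynomial.aeval_X] at h2
    exact congrArg (fun f : Module.End ℤ (Additive A) => f m) h2
  rw [hcomm, hcomm] at h1
  have h3 := rho_inj (H746UG.th A) t h1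
  have h4 := hx (H746UG.dsm Polynomial.X u - H746UG.dsm Polynomial.X v) (by
    rw [map_sub, LinearMap.sub_apply, h3, sub_self])
  have h5 : ∀ w : List Bool, (Polynomial.aeval x) (H746UG.dsm (Polynomial.X : Polynomial ℤ) w) =
      H746UG.dsm x w := by
    intro w
    have := H746UG.dsm_map ((Polynomial.aeval x : Polynomial ℤ →ₐ[ℤ] ℂ) : Polynomial ℤ →+* ℂ)
      Polynomial.X w
    simpa using this
  rw [map_sub, h5, h5, sub_eq_zero] at h4
  exact h4

/-- values of a submodule -/
def valSub (V : Submodule ℤ (Additive A)) : Subgroup G where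
  carrier := H746UG.val A '' (V : Set (Additive A))
  mul_mem' := by
    rintro _ _ ⟨a, ha, rfl⟩ ⟨b, hb, rfl⟩
    exact ⟨a + b, add_mem ha hb, H746UG.val_add a b⟩
  one_mem' := ⟨0, zero_mem _, H746UG.val_zero⟩
  inv_mem' := by
    rintro _ ⟨a, ha, rfl⟩
    exact ⟨-a, neg_mem ha, H746UG.val_neg a⟩

/-- unipotent action of a finite index subgroup gives a nilpotent one -/
lemma nilp_of_UU {k : ℕ} (hA : gam G k = A) (h : UU (H746UG.th A) ⊥) :
    ∃ H : Subgroup G, H.Normal ∧ H.FiniteIndex ∧ A ≤ H ∧ ∃ n, H.lowerCentralSeries n = ⊥ := by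
  obtain ⟨H, hH, n, hn⟩ := h
  set H0 := H.normalCore with hH0
  have hH0f : H0.FiniteIndex := inferInstance
  set H1 := H0 ⊔ A with hH1
  have hth : ∀ g ∈ H1, ∃ h ∈ H, H746UG.th A g = H746UG.th A h := by
    intro g hg
    have hg' : g ∈ ((H0 ⊔ A : Subgroup G) : Set G) := hg
    rw [mul_normal] at hg'
    obtain ⟨y, hy, z, hz, rfl⟩ := hg'
    exact ⟨y, normalCore_le H hy, by
      show H746UG.th A (y * z) = _
      rw [map_mul, H746UG.th_of_mem hz, mul_one]⟩
  refine ⟨H1, inferInstance, ?_, le_sup_right, k + n, ?_⟩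
  · exact Subgroup.finiteIndex_of_le (le_sup_left : H0 ≤ H1)
  · have key : ∀ i : ℕ, H1.lowerCentralSeries (k + i) ≤ valSub A (aug (H746UG.th A) H i ⊤) := by
      intro i
      induction i with
      | zero =>
        have h1 : H1.lowerCentralSeries k ≤ (⊤ : Subgroup G).lowerCentralSeries k := by
          have : ∀ j, H1.lowerCentralSeries j ≤ (⊤ : Subgroup G).lowerCentralSeries j := by
            intro j
            induction j with
            | zero => exact le_top
            | succ j ih => exact commutator_mono ih le_top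
          exact this k
        intro a ha
        have h2 : a ∈ A := by rw [← hA]; exact h1 ha
        exact ⟨H746UG.el A a h2, trivial, H746UG.val_el a h2⟩
      | succ i ih =>
        show ⁅H1.lowerCentralSeries (k + i), H1⁆ ≤ _
        rw [commutator_le]
        intro a ha g hg
        obtain ⟨m, hm, rfl⟩ := ih ha
        obtain ⟨h, hh, he⟩ := hth g hg
        refine ⟨-(H746UG.th A h m - m), ?_, ?_⟩
        · apply neg_mem
          exact Submodule.subset_span ⟨h, hh, m, hm, rfl⟩
        · rw [← he, neg_sub, H746UG.val_sub, H746UG.val_th, commutatorElement_def]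
          group
    rw [eq_bot_iff]
    intro a ha
    obtain ⟨m, hm, rfl⟩ := key n ha
    have := hn hm
    rw [Submodule.mem_bot] at this
    rw [this, H746UG.val_zero]; exact one_mem _

end Abel

end Pool.Agent.H785R3.GrowthA
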