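import Pool.Agent.H785R3.GrowthQ

/-! Helper file (helper785), part R: the group-level theorem. -/

namespace Pool.Agent.H785R3.GrowthA

open Subgroup
open scoped Pointwise commutatorElement IsMulCommutative

universe u

/-- the conclusion: digit sums of a nonzero complex number that is not a root of unity -/
def Dig {G : Type u} [Group G] (S : Set G) (L : ℕ) : Prop :=
  ∃ x : ℂ, x ≠ 0 ∧ (∀ n > 0, x ^ n ≠ 1) ∧
    ∀ n, Nat.card (H746UG.DS x n) ≤ Nat.card ↥(S ^ n) ^ L

lemma Dig_of_pair {G : Type u} [Group G] {S : Set G} (hS : S.Finite) {j L : ℕ} (hj : 0 < j)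
    (hjL : j ≤ L) {X Y : G} (hX : X ∈ S ^ j) (hY : Y ∈ S ^ j) {x : ℂ} (hx0 : x ≠ 0)
    (hx : ∀ n > 0, x ^ n ≠ 1)
    (h : ∀ u v : List Bool, u.length = v.length → H746UG.ev X Y u = H746UG.ev X Y v →
      H746UG.dsm x u = H746UG.dsm x v) : Dig S L := by
  have hne : S.Nonempty := by
    rw [Set.nonempty_iff_ne_empty]
    rintro rfl
    rw [Set.empty_pow hj.ne'] at hX
    exact hX
  exact ⟨x, hx0, hx, fun n => (card_DS_le hS hX hY x h n).trans (pow_le_of_le hS hne hjL n)⟩

lemma Dig_of_not_NoFree {G : Type u} [Group G] {S : Set G} (hS : S.Finite) {L : ℕ}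
    (h : ¬ NoFree S L) : Dig S L := by
  unfold NoFree at h
  push Not at h
  obtain ⟨j, hj, a, ha, b, hb, hfree⟩ := h
  rcases Nat.eq_zero_or_pos j with h0 | h0
  · subst h0
    exfalso
    rw [pow_zero, Set.mem_one] at ha hb
    subst ha hb
    have := hfree [true] [false] rfl (by simp [ev])
    simp at this
  · refine Dig_of_pair hS h0 hj hb ha two_ne_zero H746UG.two_not_root ?_
    intro u v hl he
    have : u = v := hfree u v hl he
    rw [this]

lemma two_pow_of_not_NoFree {G : Type u} [Group G] {S : Set G} (hS : S.Finite) {L : ℕ}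
    (h : ¬ NoFree S L) (n : ℕ) : 2 ^ n ≤ Nat.card ↥(S ^ n) ^ L := by
  unfold NoFree at h
  push Not at h
  obtain ⟨j, hj, a, ha, b, hb, hfree⟩ := h
  rcases Nat.eq_zero_or_pos j with h0 | h0
  · subst h0
    exfalso
    rw [pow_zero, Set.mem_one] at ha hb
    subst ha hb
    have := hfree [true] [false] rfl (by simp [ev])
    simp at this
  · have hne : S.Nonempty := by
      rw [Set.nonempty_iff_ne_empty]
      rintro rfl
      rw [Set.empty_pow h0.ne'] at ha
      exact ha
    exact (H746UG.growth_of_freePair S hS j hb ha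
      (H746UG.freePair_of_eq_length (fun u v hl he => hfree u v hl he)) n).trans
        (pow_le_of_le hS hne hj n)

lemma Dig_of_map {G H : Type u} [Group G] [Group H] (f : G →* H) {S : Set G} (hS : S.Finite)
    {L : ℕ} (h : Dig (f '' S) L) : Dig S L := by
  obtain ⟨x, hx0, hx, h⟩ := h
  refine ⟨x, hx0, hx, fun n => (h n).trans ?_⟩
  apply Nat.pow_le_pow_left
  have : Finite ↥(S ^ n) := H746UG.finite_pow S hS n
  rw [← Set.image_pow]
  exact Nat.card_image_le this

theorem abel_case {G : Type u} [Group G] {S : Set G} (hfin : S.Finite) (hS : closure S = ⊤)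
    {k : ℕ} (hk : 1 ≤ k) (hab : ∀ a ∈ gam G k, ∀ b ∈ gam G k, a * b = b * a) :
    Dig S (2 ^ (k + 1)) ∨
    ∃ H : Subgroup G, H.Normal ∧ H.FiniteIndex ∧ gam G k ≤ H ∧ ∃ n, H.lowerCentralSeries n = ⊥ := by
  classical
  by_cases hNF : NoFree S (2 ^ (k + 1))
  swap
  · exact Or.inl (Dig_of_not_NoFree hfin hNF)
  by_cases hD : Dig S (2 ^ (k + 1))
  · exact Or.inl hD
  right
  obtain ⟨F, hF, hFsub, hFcl⟩ := gam_fg_of_abelian hfin hS hk hab hNF
  set A := gam G k with hA
  have hcommA : IsMulCommutative A := ⟨⟨fun a b => Subtype.ext (hab a a.2 b b.2)⟩⟩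
  have hAfg : A.FG := ⟨hF.toFinset, by rw [Set.Finite.coe_toFinset]; exact hFcl⟩
  have hAfg2 : Group.FG A := (Group.fg_iff_subgroup_fg A).2 hAfg
  have hMfin : Module.Finite ℤ (Additive A) := by
    rw [Module.Finite.iff_addGroup_fg]
    infer_instance
  obtain ⟨j, rfl⟩ : ∃ j, k = j + 1 := ⟨k - 1, by omega⟩
  let C : Set (Additive A) := {m | H746UG.val A m ∈ Df S j}
  have hDA : Df S j ⊆ (A : Set G) := Df_subset j
  have hUU := coreU (H746UG.th A) hfin hS hk (fun g hg => H746UG.th_of_mem hg) (C := C)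
    (by
      intro V hV hCV
      rw [eq_top_iff]
      intro m _
      have hBn : (valSub A V).Normal := by
        constructor
        rintro _ ⟨a, ha, rfl⟩ g
        exact ⟨H746UG.th A g a, hV g a ha, H746UG.val_th g a⟩
      have hDB : Df S j ⊆ (valSub A V : Set G) := by
        intro d hd
        exact ⟨H746UG.el A d (hDA hd), hCV hd, H746UG.val_el d (hDA hd)⟩
      have hle : A ≤ valSub A V := (gam_le_normalClosure hS j).trans (normalClosure_le_normal hDB)
      obtain ⟨a, ha, hav⟩ := hle (H746UG.val_mem m)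
      rw [← H746UG.val_inj hav]; exact ha)
    (by
      intro c hc
      obtain ⟨u, v, huv, hcv⟩ := hc
      obtain ⟨l', hl', hu, hv⟩ := Pr_len huv
      have key : ∀ l ≤ 1, ∀ g ∈ S ^ l, QU (H746UG.th A) (g * v) c := by
        intro l hl g hg
        by_contra hcon
        apply hD
        rcases GrowthP.exists_root (H746UG.th A (g * v)) (rho_inj (H746UG.th A) (g * v)) c with
          h | ⟨x, hx0, hx, hp⟩
        · exact absurd h hcon
        · have h1 : 2 ^ (j + 1 + 1) = 4 * 2 ^ j := by rw [pow_succ, pow_succ]; ring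
          have h2 : 0 < 2 ^ j := by positivity
          have e : g * v * H746UG.val A c = g * u := by rw [hcv]; group
          have hX : g * v ∈ S ^ (l + l') := mul_mem_pow hg hv rfl
          have hY : g * v * H746UG.val A c ∈ S ^ (l + l') := by
            rw [e]; exact mul_mem_pow hg hu rfl
          have hl0 : 0 < l + l' := by
            rcases Nat.eq_zero_or_pos (l + l') with h0 | h0
            · exfalso
              apply hcon
              rw [h0, pow_zero, Set.mem_one] at hX hY
              have hc0 : c = 0 := by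
                apply H746UG.val_inj
                rw [H746UG.val_zero]
                rw [hX, one_mul] at hY
                exact hY
              rw [hc0]
              exact ⟨1, 1, 1, one_pos, one_pos, by simp⟩
            · exact h0
          exact Dig_of_pair hfin hl0 (by omega) hX hY hx0 hx
            (fun u v hl he => digits_of_pair A rfl x hp u v hl he)
      refine ⟨v, ?_, ?_⟩
      · have := key 0 (by norm_num) 1 (by simp)
        simpa using this
      · intro w hw
        exact key 1 le_rfl w (by simpa using hw))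
  exact nilp_of_UU A rfl hUU

lemma lcs_map {G H : Type u} [Group G] [Group H] (f : G →* H) (N : Subgroup G) (N' : Subgroup H)
    (h : N.map f ≤ N') : ∀ i : ℕ, (N.lowerCentralSeries i).map f ≤ N'.lowerCentralSeries i
  | 0 => h
  | i + 1 => by
    show (⁅N.lowerCentralSeries i, N⁆).map f ≤ ⁅N'.lowerCentralSeries i, N'⁆
    rw [Subgroup.map_commutator]
    exact commutator_mono (lcs_map f N N' h i) h

theorem main_dig {G : Type u} [Group G] {S : Set G} (hfin : S.Finite) (hS : closure S = ⊤)
    {k : ℕ} (hk : 1 ≤ k) :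
    Dig S (2 ^ (k + 1)) ∨ (Group.IsVirtuallyNilpotent (G ⧸ ⁅gam G k, gam G k⁆) ∧
      (Group.IsNilpotent (gam G k) → Group.IsVirtuallyNilpotent G)) := by
  classical
  set Γ := gam G k with hΓ
  set D := ⁅Γ, Γ⁆ with hD
  have hDle : D ≤ Γ := commutator_le_left _ _
  have hsurj := QuotientGroup.mk'_surjective D
  have hS' : closure ((QuotientGroup.mk' D) '' S) = ⊤ := by
    rw [← MonoidHom.map_closure, hS, ← MonoidHom.range_eq_map]
    exact MonoidHom.range_eq_top.2 hsurj
  have hg : gam (G ⧸ D) k = Γ.map (QuotientGroup.mk' D) := gam_map hsurj k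
  have hab : ∀ a ∈ gam (G ⧸ D) k, ∀ b ∈ gam (G ⧸ D) k, a * b = b * a := by
    rw [hg]
    rintro _ ⟨a, ha, rfl⟩ _ ⟨b, hb, rfl⟩
    have : ⁅a, b⁆ ∈ D := commutator_mem_commutator ha hb
    rw [← QuotientGroup.eq_one_iff, commutatorElement_def] at this
    simp only [QuotientGroup.mk_mul, QuotientGroup.mk_inv] at this
    rw [mul_inv_eq_one, mul_inv_eq_iff_eq_mul] at this
    exact this
  rcases abel_case (hfin.image (QuotientGroup.mk' D)) hS' hk hab with h | ⟨H, hHn, hHf, hle, n, hn⟩
  · exact Or.inl (Dig_of_map _ hfin h)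
  · right
    refine ⟨⟨H, (Subgroup.isNilpotent_iff_lowerCentralSeries H).2 ⟨n, hn⟩, hHf⟩, fun hnil => ?_⟩
    set H2 := H.comap (QuotientGroup.mk' D) with hH2
    have hH2n : H2.Normal := hHn.comap _
    have hH2f : H2.FiniteIndex :=
      ⟨by rw [hH2, index_comap_of_surjective _ hsurj]; exact hHf.index_ne_zero⟩
    have hle2 : Γ ≤ H2 := by
      intro a ha
      apply hle
      rw [hg]
      exact mem_map_of_mem _ ha
    obtain ⟨c, hc⟩ := (Subgroup.isNilpotent_iff_lowerCentralSeries Γ).1 hnil
    have h1 : H2.lowerCentralSeries n ≤ ⁅Γ, Γ⁆ := by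
      intro a ha
      have h2 := lcs_map (QuotientGroup.mk' D) H2 H (map_comap_le _ _) n (mem_map_of_mem _ ha)
      rw [hn, mem_bot] at h2
      exact (QuotientGroup.eq_one_iff a).1 h2
    obtain ⟨m, hm⟩ := H648R4.hall hle2 hc h1
    exact ⟨H2, (Subgroup.isNilpotent_iff_lowerCentralSeries H2).2 ⟨m, hm⟩, hH2f⟩

end Pool.Agent.H785R3.GrowthA
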