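import Mathlib

set_option autoImplicit false

namespace Pool.Agent.H785R3.OddIndex

open Finset

/-- Vertex type: three hubs and three blobs of size `s`. -/
abbrev VT (s : ℕ) := Fin 3 ⊕ (Fin 3 × Fin s)

/-- Adjacency: hub `i` is joined to all vertices of blob `k` when `i ≠ k`; each blob is a clique. -/
def adj (s : ℕ) : VT s → VT s → Prop
  | Sum.inl _, Sum.inl _ => False
  | Sum.inl i, Sum.inr (k, _) => i ≠ k
  | Sum.inr (k, _), Sum.inl i => i ≠ k
  | Sum.inr (k, x), Sum.inr (l, y) => k = l ∧ x ≠ y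

/-- The graph. -/
def G (s : ℕ) : SimpleGraph (VT s) where
  Adj := adj s
  symm := by
    constructor
    rintro (i | ⟨k, x⟩) (j | ⟨l, y⟩) h <;> simp_all [adj]
    exact fun h' => h.2 h'.symm
  loopless := by
    constructor
    rintro (i | ⟨k, x⟩) h <;> simp_all [adj]

lemma adj_ll {s : ℕ} (i j : Fin 3) : ¬ (G s).Adj (Sum.inl i) (Sum.inl j) := by
  simp [G, adj]

lemma adj_lr {s : ℕ} (i k : Fin 3) (x : Fin s) :
    (G s).Adj (Sum.inl i) (Sum.inr (k, x)) ↔ i ≠ k := by
  simp [G, adj]

lemma adj_rl {s : ℕ} (i k : Fin 3) (x : Fin s) :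
    (G s).Adj (Sum.inr (k, x)) (Sum.inl i) ↔ i ≠ k := by
  simp [G, adj]

lemma adj_rr {s : ℕ} (k l : Fin 3) (x y : Fin s) :
    (G s).Adj (Sum.inr (k, x)) (Sum.inr (l, y)) ↔ k = l ∧ x ≠ y := by
  simp [G, adj]

lemma third (i j : Fin 3) (h : i ≠ j) : ∃ k : Fin 3, i ≠ k ∧ j ≠ k := by
  revert i j; decide

lemma two_hubs (k : Fin 3) : ∃ i j : Fin 3, i ≠ j ∧ i ≠ k ∧ j ≠ k := by
  revert k; decide

lemma conn {s : ℕ} (hs : 2 ≤ s) {W : Type} (H : SimpleGraph W) (f : W → VT s)
    (hf : Function.Injective f)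
    (hadj : ∀ a b, (G s).Adj (f a) (f b) → H.Adj a b) (v : VT s)
    (hr : ∀ w, w ≠ v → ∃ a, f a = w) : H.Connected := by
  have hubs : ∀ i j : Fin 3, ∀ a b, f a = Sum.inl i → f b = Sum.inl j → H.Reachable a b := by
    intro i j a b ha hb
    by_cases hij : i = j
    · subst hij
      have : a = b := hf (ha.trans hb.symm)
      subst this
      exact SimpleGraph.Reachable.refl a
    · obtain ⟨k, hik, hjk⟩ := third i j hij
      have : ∃ y : Fin s, (Sum.inr (k, y) : VT s) ≠ v := by
        by_contra hcon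
        push Not at hcon
        have h0 := hcon ⟨0, by omega⟩
        have h1 := hcon ⟨1, by omega⟩
        rw [← h1] at h0
        simp at h0
      obtain ⟨y, hy⟩ := this
      obtain ⟨c, hc⟩ := hr _ hy
      have h1 : H.Adj a c := hadj a c (by rw [ha, hc, adj_lr]; exact hik)
      have h2 : H.Adj c b := hadj c b (by rw [hb, hc, adj_rl]; exact hjk)
      exact h1.reachable.trans h2.reachable
  have blob : ∀ (k : Fin 3) (x : Fin s) (a : W), f a = Sum.inr (k, x) →
      ∃ (i : Fin 3) (b : W), f b = Sum.inl i ∧ H.Reachable a b := by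
    intro k x a ha
    have : ∃ i : Fin 3, i ≠ k ∧ (Sum.inl i : VT s) ≠ v := by
      have h2 := two_hubs k
      obtain ⟨i, j, hij, hik, hjk⟩ := h2
      by_cases hv : (Sum.inl i : VT s) = v
      · refine ⟨j, hjk, ?_⟩
        intro h
        rw [← hv] at h
        exact hij (by simpa using h.symm)
      · exact ⟨i, hik, hv⟩
    obtain ⟨i, hik, hiv⟩ := this
    obtain ⟨b, hb⟩ := hr _ hiv
    refine ⟨i, b, hb, ?_⟩
    exact (hadj a b (by rw [ha, hb, adj_rl]; exact hik)).reachable
  have base : ∃ (i : Fin 3) (b : W), f b = Sum.inl i := by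
    by_cases hv : (Sum.inl 0 : VT s) = v
    · have : (Sum.inl 1 : VT s) ≠ v := by rw [← hv]; simp
      obtain ⟨b, hb⟩ := hr _ this
      exact ⟨1, b, hb⟩
    · obtain ⟨b, hb⟩ := hr _ hv
      exact ⟨0, b, hb⟩
  obtain ⟨i, b, hb⟩ := base
  rw [SimpleGraph.connected_iff_exists_forall_reachable]
  refine ⟨b, fun a => ?_⟩
  rcases hfa : f a with j | ⟨k, x⟩
  · exact hubs i j b a hb hfa
  · obtain ⟨j, c, hc, hac⟩ := blob k x a hfa
    exact (hubs i j b c hb hc).trans hac.symm

open Classical in
lemma ncard_eq {s : ℕ} (P : VT s → Prop) :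
    {w : VT s | P w}.ncard = (∑ i : Fin 3, if P (Sum.inl i) then 1 else 0) +
      ∑ k : Fin 3, ∑ x : Fin s, if P (Sum.inr (k, x)) then 1 else 0 := by
  rw [Set.ncard_eq_toFinset_card']
  rw [Set.toFinset_ofPred, Finset.card_filter, Fintype.sum_sum_type, Fintype.sum_prod_type]

lemma deg_hub {s : ℕ} (i : Fin 3) : {w : VT s | (G s).Adj (Sum.inl i) w}.ncard = 2 * s := by
  classical
  rw [ncard_eq]
  simp only [adj_ll, adj_lr]
  fin_cases i <;> simp [Fin.sum_univ_three] <;> omega

lemma deg_blob {s : ℕ} (hs : 1 ≤ s) (k : Fin 3) (x : Fin s) :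
    {w : VT s | (G s).Adj (Sum.inr (k, x)) w}.ncard = s + 1 := by
  classical
  rw [ncard_eq]
  simp only [adj_rl, adj_rr]
  have h1 : (Finset.univ.filter fun y : Fin s => ¬ x = y).card = s - 1 := by
    rw [Finset.filter_ne]
    simp
  fin_cases k <;> simp [Fin.sum_univ_three] <;> omega

/-- `D`: the number of edges of colour `a` at `v`. -/
noncomputable def D {s : ℕ} (c : Sym2 (VT s) → Fin 3) (v : VT s) (a : Fin 3) : ℕ :=
  {w : VT s | (G s).Adj v w ∧ c s(v, w) = a}.ncard

open Classical in
/-- `A`: number of edges of colour `a` between hub `i` and blob `k`. -/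
noncomputable def A {s : ℕ} (c : Sym2 (VT s) → Fin 3) (i k a : Fin 3) : ℕ :=
  ∑ x : Fin s, if c s(Sum.inl i, Sum.inr (k, x)) = a then 1 else 0

lemma D_hub {s : ℕ} (c : Sym2 (VT s) → Fin 3) (i a : Fin 3) :
    D c (Sum.inl i) a = ∑ k : Fin 3, if i ≠ k then A c i k a else 0 := by
  classical
  unfold D A
  rw [ncard_eq]
  simp only [adj_ll, adj_lr]
  simp only [false_and, if_false, Finset.sum_const_zero, zero_add]
  refine Finset.sum_congr rfl fun k _ => ?_
  by_cases h : i ≠ k <;> simp [h]

lemma D_blob {s : ℕ} (c : Sym2 (VT s) → Fin 3) (k a : Fin 3) (x : Fin s) :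
    D c (Sum.inr (k, x)) a =
      (∑ i : Fin 3, if i ≠ k ∧ c s(Sum.inl i, Sum.inr (k, x)) = a then 1 else 0) +
      ∑ y : Fin s, if x ≠ y ∧ c s(Sum.inr (k, x), Sum.inr (k, y)) = a then 1 else 0 := by
  classical
  unfold D
  rw [ncard_eq]
  simp only [adj_rl, adj_rr]
  congr 1
  · refine Finset.sum_congr rfl fun i _ => ?_
    rw [Sym2.eq_swap]
  · rw [Finset.sum_eq_single k]
    · refine Finset.sum_congr rfl fun y _ => ?_
      simp
    · intro l _ hl
      refine Finset.sum_eq_zero fun y _ => ?_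
      rw [if_neg]
      rintro ⟨⟨h, _⟩, _⟩
      exact hl h.symm
    · simp

lemma D_sum {s : ℕ} (c : Sym2 (VT s) → Fin 3) (v : VT s) :
    D c v 0 + D c v 1 + D c v 2 = {w : VT s | (G s).Adj v w}.ncard := by
  classical
  unfold D
  simp only [Set.ncard_eq_toFinset_card', Set.toFinset_ofPred, Finset.card_filter]
  rw [← Finset.sum_add_distrib, ← Finset.sum_add_distrib]
  refine Finset.sum_congr rfl fun w _ => ?_
  by_cases h : (G s).Adj v w
  · have : ∀ t : Fin 3, t = 0 ∨ t = 1 ∨ t = 2 := by decide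
    rcases this (c s(v, w)) with h' | h' | h' <;> simp [h, h']
  · simp [h]

lemma A_sum {s : ℕ} (c : Sym2 (VT s) → Fin 3) (i k : Fin 3) :
    A c i k 0 + A c i k 1 + A c i k 2 = s := by
  classical
  unfold A
  rw [← Finset.sum_add_distrib, ← Finset.sum_add_distrib]
  have : ∀ x : Fin s, ((if c s(Sum.inl i, Sum.inr (k, x)) = 0 then 1 else 0) +
      (if c s(Sum.inl i, Sum.inr (k, x)) = 1 then 1 else 0) +
      (if c s(Sum.inl i, Sum.inr (k, x)) = 2 then 1 else 0)) = 1 := by
    intro x
    have : ∀ t : Fin 3, t = 0 ∨ t = 1 ∨ t = 2 := by decide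
    rcases this (c s(Sum.inl i, Sum.inr (k, x))) with h' | h' | h' <;> simp [h']
  rw [Finset.sum_congr rfl fun x _ => this x]
  simp

/-- Handshake. -/
lemma handshake {s : ℕ} (F : Fin s → Fin s → ℕ) (hF : ∀ x y, F x y = F y x)
    (h0 : ∀ x, F x x = 0) : Even (∑ x, ∑ y, F x y) := by
  classical
  have h1 : ∀ x y, F x y = (if x < y then F x y else 0) + (if y < x then F y x else 0) := by
    intro x y
    rcases lt_trichotomy x y with h | h | h
    · simp [h, not_lt.mpr h.le]
    · subst h; simp [h0]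
    · simp [h, not_lt.mpr h.le, hF x y]
  have h2 : ∑ x, ∑ y, F x y = (∑ x, ∑ y, if x < y then F x y else 0) +
      ∑ x, ∑ y, if x < y then F x y else 0 := by
    calc ∑ x, ∑ y, F x y
        = ∑ x, ∑ y, ((if x < y then F x y else 0) + (if y < x then F y x else 0)) := by
          refine Finset.sum_congr rfl fun x _ => Finset.sum_congr rfl fun y _ => h1 x y
      _ = (∑ x, ∑ y, if x < y then F x y else 0) +
            ∑ x, ∑ y, if y < x then F y x else 0 := by
          simp only [Finset.sum_add_distrib]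
      _ = _ := by
          congr 1
          rw [Finset.sum_comm]
  rw [h2]
  exact ⟨_, rfl⟩

lemma D_blob_sum {s : ℕ} (c : Sym2 (VT s) → Fin 3) (k a : Fin 3) :
    ∃ r : ℕ, ∑ x : Fin s, D c (Sum.inr (k, x)) a =
      (∑ i : Fin 3, if i ≠ k then A c i k a else 0) + 2 * r := by
  classical
  have hE := handshake
    (fun x y : Fin s => if x ≠ y ∧ c s(Sum.inr (k, x), Sum.inr (k, y)) = a then 1 else 0)
    (by
      intro x y
      show (if _ then 1 else 0) = (if _ then 1 else 0)
      rw [Sym2.eq_swap]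
      congr 1
      simp [ne_comm])
    (by intro x; simp)
  obtain ⟨r, hr⟩ := hE
  refine ⟨r, ?_⟩
  simp only [D_blob]
  rw [Finset.sum_add_distrib, Finset.sum_comm]
  have : ∑ x : Fin s, ∑ y : Fin s,
      (if x ≠ y ∧ c s(Sum.inr (k, x), Sum.inr (k, y)) = a then 1 else 0) = 2 * r := by
    rw [two_mul]; exact hr
  rw [this]
  congr 1
  refine Finset.sum_congr rfl fun i _ => ?_
  unfold A
  by_cases h : i ≠ k <;> simp [h]

lemma D_zero {s : ℕ} (c : Sym2 (VT s) → Fin 3) (v w : VT s) (a : Fin 3)
    (h : D c v a = 0) (hvw : (G s).Adj v w) : c s(v, w) ≠ a := by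
  intro hc
  unfold D at h
  rw [Set.ncard_eq_zero (Set.toFinite _)] at h
  have : w ∈ {w : VT s | (G s).Adj v w ∧ c s(v, w) = a} := ⟨hvw, hc⟩
  rw [h] at this
  exact this

/-- The main lemma. -/
lemma no_colouring {s : ℕ} (hs : 2 ≤ s) (he : Even s) (c : Sym2 (VT s) → Fin 3)
    (hc : ∀ v a, D c v a = 0 ∨ Odd (D c v a)) : False := by
  have t3 : ∀ t : Fin 3, t = 0 ∨ t = 1 ∨ t = 2 := by decide
  -- every hub misses exactly one colour
  have hub : ∀ i : Fin 3, ∃ m : Fin 3, D c (Sum.inl i) m = 0 ∧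
      ∀ a, a ≠ m → Odd (D c (Sum.inl i) a) := by
    intro i
    have h1 := D_sum c (Sum.inl i)
    rw [deg_hub] at h1
    have e0 := hc (Sum.inl i) 0
    have e1 := hc (Sum.inl i) 1
    have e2 := hc (Sum.inl i) 2
    obtain ⟨q, hq⟩ := he
    rcases e0 with e0 | e0 <;> rcases e1 with e1 | e1 <;> rcases e2 with e2 | e2
    · omega
    · exfalso; obtain ⟨r, hr⟩ := e2; omega
    · exfalso; obtain ⟨r, hr⟩ := e1; omega
    · refine ⟨0, e0, fun a ha => ?_⟩
      rcases t3 a with rfl | rfl | rfl
      · exact absurd rfl ha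
      · exact e1
      · exact e2
    · exfalso; obtain ⟨r, hr⟩ := e0; omega
    · refine ⟨1, e1, fun a ha => ?_⟩
      rcases t3 a with rfl | rfl | rfl
      · exact e0
      · exact absurd rfl ha
      · exact e2
    · refine ⟨2, e2, fun a ha => ?_⟩
      rcases t3 a with rfl | rfl | rfl
      · exact e0
      · exact e1
      · exact absurd rfl ha
    · exfalso
      obtain ⟨r0, hr0⟩ := e0
      obtain ⟨r1, hr1⟩ := e1
      obtain ⟨r2, hr2⟩ := e2
      omega
  choose m hm0 hm1 using hub
  -- no edges of colour `m i` at hub `i`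
  have Am : ∀ i k, i ≠ k → A c i k (m i) = 0 := by
    intro i k hik
    have := hm0 i
    rw [D_hub, Finset.sum_eq_zero_iff] at this
    simpa [hik] using this k (Finset.mem_univ k)
  -- within a pair (hub, blob) the two available colours have equal parity
  have par : ∀ i k, i ≠ k → ∀ a b, a ≠ m i → b ≠ m i →
      A c i k a % 2 = A c i k b % 2 := by
    intro i k hik a b ha hb
    have h1 := A_sum c i k
    have h2 := Am i k hik
    obtain ⟨q, hq⟩ := he
    rcases t3 (m i) with h | h | h <;> rw [h] at h2 ha hb <;>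
      rcases t3 a with rfl | rfl | rfl <;> rcases t3 b with rfl | rfl | rfl <;>
      first
        | exact absurd rfl ha
        | exact absurd rfl hb
        | omega
  -- key lemma: a colour seen by all vertices of the blob
  have key : ∀ i j k : Fin 3, i ≠ j → i ≠ k → j ≠ k → ∃ a, a ≠ m i ∧ a ≠ m j ∧
      ∀ x : Fin s, D c (Sum.inr (k, x)) a ≠ 0 := by
    intro i j k hij hik hjk
    by_cases hall : ∀ (x : Fin s) (a : Fin 3), D c (Sum.inr (k, x)) a ≠ 0
    · have : ∀ p q : Fin 3, ∃ a : Fin 3, a ≠ p ∧ a ≠ q := by decide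
      obtain ⟨a, h1, h2⟩ := this (m i) (m j)
      exact ⟨a, h1, h2, fun x => hall x a⟩
    · push Not at hall
      obtain ⟨x, a0, hx⟩ := hall
      have h1 := D_sum c (Sum.inr (k, x))
      rw [deg_blob (by omega)] at h1
      have e0 := hc (Sum.inr (k, x)) 0
      have e1 := hc (Sum.inr (k, x)) 1
      have e2 := hc (Sum.inr (k, x)) 2
      -- the single colour
      have single : ∃ a : Fin 3, D c (Sum.inr (k, x)) a ≠ 0 ∧
          ∀ b, b ≠ a → D c (Sum.inr (k, x)) b = 0 := by
        obtain ⟨q, hq⟩ := he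
        rcases e0 with e0 | e0 <;> rcases e1 with e1 | e1 <;> rcases e2 with e2 | e2
        · omega
        · refine ⟨2, ?_, fun a ha => ?_⟩
          · omega
          · rcases t3 a with rfl | rfl | rfl
            · exact e0
            · exact e1
            · exact absurd rfl ha
        · refine ⟨1, ?_, fun a ha => ?_⟩
          · omega
          · rcases t3 a with rfl | rfl | rfl
            · exact e0
            · exact absurd rfl ha
            · exact e2
        · exfalso
          obtain ⟨r1, hr1⟩ := e1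
          obtain ⟨r2, hr2⟩ := e2
          omega
        · refine ⟨0, ?_, fun a ha => ?_⟩
          · omega
          · rcases t3 a with rfl | rfl | rfl
            · exact absurd rfl ha
            · exact e1
            · exact e2
        · exfalso
          obtain ⟨r1, hr1⟩ := e0
          obtain ⟨r2, hr2⟩ := e2
          omega
        · exfalso
          obtain ⟨r1, hr1⟩ := e0
          obtain ⟨r2, hr2⟩ := e1
          omega
        · exfalso
          obtain ⟨r0, hr0⟩ := e0
          obtain ⟨r1, hr1⟩ := e1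
          obtain ⟨r2, hr2⟩ := e2
          rcases t3 a0 with rfl | rfl | rfl <;> omega
      obtain ⟨a, _, hab⟩ := single
      -- all edges at (k,x) have colour a
      have hcol : ∀ w, (G s).Adj (Sum.inr (k, x)) w → c s(Sum.inr (k, x), w) = a := by
        intro w hw
        by_contra hne
        exact D_zero c _ w _ (hab _ hne) hw rfl
      have hubc : ∀ i', i' ≠ k → a ≠ m i' := by
        intro i' hi' ham
        have hadj : (G s).Adj (Sum.inl i') (Sum.inr (k, x)) := (adj_lr i' k x).2 hi'
        have h2 := hcol _ hadj.symm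
        have h3 := D_zero c _ _ _ (hm0 i') hadj
        rw [Sym2.eq_swap] at h3
        exact h3 (h2.trans ham)
      refine ⟨a, hubc i hik, hubc j hjk, ?_⟩
      intro y
      by_cases hxy : x = y
      · subst hxy; assumption
      · intro hy
        have hadj : (G s).Adj (Sum.inr (k, y)) (Sum.inr (k, x)) :=
          (adj_rr k k y x).2 ⟨rfl, fun h => hxy h.symm⟩
        have h2 := hcol _ hadj.symm
        have h3 := D_zero c _ _ _ hy hadj
        rw [Sym2.eq_swap] at h3
        exact h3 h2
  -- symmetric parity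
  have sym : ∀ i j k : Fin 3, i ≠ j → i ≠ k → j ≠ k → ∀ a b, a ≠ m i → b ≠ m j →
      A c i k a % 2 = A c j k b % 2 := by
    intro i j k hij hik hjk a b ha hb
    obtain ⟨e, he1, he2, he3⟩ := key i j k hij hik hjk
    obtain ⟨r, hr⟩ := D_blob_sum c k e
    have hodd : (∑ x : Fin s, D c (Sum.inr (k, x)) e) % 2 = 0 := by
      rw [Finset.sum_nat_mod]
      have : ∀ x : Fin s, D c (Sum.inr (k, x)) e % 2 = 1 := by
        intro x
        rcases hc (Sum.inr (k, x)) e with h | h
        · exact absurd h (he3 x)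
        · exact Nat.odd_iff.mp h
      rw [Finset.sum_congr rfl fun x _ => this x]
      simp
      obtain ⟨q, hq⟩ := he
      omega
    have hsum : (∑ i' : Fin 3, if i' ≠ k then A c i' k e else 0) = A c i k e + A c j k e := by
      rcases t3 i with rfl | rfl | rfl <;> rcases t3 j with rfl | rfl | rfl <;>
        rcases t3 k with rfl | rfl | rfl <;>
        first
          | exact absurd rfl hij
          | exact absurd rfl hik
          | exact absurd rfl hjk
          | (simp [Fin.sum_univ_three]; try omega)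
    have p1 := par i k hik a e ha he1
    have p2 := par j k hjk b e hb he2
    rw [hsum] at hr
    omega
  -- the hub sums
  have ex : ∀ p : Fin 3, ∃ a : Fin 3, a ≠ p := by decide
  choose e he' using fun i => ex (m i)
  have h0 := hm1 0 (e 0) (he' 0)
  have h1 := hm1 1 (e 1) (he' 1)
  have h2 := hm1 2 (e 2) (he' 2)
  rw [D_hub, Fin.sum_univ_three] at h0 h1 h2
  simp at h0 h1 h2
  have s01 := sym 0 1 2 (by decide) (by decide) (by decide) (e 0) (e 1) (he' 0) (he' 1)
  have s02 := sym 0 2 1 (by decide) (by decide) (by decide) (e 0) (e 2) (he' 0) (he' 2)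
  have s12 := sym 1 2 0 (by decide) (by decide) (by decide) (e 1) (e 2) (he' 1) (he' 2)
  rw [Nat.odd_iff] at h0 h1 h2
  omega

end Pool.Agent.H785R3.OddIndex
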